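import Pool.Agent.Lib.MP_65c801_co.T.St

/-! The dichotomy of the dyadic boxes. -/

namespace Pool.Agent.Lib.MP_65c801_co.T

open Finset Classical

namespace BoxAux

section
variable {V α B : Type} [Fintype V] [LinearOrder α]

/-- the number of edges at `a` in the box of the edge `(a, y)` -/
noncomputable def sd (A : V → V → Prop) (bx : V → V → B) (a y : V) : ℝ :=
  cnt fun z => A a z ∧ bx a z = bx a y

/-- the edge lies on the small side of a box whose other side is large -/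
def Sm (A0 A1 : V → V → Prop) (bx : V → V → B) (θ : ℝ) (a y : V) : Prop :=
  A0 a y ∧ θ ≤ sd A1 bx a y ∧ sd A0 bx a y ≤ sd A1 bx a y

lemma sd_congr (A : V → V → Prop) (bx : V → V → B) {a y z : V} (e : bx a z = bx a y) :
    sd A bx a z = sd A bx a y := by unfold sd; rw [e]

/-- two edges on opposite sides of one box, neither on a small side: the sides are small -/
lemma kept {A0 A1 : V → V → Prop} {bx : V → V → B} {θ : ℝ} {a y z : V} (e : bx a z = bx a y)
    (h0 : A0 a y) (h1 : A1 a z) (k0 : ¬ Sm A0 A1 bx θ a y) (k1 : ¬ Sm A1 A0 bx θ a z) :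
    sd A1 bx a y ≤ θ := by
  by_contra hn
  push Not at hn
  rcases le_total (sd A0 bx a y) (sd A1 bx a y) with c | c
  · exact k0 ⟨h0, hn.le, c⟩
  · refine k1 ⟨h1, ?_, ?_⟩ <;> simp only [sd_congr _ bx e]
    · exact hn.le.trans c
    · exact c

/-- matching chunks of the two sides of every box -/
lemma pairs (A0 A1 : V → V → Prop) (bx : V → V → B) {θ : ℕ} (θ1 : 1 ≤ θ)
    (dis : ∀ a y, A0 a y → ¬ A1 a y) : ∃ c : V → V → ℕ,
    (∀ a β j, cnt (fun y => A0 a y ∧ bx a y = β ∧ c a y = j) ≤ 2 * θ) ∧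
    (∀ a β j, cnt (fun y => A1 a y ∧ bx a y = β ∧ c a y = j) ≤ 2 * θ) ∧
    θ * ed (Sm A0 A1 bx θ) ≤ cnt fun z : V × V × V => Sm A0 A1 bx θ z.1 z.2.1 ∧ A1 z.1 z.2.2 ∧
      bx z.1 z.2.1 = bx z.1 z.2.2 ∧ c z.1 z.2.1 = c z.1 z.2.2 := by
  choose cS hS using fun (a : V) (β : B) =>
    chunks (fun y => A0 a y ∧ bx a y = β) (s := 2 * θ) (by omega)
  choose cL hL using fun (a : V) (β : B) => chunks (fun y => A1 a y ∧ bx a y = β) (s := θ) θ1
  have t0 : (0:ℝ) ≤ θ := Nat.cast_nonneg _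
  refine ⟨fun a y => if A0 a y then cS a (bx a y) y else cL a (bx a y) y, fun a β j => ?_,
    fun a β j => ?_, ?_⟩
  · refine le_trans (cnt_mono ?_) (((hS a β).1 j).trans (by push_cast; rfl))
    rintro y ⟨h1, rfl, h3⟩
    exact ⟨⟨h1, rfl⟩, by simpa only [if_pos h1] using h3⟩
  · refine le_trans (cnt_mono ?_) (((hL a β).1 j).trans (by linarith))
    rintro y ⟨h1, rfl, h3⟩
    exact ⟨⟨h1, rfl⟩, by simpa only [if_neg fun g => dis a y g h1] using h3⟩
  · rw [mul_comm]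
    refine cnt_fib_ge (fun z : V × V × V => (z.1, z.2.1)) ?_
    rintro ⟨a, y⟩ ⟨h1, h2, h3⟩
    simp only at h1 h2 h3
    have k1 := (hS a (bx a y)).2.2 y ⟨h1, rfl⟩
    have k2 : ((cS a (bx a y) y : ℝ) + 1) * θ ≤ cnt fun z => A1 a z ∧ bx a z = bx a y := by
      unfold sd at h2 h3
      rcases Nat.eq_zero_or_pos (cS a (bx a y) y) with e | e
      · rw [e]; simpa using h2
      · have : (1:ℝ) ≤ cS a (bx a y) y := by exact_mod_cast e
        push_cast at k1
        nlinarith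
    refine ((hL a (bx a y)).2.1 _ k2).trans (cnt_inj (fun z => (a, y, z)) ?_ ?_)
    · rintro z ⟨⟨g1, g2⟩, g3⟩
      refine ⟨⟨⟨h1, h2, h3⟩, g1, g2.symm, ?_⟩, rfl⟩
      simp only [if_pos h1, if_neg fun g => dis a z g g1, g2, g3]
    · intro z z' _ _ e
      simpa using e

lemma cover2 {X : Type} [Fintype X] (p : X → Prop) (L : ℕ) (q : ℕ → ℕ → X → Prop) {K : ℝ}
    (h : ∀ x, p x → ∃ i < L, ∃ j < L, q i j x)
    (hK : ∀ i < L, ∀ j < L, cnt (fun x => p x ∧ q i j x) ≤ K) : cnt p ≤ (L:ℝ) ^ 2 * K := by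
  have h1 : ∀ i < L, cnt (fun x => p x ∧ ∃ j < L, q i j x) ≤ L * K := fun i hi => by
    refine (cnt_cover _ L (fun j x => q i j x) fun x hx => hx.2).trans ?_
    calc _ ≤ ∑ _j ∈ range L, K := Finset.sum_le_sum fun j hj =>
          (cnt_mono fun x hx => ⟨hx.1.1, hx.2⟩).trans (hK i hi j (mem_range.1 hj))
      _ = _ := by simp
  refine (cnt_cover p L (fun i x => ∃ j < L, q i j x) h).trans ?_
  calc _ ≤ ∑ _i ∈ range L, (L:ℝ) * K := Finset.sum_le_sum fun i hi => h1 i (mem_range.1 hi)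
    _ = _ := by simp [sq, mul_assoc]

/-- the box of an edge at the levels `i`, `j` -/
noncomputable def bx (h : V → ℕ → α) (t : V → V → ℕ) (S i j : ℕ) (a y : V) : ℕ × ℕ × ℕ :=
  (t a y / S, rkN h (t a y / S * S) y / 2 ^ i / 2, rkN h (t a y / S * S + (S - 1)) y / 2 ^ j / 2)

/-- the edges whose two bits at the levels `i`, `j` equal `b` -/
def ro (h : V → ℕ → α) (E : V → V → Prop) (t : V → V → ℕ) (S i j b : ℕ) (a y : V) : Prop :=
  E a y ∧ rkN h (t a y / S * S) y / 2 ^ i % 2 = b ∧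
    rkN h (t a y / S * S + (S - 1)) y / 2 ^ j % 2 = b

variable {h : V → ℕ → α} {E : V → V → Prop} {t : V → V → ℕ} {S L : ℕ}

lemma rkN_lt_iff {s : ℕ} {y z : V} : rkN h s y < rkN h s z ↔ h y s < h z s := by
  constructor
  · intro e
    exact lt_of_rk (by rw [rk_eq, rk_eq]; exact_mod_cast e)
  · intro e
    have := rk_add_one e
    rw [rk_eq, rk_eq] at this
    exact_mod_cast this

lemma rkN_lt (hc : (Fintype.card V : ℝ) ^ 3 < 2 ^ L) (s : ℕ) (y : V) : rkN h s y < 2 ^ L := by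
  have := lt1 hc fun z => h z s < h y s
  change rk h s y < _ at this
  rw [rk_eq] at this
  exact_mod_cast this

lemma co_of {i j : ℕ} {a y z : V} (h0 : ro h E t S i j 0 a y)
    (h1 : ro h E t S i j 1 a z) (e : bx h t S i j a y = bx h t S i j a z) :
    Co h S (t a y / S) y z := by
  simp only [bx, Prod.mk.injEq] at e
  obtain ⟨e1, e2, e3⟩ := e
  obtain ⟨-, a1, a2⟩ := h0
  obtain ⟨-, b1, b2⟩ := h1
  rw [← e1] at e2 e3 b1 b2
  exact ⟨rkN_lt_iff.1 (Nat.lt_of_div_lt_div (c := 2 ^ i) (by omega)),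
    rkN_lt_iff.1 (Nat.lt_of_div_lt_div (c := 2 ^ j) (by omega))⟩

lemma of_co (hc : (Fintype.card V : ℝ) ^ 3 < 2 ^ L) {a y z : V} (g : E a y)
    (g' : E a z) (w : t a z / S = t a y / S) (c : Co h S (t a y / S) y z) :
    ∃ i < L, ∃ j < L, ro h E t S i j 0 a y ∧ ro h E t S i j 1 a z ∧
      bx h t S i j a z = bx h t S i j a y := by
  obtain ⟨i, hi', a1, a2, a3⟩ := bits_cover (rkN_lt_iff.2 c.1) (rkN_lt hc _ _)
  obtain ⟨j, hj, b1, b2, b3⟩ := bits_cover (rkN_lt_iff.2 c.2) (rkN_lt hc _ _)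
  refine ⟨i, hi', j, hj, ⟨g, a2, b2⟩, ⟨g', ?_, ?_⟩, ?_⟩
  · rw [w]; exact a3
  · rw [w]; exact b3
  · simp only [bx, w, a1, b1]

end

end BoxAux

open BoxAux in
theorem box : BoxS := by
  intro V α _ _ h E t S L θ m c hm
  obtain ⟨n1, -, L1, θ1⟩ := c.num
  have t0 : (0:ℝ) ≤ θ := Nat.cast_nonneg _
  set Rm : ℕ → ℕ → ℕ → V → V → Prop := fun i j b =>
    Sm (ro h E t S i j b) (ro h E t S i j (1 - b)) (bx h t S i j) θ with hRm
  set Bad : V → V → Prop := fun a y => ∃ i < L, ∃ j < L, ∃ b < 2, Rm i j b a y with hBad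
  have sp := cnt_split (fun e : V × V => E e.1 e.2) fun e => Bad e.1 e.2
  rcases le_total (cnt fun e : V × V => E e.1 e.2 ∧ Bad e.1 e.2)
    (cnt fun e : V × V => E e.1 e.2 ∧ ¬ Bad e.1 e.2) with le | le
  · refine Or.inl ⟨fun a y => E a y ∧ ¬ Bad a y, fun a y g => g.1, ?_, ?_⟩
    · refine hm.trans ?_
      have : ed E ≤ 2 * ed fun a y => E a y ∧ ¬ Bad a y := by unfold ed; linarith
      calc _ ≤ 4 * (L:ℝ) ^ 2 * (2 * ed fun a y => E a y ∧ ¬ Bad a y) := by gcongr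
        _ = _ := by ring
    · rintro a y ⟨g, k⟩
      refine cover2 _ L (fun i j z => ∃ b < 2, ro h E t S i j b a y ∧ ro h E t S i j (1 - b) a z ∧
        bx h t S i j a z = bx h t S i j a y) ?_ fun i hi j hj => ?_
      · rintro z ⟨⟨g', -⟩, w, co | co⟩
        · obtain ⟨i, hi, j, hj, r⟩ := of_co c.cb g g' w co
          exact ⟨i, hi, j, hj, 0, by omega, r⟩
        · rw [← w] at co
          obtain ⟨i, hi, j, hj, r0, r1, e⟩ := of_co c.cb g' g w.symm co
          exact ⟨i, hi, j, hj, 1, by omega, r1, r0, e.symm⟩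
      · by_cases ex : ∃ z, ((E a z ∧ ¬ Bad a z) ∧ t a z / S = t a y / S ∧
            (Co h S (t a y / S) y z ∨ Co h S (t a y / S) z y)) ∧ ∃ b < 2, ro h E t S i j b a y ∧
            ro h E t S i j (1 - b) a z ∧ bx h t S i j a z = bx h t S i j a y
        · obtain ⟨z, ⟨⟨-, k'⟩, -⟩, b, hb, r0, r1, e⟩ := ex
          have e1 : 1 - (1 - b) = b := by omega
          refine le_trans (cnt_mono ?_) (kept e r0 r1 (fun s => k ⟨i, hi, j, hj, b, hb, s⟩)
            fun s => k' ⟨i, hi, j, hj, 1 - b, by omega, by simp only [hRm, e1]; exact s⟩)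
          rintro x ⟨-, b', -, r0', r1', e'⟩
          obtain rfl : b' = b := r0'.2.1.symm.trans r0.2.1
          exact ⟨r1', e'⟩
        · exact (cnt_zero fun z hz => ex ⟨z, hz⟩).trans_le t0
  · obtain ⟨i, hi, p1⟩ := pigeon (fun e : V × V => E e.1 e.2 ∧ Bad e.1 e.2) L L1
      (fun i e => ∃ j < L, ∃ b < 2, Rm i j b e.1 e.2) fun e he => he.2
    obtain ⟨j, hj, p2⟩ := pigeon (fun e : V × V => (E e.1 e.2 ∧ Bad e.1 e.2) ∧
      ∃ j < L, ∃ b < 2, Rm i j b e.1 e.2) L L1 (fun j e => ∃ b < 2, Rm i j b e.1 e.2)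
      fun e he => he.2
    obtain ⟨b, hb, p3⟩ := pigeon (fun e : V × V => ((E e.1 e.2 ∧ Bad e.1 e.2) ∧
      ∃ j < L, ∃ b < 2, Rm i j b e.1 e.2) ∧ ∃ b < 2, Rm i j b e.1 e.2) 2 (by omega)
      (fun b e => Rm i j b e.1 e.2) fun e he => he.2
    have p4 := p3.trans (mul_le_mul_of_nonneg_left
      (cnt_mono (q := fun e : V × V => Rm i j b e.1 e.2) fun e he => he.2) (by positivity))
    have r0 : 0 ≤ ed (Rm i j b) := cnt_nonneg _
    have p5 : m ≤ (L:ℝ) ^ 5 * ed (Rm i j b) := by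
      have q1 : ed E ≤ 2 * (L * (L * (2 * ed (Rm i j b)))) := by
        have := p1.trans (mul_le_mul_of_nonneg_left (p2.trans (mul_le_mul_of_nonneg_left p4
          (by positivity))) (by positivity))
        push_cast at this
        unfold ed
        linarith
      calc m ≤ 4 * (L:ℝ) ^ 2 * (2 * (L * (L * (2 * ed (Rm i j b))))) := hm.trans (by gcongr)
        _ = 16 * (L:ℝ) ^ 4 * ed (Rm i j b) := by ring
        _ ≤ _ := mul_le_mul_of_nonneg_right (cpw (by linarith) (by linarith) le_rfl) r0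
    obtain ⟨k, k0, k1, k2⟩ := pairs (ro h E t S i j b) (ro h E t S i j (1 - b)) (bx h t S i j) θ1
      fun a y g g' => by have := g.2.1.symm.trans g'.2.1; omega
    set κ : V → V → ℕ × ℕ × ℕ × ℕ := fun a y =>
      ((bx h t S i j a y).1, (bx h t S i j a y).2.1, (bx h t S i j a y).2.2, k a y) with hκ
    have ke : ∀ a y z, κ a y = κ a z ↔ bx h t S i j a y = bx h t S i j a z ∧ k a y = k a z := by
      intro a y z
      simp only [hκ, Prod.ext_iff, and_assoc]
    have kb : ∀ (A : V → V → Prop), (∀ a β u, cnt (fun y => A a y ∧ bx h t S i j a y = β ∧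
        k a y = u) ≤ 2 * θ) → ∀ a u, cnt (fun y => A a y ∧ κ a y = u) ≤ 2 * θ := by
      intro A hA a u
      refine le_trans (cnt_mono ?_) (hA a (u.1, u.2.1, u.2.2.1) u.2.2.2)
      rintro y ⟨g, rfl⟩
      exact ⟨g, rfl, rfl⟩
    have win : ∀ a y z, κ a y = κ a z → t a y / S = t a z / S := fun a y z e =>
      congrArg Prod.fst e
    have cS : ∀ a u, cnt (fun y => Rm i j b a y ∧ κ a y = u) ≤ 2 * θ := fun a u =>
      (cnt_mono fun y g => ⟨g.1.1, g.2⟩).trans (kb _ k0 a u)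
    have many : θ * m ≤ (L:ℝ) ^ 5 * (θ * ed (Rm i j b)) :=
      (mul_le_mul_of_nonneg_left p5 t0).trans (le_of_eq (by ring))
    refine Or.inr ?_
    obtain rfl | rfl : b = 0 ∨ b = 1 := by omega
    · refine ⟨Rm i j 0, ro h E t S i j (1 - 0), κ, fun a y g => g.1.1, fun a y g => g.1, win,
        fun a y z g g' e => co_of g.1 g' ((ke a y z).1 e).1, cS, kb _ k1,
        many.trans (mul_le_mul_of_nonneg_left (k2.trans (cnt_mono ?_)) (by positivity))⟩
      rintro z ⟨g, g', e⟩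
      exact ⟨g, g', (ke _ _ _).2 e⟩
    · refine ⟨ro h E t S i j (1 - 1), Rm i j 1, κ, fun a y g => g.1, fun a y g => g.1.1, win,
        fun a y z g g' e => co_of g g'.1 ((ke a y z).1 e).1, kb _ k1, cS,
        many.trans (mul_le_mul_of_nonneg_left (k2.trans (cnt_inj
          (fun z => (z.1, z.2.2, z.2.1)) ?_ ?_)) (by positivity))⟩
      · rintro z ⟨g, g', e⟩
        exact ⟨g', g, ((ke _ _ _).2 e).symm⟩
      · rintro ⟨a, y, z⟩ ⟨a', y', z'⟩ _ _ e
        simp only [Prod.mk.injEq] at e ⊢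
        exact ⟨e.1, e.2.2, e.2.1⟩

end Pool.Agent.Lib.MP_65c801_co.T
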