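import Pool.Agent.Lib.MP_65c801_co.T.Path

/-! The case of the staircase. -/

namespace Pool.Agent.Lib.MP_65c801_co.T

open Finset Classical PathL

namespace CaseAL

lemma cnt3 {X Y Z : Type} [Fintype X] [Fintype Y] [Fintype Z] {p : X × Y × Z → Prop}
    (q : X → Prop) (r : X → Y → Prop) (s : X → Y → Z → Prop) {A B C : ℝ}
    (hp : ∀ x y z, p (x, y, z) → q x ∧ r x y ∧ s x y z) (hA : cnt q ≤ A)
    (hB : ∀ x, cnt (r x) ≤ B) (hC : ∀ x y, cnt (s x y) ≤ C) (B0 : 0 ≤ B) (C0 : 0 ≤ C) :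
    cnt p ≤ A * (B * C) := by
  refine (cnt_pair_le (q := q) (K := B * C) (fun x v g => (hp x v.1 v.2 g).1) fun x _ => ?_).trans
    (mul_le_mul_of_nonneg_right hA (by positivity))
  exact (cnt_pair_le (q := r x) (K := C) (fun y z g => (hp x y z g).2.1)
    (fun y _ => (cnt_mono fun z g => (hp x y z g).2.2).trans (hC x y))).trans
    (mul_le_mul_of_nonneg_right (hB x) C0)

lemma cnt2 {X Y W : Type} [Fintype X] [Fintype Y] [Fintype W] {p : W → Prop} (f : W → X × Y)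
    (q : X → Prop) (r : X → Y → Prop) {A B : ℝ} (hp : ∀ w, p w → q (f w).1 ∧ r (f w).1 (f w).2)
    (hi : ∀ w w', p w → p w' → f w = f w' → w = w') (hA : cnt q ≤ A) (hB : ∀ x, cnt (r x) ≤ B)
    (B0 : 0 ≤ B) : cnt p ≤ A * B :=
  (cnt_inj (q := fun z : X × Y => q z.1 ∧ r z.1 z.2) f hp hi).trans
    ((cnt_pair_le (q := q) (K := B) (fun _ _ g => g.1)
      (fun x _ => (cnt_mono fun _ g => g.2).trans (hB x))).trans
      (mul_le_mul_of_nonneg_right hA B0))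

lemma deg {X Y W : Type} [Fintype X] [Fintype Y] [Fintype W] {q : X → Prop} (P : X → Y → Prop)
    {T : W → Prop} (f : X → Y → W) {ν : ℝ} (hq : ∀ x, q x → ν ≤ cnt (P x))
    (hf : ∀ x y, q x → P x y → T (f x y)) (hi : ∀ x y x' y', f x y = f x' y' → x = x' ∧ y = y') :
    cnt q * ν ≤ cnt T :=
  (cnt_pair_ge (p := fun z : X × Y => q z.1 ∧ P z.1 z.2) fun x hx =>
    (hq x hx).trans (cnt_mono fun _ g => ⟨hx, g⟩)).trans
    (cnt_inj (fun z => f z.1 z.2) (fun _ g => hf _ _ g.1 g.2)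
      fun _ _ _ _ e => Prod.ext (hi _ _ _ _ e).1 (hi _ _ _ _ e).2)

variable {V α : Type} [Fintype V] [LinearOrder α]

/-- what is used about a good path whose ends form a lens in the window `w` -/
structure PW (H : V → V → Prop) (t : V → V → ℕ) (S : ℕ) (row col : V → ℕ → ℕ) (K : ℝ) (w : ℕ)
    (a' y a b : V) : Prop where
  g1 : H a' y
  g2 : H a y
  g3 : H a b
  w1 : t a' y / S = w
  w2 : t a y / S = w
  w3 : t a b / S = w
  r : row b w = row y w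
  c : col b w = col y w
  k : cod H (fun a y => t a y / S) w y b ≤ K

variable {h : V → ℕ → α} {H : V → V → Prop} {t : V → V → ℕ} {S : ℕ} {row col : V → ℕ → ℕ} {K : ℝ}

lemma gp_lens (pp : PathOK h H t S) {a y b a' : V} (g : GP h H t S row col K ((a, y, b), a')) :
    Lens h S (t a y / S) a' b := by
  obtain ⟨g1, g2, g3, w1, w2, -, -, l, -⟩ := g
  exact ⟨(pp a' y a b g1 g2 g3 w1 w2).1, (pp a' y a b g1 g2 g3 w1 w2).2, l⟩

lemma gp_pw (hn : NoAlt h) (hi : Inj h) (S0 : 0 < S) (pp : PathOK h H t S) {a y b a' : V} {w : ℕ}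
    (l : Lens h S w a' b) (g : GP h H t S row col K ((a, y, b), a')) :
    PW H t S row col K w a' y a b := by
  obtain rfl := (gp_lens pp g).uniq hn hi S0 l
  obtain ⟨g1, g2, g3, w1, w2, r, c, -, k⟩ := g
  exact ⟨g1, g2, g3, w1, rfl, w2, r, c, k⟩

lemma PW.ce {w : ℕ} {a' y a b : V} (g : PW H t S row col K w a' y a b) :
    cell t S row col a y = cell t S row col a b :=
  cell_eq.2 (by rw [g.w2, g.w3]; exact ⟨rfl, g.r.symm, g.c.symm⟩)

/-- the graph of pairs that are joined by many paths contradicts the core statement -/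
lemma fin (i1 : I1S) (i2 : I2S) (core : CoreS) {L θ : ℕ} {d ν P : ℝ} (c : Ctx h H t L θ)
    (S0 : 0 < S) (hP : P = (L:ℝ) ^ 18 * θ) (u : Stair h H t S P row col)
    (dL : ∀ a, cnt (fun y => H a y) ≤ d) (dU : ∀ y, cnt (fun a => H a y) ≤ d)
    (q2 : ∀ y w, cnt (fun a => H a y ∧ t a y / S = w) ≤ P) (d1 : (L:ℝ) ^ 130 * (θ:ℝ) ^ 3 ≤ d)
    (Γ : V → V → Prop) (lab : V → V → ℕ) (ν0 : 0 < ν)
    (hl : ∀ a b, Γ a b → Lens h S (lab a b) a b)
    (hΓ : ∀ a b, Γ a b → ν ≤ cnt fun v : V × V => PW H t S row col K (lab a b) a v.1 v.2 b)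
    (n1 : (θ:ℝ) ≤ (L:ℝ) ^ 35 * (2 * P ^ 2 / ν))
    (n2 : (θ:ℝ) ^ 7 * (d * (2 * P ^ 2 / ν)) ≤ (L:ℝ) ^ 54 * ed Γ) : False := by
  obtain ⟨-, -, L1, θ1⟩ := c.num
  have P0 : 0 ≤ P := by rw [hP]; positivity
  have d0 : 0 ≤ d := le_trans (by positivity) d1
  set σ := 2 * P ^ 2 / ν with hσ
  have σν : σ * ν = 2 * P ^ 2 := div_mul_cancel₀ _ ν0.ne'
  have σ0 : 0 ≤ σ := by positivity
  have ex : ∀ a b, Γ a b → ∃ y a1, PW H t S row col K (lab a b) a y a1 b := fun a b g => by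
    obtain ⟨v, hv⟩ := exists_of_cnt_pos (ν0.trans_le (hΓ a b g))
    exact ⟨_, _, hv⟩
  have cl := cell_le u
  have dv : ∀ x A : ℝ, 0 ≤ A → x * ν ≤ A * (P * P) → x ≤ A * σ := fun x A A0 e => by
    refine le_of_mul_le_mul_right (e.trans ?_) ν0
    rw [mul_assoc, σν]
    exact mul_le_mul_of_nonneg_left (by nlinarith) A0
  have lo : ∀ (a : V) (q : V → Prop) (r : V → Prop) (A : ℝ), cnt r ≤ A → 0 ≤ A →
      (∀ x, q x → Γ a x) → (∀ x y a1, q x → PW H t S row col K (lab a x) a y a1 x → r y) →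
      cnt q ≤ A * σ := fun a q r A hA A0 h1 h2 => by
    refine dv _ _ A0 ((deg (T := fun z : V × V × V => r z.1 ∧
      (H z.2.1 z.1 ∧ t z.2.1 z.1 / S = t a z.1 / S) ∧
      H z.2.1 z.2.2 ∧ cell t S row col z.2.1 z.2.2 = cell t S row col z.2.1 z.1) _
      (fun x v => (v.1, v.2, x)) (fun x g => hΓ a x (h1 x g)) (fun x v g k => ?_) ?_).trans
      (cnt3 r _ _ (fun _ _ _ g => g) hA (fun y => q2 y (t a y / S))
        (fun y a1 => cl a1 (cell t S row col a1 y)) P0 P0))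
    · exact ⟨h2 x _ _ g k, ⟨k.g2, k.w2.trans k.w1.symm⟩, k.g3, k.ce.symm⟩
    · intro x v x' v' e
      simp only [Prod.mk.injEq] at e
      exact ⟨e.2.2, Prod.ext e.1 e.2.1⟩
  have up : ∀ (x : V) (q : V → Prop) (r : V → Prop) (A : ℝ), cnt r ≤ A → 0 ≤ A →
      (∀ a, q a → Γ a x) → (∀ a y a1, q a → PW H t S row col K (lab a x) a y a1 x → r a1) →
      cnt q ≤ A * σ := fun x q r A hA A0 h1 h2 => by
    refine dv _ _ A0 ((deg (T := fun z : V × V × V => r z.1 ∧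
      (H z.1 z.2.1 ∧ cell t S row col z.1 z.2.1 = cell t S row col z.1 x) ∧
      H z.2.2 z.2.1 ∧ t z.2.2 z.2.1 / S = t z.1 z.2.1 / S) _
      (fun a v => (v.2, v.1, a)) (fun a g => hΓ a x (h1 a g)) (fun a v g k => ?_) ?_).trans
      (cnt3 r _ _ (fun _ _ _ g => g) hA (fun a1 => cl a1 (cell t S row col a1 x))
        (fun a1 y => q2 y (t a1 y / S)) P0 P0))
    · exact ⟨h2 a _ _ g k, ⟨k.g2, k.ce⟩, k.g1, k.w1.trans k.w2.symm⟩
    · intro x v x' v' e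
      simp only [Prod.mk.injEq] at e
      exact ⟨e.2.2, Prod.ext e.2.1 e.1⟩
  have D1 : ∀ a, cnt (fun x => Γ a x) ≤ d * σ := fun a =>
    lo a _ _ d (dL a) d0 (fun _ g => g) fun _ _ _ _ k => k.g1
  have D2 : ∀ x, cnt (fun a => Γ a x) ≤ d * σ := fun x =>
    up x _ _ d (dU x) d0 (fun _ g => g) fun _ _ _ _ k => k.g3
  have an : ∀ a x y, Γ a x → Γ a y → lab a x = lab a y → row x (lab a x) < row y (lab a x) →
      col x (lab a x) ≠ col y (lab a x) → Anti h S (lab a x) x y := fun a x y g g' e l n => by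
    obtain ⟨y1, a1, k1⟩ := ex a x g
    obtain ⟨y2, a2, k2⟩ := ex a y g'
    rw [← e] at k2
    have := u.st a y1 y2 _ k1.g1 k2.g1 k1.w1 k2.w1 (k1.r ▸ k2.r ▸ l)
    rw [← k1.c, ← k2.c] at this
    exact ⟨u.r0 _ _ _ l, u.c0 _ _ _ (lt_of_le_of_ne this n.symm)⟩
  refine core V α (ℕ × ℕ) h Γ lab (fun a x => (lab a x, row x (lab a x)))
    (fun a x => (lab a x, col x (lab a x))) S L θ d σ c.na c.inj S0 c.L0 c.cb c.cθ θ1 d1 n1 n2 hl
    (fun a b g => ?_) D1 D2 (fun a x y g g' e h1 h2 => ?_) (fun a k => ?_) (fun a k => ?_)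
    (fun x k => ?_) (fun x => ?_) (fun a => ?_)
  · obtain ⟨y, a1, k⟩ := ex a b g
    exact k.w1 ▸ (Nat.div_le_self _ _).trans_lt (c.tb _ _ k.g1)
  · by_contra hc
    simp only [Prod.mk.injEq, ← e, true_and, not_or] at hc
    rcases lt_or_gt_of_ne hc.1 with l | l
    · exact h1 (an a x y g g' e l hc.2)
    · refine h2 (e ▸ an a y x g' g e.symm (e ▸ l) (e ▸ Ne.symm hc.2))
  · rw [← hP, mul_comm]
    refine lo a _ _ P (u.rs a k.1 k.2) P0 (fun _ g => g.1) fun x y a1 g k' => ?_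
    obtain ⟨-, rfl⟩ := g
    exact ⟨k'.g1, k'.w1, k'.r.symm⟩
  · rw [← hP, mul_comm]
    refine lo a _ _ P (u.cs a k.1 k.2) P0 (fun _ g => g.1) fun x y a1 g k' => ?_
    obtain ⟨-, rfl⟩ := g
    exact ⟨k'.g1, k'.w1, k'.c.symm⟩
  · rw [← hP, mul_comm]
    exact up x _ _ P (q2 x k) P0 (fun _ g => g.1) fun a y a1 g k' => ⟨k'.g3, k'.w3.trans g.2⟩
  · rw [← hP]
    refine ⟨_, H, cell t S row col, fun p => Γ p.1 x ∧ (H p.1 p.2.1 ∧ t p.1 p.2.1 / S = lab p.1 x ∧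
      (row p.2.1 (lab p.1 x) = row x (lab p.1 x) ∨ col p.2.1 (lab p.1 x) = col x (lab p.1 x))) ∧
      H p.2.2 p.2.1 ∧ t p.2.2 p.2.1 / S = t p.1 p.2.1 / S,
      fun p => (p.2.2, cell t S row col p.2.2 p.2.1), ν, 2 * P ^ 2,
      i1 V α _ h H t _ S L P c.na c.fam L1 c.tb (fun a y z _ _ e => (cell_eq.1 e).1) q2, ν0,
      by positivity, σν.ge, ?_, fun γ => ?_, fun y _ => ?_⟩
    · refine (cnt3 _ (fun a y => H a y ∧ t a y / S = lab a x ∧
        (row y (lab a x) = row x (lab a x) ∨ col y (lab a x) = col x (lab a x))) _ (B := P + P)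
        (fun _ _ _ g => g) (D2 x) (fun a => ?_) (fun a y => q2 y (t a y / S)) (by positivity)
        P0).trans (le_of_eq (by ring))
      exact (cnt_le_add fun y g => g.2.2.imp (fun e => ⟨g.1, g.2.1, e⟩)
        fun e => ⟨g.1, g.2.1, e⟩).trans (add_le_add (u.rs a _ _) (u.cs a _ _))
    · refine (cnt2 (fun p => (p.2.1, p.1)) _ (fun y a => H a y ∧ t a y / S = t γ.1 y / S) ?_ ?_
        (cl γ.1 γ.2) (fun y => q2 y _) P0).trans (by nlinarith)
      · rintro ⟨a, y, a2⟩ ⟨⟨-, g1, g2, w⟩, rfl⟩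
        exact ⟨⟨g2, rfl⟩, g1.1, w.symm⟩
      · rintro ⟨a, y, a2⟩ ⟨b, z, b2⟩ ⟨-, rfl⟩ ⟨-, e1⟩ e
        simp only [Prod.mk.injEq] at e1 e ⊢
        exact ⟨e.2, e.1, e1.1.symm⟩
    · rw [mul_comm]
      refine deg _ (fun a v => (a, v)) (fun a g => hΓ a y g.2.1) ?_ fun _ _ _ _ e => Prod.mk.inj e
      rintro a v ⟨g, -, e⟩ k
      simp only [Prod.mk.injEq] at e
      have e1 : lab a x = lab a y := e.elim And.left And.left
      rw [← e1] at k e
      exact ⟨⟨g, ⟨k.g1, k.w1, e.imp (fun e => (e.2.trans k.r).symm)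
        fun e => (e.2.trans k.c).symm⟩, k.g2, k.w2.trans k.w1.symm⟩, k.g3, k.ce.symm⟩
  · rw [← hP]
    refine ⟨_, fun y a => H a y, fun y a => t a y / S, fun p => Γ a p.1 ∧
      (H p.2.1 p.1 ∧ t p.2.1 p.1 / S = lab a p.1) ∧
      H p.2.1 p.2.2 ∧ cell t S row col p.2.1 p.2.2 = cell t S row col p.2.1 p.1,
      fun p => (p.2.2, t p.2.1 p.2.2 / S), ν, 2 * P ^ 2,
      i2 V α h H t S L P row col c.na c.fam L1 c.tb S0 u, ν0,
      by positivity, σν.ge, ?_, fun γ => ?_, fun b _ => ?_⟩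
    · exact (cnt3 _ _ _ (fun _ _ _ g => g) (D1 a) (fun x => q2 x (lab a x))
        (fun x a1 => cl a1 (cell t S row col a1 x)) P0 P0).trans (mul_le_mul_of_nonneg_left (by nlinarith) (by positivity))
    · refine (cnt2 (fun p => (p.2.1, p.1)) _
        (fun a1 x => H a1 x ∧ cell t S row col a1 x = cell t S row col a1 γ.1) ?_ ?_
        (q2 γ.1 γ.2) (fun a1 => cl a1 _) P0).trans (by nlinarith)
      · rintro ⟨x, a1, y⟩ ⟨⟨-, g1, g2, w⟩, rfl⟩
        exact ⟨⟨g2, rfl⟩, g1.1, w.symm⟩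
      · rintro ⟨x, a1, y⟩ ⟨z, b1, y'⟩ ⟨-, rfl⟩ ⟨-, e1⟩ e
        simp only [Prod.mk.injEq] at e1 e ⊢
        exact ⟨e.2, e.1, e1.1.symm⟩
    · rw [mul_comm]
      refine deg _ (fun x v => (x, v.2, v.1)) (fun x g => hΓ b x g.2.1) ?_ fun _ _ _ _ e => ?_
      · rintro x v ⟨g, -, e⟩ k
        exact ⟨⟨g, ⟨k.g3, k.w3.trans (e.elim id id).symm⟩, k.g2, k.ce⟩, k.g1,
          k.w1.trans k.w2.symm⟩
      · simp only [Prod.mk.injEq] at e
        exact ⟨e.1, Prod.ext e.2.2 e.2.1⟩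

end CaseAL

open CaseAL

theorem caseA (i1 : I1S) (i2 : I2S) (core : CoreS) : CaseAS := by
  intro V α _ _ h H t S' R L θ m d row col c s u hm
  obtain ⟨n1, n2, L1, θ1⟩ := c.num
  have S0 : 0 < S' * R := Nat.mul_pos s.S0 s.R0
  set S := S' * R
  set G := GP h H t S row col ((L:ℝ) ^ 53) with hG
  set μ : V → V → ℝ := fun a b => cnt fun v : V × V => G ((v.2, v.1, b), a) with hμ
  obtain ⟨i, -, pi⟩ := pigeon G L L1 (fun i z => (2:ℝ) ^ i ≤ μ z.2 z.1.2.2 ∧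
    μ z.2 z.1.2.2 < 2 * 2 ^ i) fun z g =>
      dyadic _ L (one_le_cnt (x := (z.1.2.1, z.1.1)) g) (lt2 c.cb _)
  set ν : ℝ := 2 ^ i
  have ν0 : 0 < ν := by positivity
  set Γ : V → V → Prop := fun a b => ν ≤ μ a b with hΓ
  have p2 : cnt (fun z => G z ∧ ν ≤ μ z.2 z.1.2.2 ∧ μ z.2 z.1.2.2 < 2 * ν) ≤ ed Γ * (2 * ν) := by
    refine (cnt_fib_le' (q := fun e : V × V => Γ e.1 e.2 ∧ μ e.1 e.2 < 2 * ν)
      (fun z => (z.2, z.1.2.2)) (fun z g => g.2) fun e he => le_trans (cnt_inj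
        (fun z => (z.1.2.1, z.1.1)) ?_ ?_) he.2.le).trans
      (mul_le_mul_of_nonneg_right (cnt_mono fun e g => g.1) (by positivity))
    · rintro z ⟨g, rfl⟩; exact g.1
    · rintro ⟨⟨a, y, b⟩, a'⟩ ⟨⟨a1, y1, b1⟩, a1'⟩ ⟨-, rfl⟩ ⟨-, e1⟩ e
      simp only [Prod.mk.injEq] at e1 e ⊢
      exact ⟨⟨e.2, e.1, e1.2.symm⟩, e1.1.symm⟩
  have : ∀ a b, ∃ w, Γ a b → Lens h S w a b := fun a b => by
    by_cases g : Γ a b
    · obtain ⟨v, hv⟩ := exists_of_cnt_pos (ν0.trans_le g)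
      exact ⟨_, fun _ => gp_lens u.ok hv⟩
    · exact ⟨0, fun g' => absurd g' g⟩
  choose lab hl using this
  have hw : ∀ a b, Γ a b → ν ≤ cnt fun v : V × V =>
      PW H t S row col ((L:ℝ) ^ 53) (lab a b) a v.1 v.2 b := fun a b g =>
    le_trans g (cnt_mono fun v k => gp_pw c.na c.inj S0 u.ok (hl a b g) k)
  have d1 := s.d1
  have d2 := s.d2
  have rs := u.rs
  refine fin i1 i2 core c S0 rfl u.toStair s.dL s.dU s.q2 s.d1 Γ lab ν0 hl hw ?_ ?_ <;>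
    set X : ℝ := (L:ℝ) <;> set T : ℝ := (θ:ℝ) <;> have X0 : 0 < X := (by linarith) <;>
    have T0 : 0 < T := lt_of_lt_of_le (by positivity) n2 <;>
    have d0 : 0 < d := lt_of_lt_of_le (by positivity) d1 <;>
    have k : m * T ^ 2 ≤ 2 * X ^ 14 * (X * (ed Γ * (2 * ν))) :=
      hm.trans (mul_le_mul_of_nonneg_left (pi.trans (mul_le_mul_of_nonneg_left p2 X0.le))
        (by positivity))
  · have m0 : 0 < m := (mul_pos_iff_of_pos_left X0).1 (lt_of_lt_of_le (by positivity) d2)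
    have e0 : 0 < ed Γ := by
      by_contra hc
      have : ed Γ = 0 := le_antisymm (not_lt.1 hc) (cnt_nonneg _)
      rw [this] at k
      have : 0 < m * T ^ 2 := by positivity
      linarith
    obtain ⟨e, g⟩ := exists_of_cnt_pos e0
    have k1 : ν ≤ X ^ 18 * T * X ^ 53 := by
      refine (hw _ _ g).trans ((cnt_pair_le (K := X ^ 53) (fun y a k => ⟨k.g1, k.w1, k.r.symm⟩)
        fun y _ => ?_).trans (mul_le_mul_of_nonneg_right (rs e.1 (lab e.1 e.2) _) (by positivity)))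
      by_cases ex : ∃ a, PW H t S row col (X ^ 53) (lab e.1 e.2) e.1 y a e.2
      · exact (cnt_mono fun a k => ⟨k.g2, k.g3, k.w2, k.w3⟩).trans ex.choose_spec.k
      · rw [cnt_zero fun a k => ex ⟨a, k⟩]; positivity
    rw [← mul_div_assoc, le_div_iff₀ ν0]
    calc T * ν ≤ T * (X ^ 18 * T * X ^ 53) := by gcongr
      _ = X ^ 71 * T ^ 2 := by ring
      _ ≤ 2 * (X ^ 71 * T ^ 2) := by linarith [show 0 < X ^ 71 * T ^ 2 by positivity]
      _ = _ := by ring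
  · rw [← mul_div_assoc, ← mul_div_assoc, div_le_iff₀ ν0]
    have e0 : 0 ≤ ed Γ := cnt_nonneg _
    calc _ = 2 * X ^ 36 * T ^ 2 * (T ^ 7 * d) := by ring
      _ ≤ 2 * X ^ 36 * T ^ 2 * (X * m) := by gcongr
      _ = 2 * X ^ 37 * (m * T ^ 2) := by ring
      _ ≤ 2 * X ^ 37 * (2 * X ^ 14 * (X * (ed Γ * (2 * ν)))) := by gcongr
      _ = 8 * X ^ 52 * (ed Γ * ν) := by ring
      _ ≤ X ^ 54 * (ed Γ * ν) := mul_le_mul_of_nonneg_right
          (cpw (by linarith) (by linarith) (by norm_num)) (by positivity)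
      _ = _ := by ring

end Pool.Agent.Lib.MP_65c801_co.T
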