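import Pool.Agent.Lib.MP_65c801_co.T.St

/-! The main inequality for the derived graph. -/

namespace Pool.Agent.Lib.MP_65c801_co.T

open Finset Classical

namespace Core

variable {V K : Type} [Fintype V]

lemma dd (hT : StemS) (Γ : V → V → Prop) (k1 k2 : V → V → K) {L : ℕ} {D σ P k Y n : ℝ}
    (L1 : 1 ≤ L) (cb : (Fintype.card V : ℝ) ^ 3 < 2 ^ L) (cn : (Fintype.card V : ℝ) ≤ n)
    (h1 : ∀ a u, cnt (fun x => Γ a x ∧ k1 a x = u) ≤ k)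
    (h2 : ∀ a u, cnt (fun x => Γ a x ∧ k2 a x = u) ≤ k) (hD : ∀ x, cnt (fun a => Γ a x) ≤ D)
    (D0 : 0 ≤ D) (P1 : 1 ≤ P) (σ0 : 0 ≤ σ) (hk : σ * P ≤ k) (Y0 : 0 ≤ Y)
    (hY : 55296 * (L:ℝ) ^ 5 * D ^ 3 * σ ^ 2 * k ^ 2 ≤ Y ^ 2)
    (st : ∀ x, StemOK (cc Γ k1 k2 x) x L D σ P) :
    ∑ x, ∑ y, cc Γ k1 k2 x y ^ 2 ≤ D * ed Γ + n * (4 * L * (4 * L * D ^ 2 * σ + Y)) := by
  have k0 : 0 ≤ k := le_trans (by positivity) hk
  have le : ∀ x y, cc Γ k1 k2 x y ≤ cnt (fun a => Γ a x) := fun x y => cnt_mono fun a g => g.1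
  have pt : ∀ x, ∑ y, cc Γ k1 k2 x y ^ 2 ≤
      D * cnt (fun a => Γ a x) + 4 * L * (4 * L * D ^ 2 * σ + Y) := fun x => by
    have s1 : ∑ y, cc Γ k1 k2 x y ≤ 2 * D * k := by
      unfold cc
      rw [← cnt_prod (fun z : V × V => Γ z.2 x ∧ Γ z.2 z.1 ∧
        (k1 z.2 x = k1 z.2 z.1 ∨ k2 z.2 x = k2 z.2 z.1)), ← cnt_swap]
      refine (cnt_pair_le (q := fun a => Γ a x) (K := 2 * k) (fun a y g => g.1) fun a _ =>
        (cnt_le_add (q := fun y => Γ a y ∧ k1 a y = k1 a x) (r := fun y => Γ a y ∧ k2 a y = k2 a x)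
          fun y g => g.2.2.imp (fun e => ⟨g.2.1, e.symm⟩) fun e => ⟨g.2.1, e.symm⟩).trans
          (by linarith [h1 a (k1 a x), h2 a (k2 a x)])).trans ?_
      nlinarith [hD x]
    have s2 := hT V (cc Γ k1 k2 x) x L D σ P k Y L1 cb (fun y => cnt_zero_or _)
      (fun y => (le x y).trans (hD x)) (fun y => lt1 cb _) s1 P1 σ0 hk Y0 hY (st x)
    have s3 : ∑ y, cc Γ k1 k2 x y ^ 2 = cc Γ k1 k2 x x ^ 2 +
        ∑ y, (if y = x then 0 else cc Γ k1 k2 x y ^ 2) := by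
      rw [← Finset.sum_ite_eq_of_mem' univ x (fun y => cc Γ k1 k2 x y ^ 2) (mem_univ x),
        ← Finset.sum_add_distrib]
      exact Finset.sum_congr rfl fun y _ => by split_ifs <;> simp
    have s4 : cc Γ k1 k2 x x ^ 2 ≤ D * cnt (fun a => Γ a x) := by
      rw [sq]; exact mul_le_mul ((le x x).trans (hD x)) (le x x) (cnt_nonneg _) D0
    linarith
  refine (Finset.sum_le_sum fun x _ => pt x).trans ?_
  rw [Finset.sum_add_distrib, ← Finset.mul_sum, ← cnt_prod' (fun e : V × V => Γ e.1 e.2),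
    Finset.sum_const, card_univ, nsmul_eq_mul]
  gcongr

lemma num {X T d σ E Z : ℝ} (hX : 4096 ≤ X) (T1 : 1 ≤ T) (hd : X ^ 130 * T ^ 3 ≤ d)
    (hσ : T ≤ X ^ 35 * σ) (σ0 : 0 < σ) (hE : T ^ 7 * (d * σ) ≤ X ^ 54 * E)
    (h1 : E ^ 4 ≤ (T ^ 7) ^ 4 * (18 * X ^ 2 * (Z + Z)))
    (h2 : Z = 26 * (1 / (X ^ 55 * T)) * (σ * (X ^ 18 * T)) * (d * σ) * E + 12 * (d * σ * E +
      T ^ 7 * (4 * X * (4 * X * (d * σ) ^ 2 * σ +
        (d * σ) ^ 2 * σ * (σ * (X ^ 18 * T)) / (X ^ 44 * T ^ 2))))) : False := by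
  have X0 : 0 < X := by linarith
  have X1 : 1 ≤ X := by linarith
  have T0 : 0 < T := by linarith
  have d0 : 0 < d := lt_of_lt_of_le (by positivity) hd
  set D := d * σ with hD
  have D0 : 0 < D := by positivity
  have E0 : 0 < E := (mul_pos_iff_of_pos_left (by positivity)).1
    (lt_of_lt_of_le (by positivity) hE)
  set B := 256 * X ^ 56 * σ + 48 * X ^ 29 * σ ^ 2 / T with hB
  have p1 : 1 ≤ X ^ 56 := one_le_pow₀ X1
  have p2 : X ^ 35 ≤ X ^ 56 := pow_le_pow_right₀ X1 (by norm_num)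
  have a1 : 26 * (1 / (X ^ 55 * T)) * (σ * (X ^ 18 * T)) ≤ 26 * X ^ 56 * σ := by
    have : 26 * (1 / (X ^ 55 * T)) * (σ * (X ^ 18 * T)) = 26 * (1 / X ^ 37) * σ := by field_simp
    rw [this]
    gcongr
    exact le_trans (div_le_one_of_le₀ (one_le_pow₀ X1) (by positivity)) p1
  have a2 : 12 ≤ 12 * X ^ 56 * σ := by nlinarith [mul_le_mul_of_nonneg_right p2 σ0.le]
  have a3 : Z ≤ E * D * B := by
    have e1 : T ^ 7 * (4 * X * (4 * X * D ^ 2 * σ + D ^ 2 * σ * (σ * (X ^ 18 * T)) /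
        (X ^ 44 * T ^ 2))) = T ^ 7 * D * (D * (16 * X ^ 2 * σ + 4 * σ ^ 2 / (X ^ 25 * T))) := by
      field_simp; ring
    have e2 : X ^ 54 * E * (D * (16 * X ^ 2 * σ + 4 * σ ^ 2 / (X ^ 25 * T))) =
        E * D * (16 * X ^ 56 * σ + 4 * X ^ 29 * σ ^ 2 / T) := by
      field_simp
    have e3 := mul_le_mul_of_nonneg_right hE
      (by positivity : 0 ≤ D * (16 * X ^ 2 * σ + 4 * σ ^ 2 / (X ^ 25 * T)))
    have e4 := mul_le_mul_of_nonneg_left a1 (by positivity : 0 ≤ E * D)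
    have e5 := mul_le_mul_of_nonneg_left a2 (by positivity : 0 ≤ E * D)
    have e6 : 0 ≤ E * D * (X ^ 56 * σ) := by positivity
    rw [h2, e1, hB]
    rw [e2] at e3
    have e7 : E * D * (256 * X ^ 56 * σ + 48 * X ^ 29 * σ ^ 2 / T) =
      12 * (E * D * (16 * X ^ 56 * σ + 4 * X ^ 29 * σ ^ 2 / T)) + 64 * (E * D * (X ^ 56 * σ)) := by
      ring
    linarith
  have a4 : E ^ 3 ≤ (T ^ 7) ^ 4 * (36 * X ^ 2 * (D * B)) := by
    refine le_of_mul_le_mul_left ?_ E0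
    calc E * E ^ 3 = E ^ 4 := by ring
      _ ≤ (T ^ 7) ^ 4 * (18 * X ^ 2 * (E * D * B + E * D * B)) := h1.trans (by gcongr)
      _ = _ := by ring
  have a5 : D ^ 2 ≤ 36 * X ^ 164 * T ^ 7 * B := by
    refine le_of_mul_le_mul_left ?_ (by positivity : 0 < (T ^ 7) ^ 3 * D)
    calc (T ^ 7) ^ 3 * D * D ^ 2 = (T ^ 7 * D) ^ 3 := by ring
      _ ≤ (X ^ 54 * E) ^ 3 := by gcongr
      _ = X ^ 162 * E ^ 3 := by ring
      _ ≤ X ^ 162 * ((T ^ 7) ^ 4 * (36 * X ^ 2 * (D * B))) := by gcongr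
      _ = _ := by ring
  have a6 : X ^ 260 * T ^ 6 * σ ^ 2 ≤ D ^ 2 := by
    calc _ = (X ^ 130 * T ^ 3 * σ) ^ 2 := by ring
      _ ≤ _ := by rw [hD]; gcongr
  have a7 : 36 * X ^ 164 * T ^ 7 * B =
      9216 * X ^ 220 * (T ^ 6 * σ * T) + 1728 * X ^ 193 * (T ^ 6 * σ ^ 2) := by
    rw [hB]; field_simp; ring
  have a8 : 9216 * X ^ 220 * (T ^ 6 * σ * T) ≤ 9216 * X ^ 255 * (T ^ 6 * σ ^ 2) := by
    calc _ ≤ 9216 * X ^ 220 * (T ^ 6 * σ * (X ^ 35 * σ)) := by gcongr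
      _ = _ := by ring
  have b1 : 4096 * X ^ 193 ≤ X ^ 259 := cpw X1 hX (by norm_num)
  have b2 : 4096 * X ^ 255 ≤ X ^ 256 := cpw X1 hX le_rfl
  have b3 : 4096 * X ^ 256 ≤ X ^ 259 := cpw X1 hX (by norm_num)
  have b4 : 4096 * X ^ 259 ≤ X ^ 260 := cpw X1 hX le_rfl
  have b5 : 0 < X ^ 259 := by positivity
  have : (9216 * X ^ 255 + 1728 * X ^ 193) * (T ^ 6 * σ ^ 2) < X ^ 260 * (T ^ 6 * σ ^ 2) :=
    mul_lt_mul_of_pos_right (by linarith) (by positivity)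
  linarith

end Core

theorem core (hI : IdS) (hG : SignS) (hS : SideS) (hT : StemS) : CoreS := by
  intro V α K _ _ h Γ lab k1 k2 S L θ d σ hn hi S0 L0 cb cθ θ1 hd hσ hE hl tb dA dX cov c1 c2 c3
    s1 s2
  obtain ⟨s, ps, hz⟩ := hG V α h Γ lab S hn hi S0 hl
  have L1 : 1 ≤ L := by omega
  obtain ⟨c4, k33⟩ := hI V Γ lab s L ps L1 tb
  have hX : (4096:ℝ) ≤ L := by exact_mod_cast L0
  have T1 : (1:ℝ) ≤ θ := by exact_mod_cast θ1
  set X := (L:ℝ)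
  set T := (θ:ℝ)
  have X1 : 1 ≤ X := by linarith
  have X0 : 0 < X := by linarith
  have σ0 : 0 < σ := (mul_pos_iff_of_pos_left (by positivity)).1
    (lt_of_lt_of_le (by linarith) hσ)
  have d0 : 0 < d := lt_of_lt_of_le (by positivity) hd
  have cv : ∀ a x y, Γ a x → Γ a y → s a x y = 0 → k1 a x = k1 a y ∨ k2 a x = k2 a y :=
    fun a x y g g' e => cov a x y g g' (hz a x y e).1 (hz a x y e).2.1 (hz a x y e).2.2
  have k0 : 0 < σ * (X ^ 18 * T) := by positivity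
  have ze : 2 * (σ * (X ^ 18 * T)) ≤ (1 / (X ^ 55 * T)) ^ 2 * (d * σ) := by
    rw [div_pow, one_pow, div_mul_eq_mul_div, one_mul, le_div_iff₀ (by positivity)]
    calc _ = 2 * X ^ 128 * T ^ 3 * σ := by ring
      _ ≤ X ^ 130 * T ^ 3 * σ := by gcongr; exact cpw X1 (by linarith) (by norm_num)
      _ ≤ _ := by gcongr
  have z1 := hS V K Γ _ _ k1 k2 _ _ _ k33 cv c1 c2 (fun x c _ => le_trans (cnt_mono fun a g =>
    ⟨g.1, g.2.symm⟩) ((c3 x (lab c x)).trans (by linarith))) dX (by positivity) k0 ze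
  have z2 := hS V ℕ (fun x a => Γ a x) (fun x a b => lab a x = lab b x)
    (fun a x y => s a x y = 0) (fun x a => lab a x) (fun x a => lab a x) _ _ _
    (fun x y z a b c g1 g2 g3 g4 g5 g6 g7 g8 g9 x1 x2 x3 y1 y2 y3 z1 z2 z3 a1 a2 a3 b1 b2 b3
      c1 c2 c3 => k33 a b c x y z g1 g4 g7 g2 g5 g8 g3 g6 g9 a1 a2 a3 b1 b2 b3 c1 c2 c3
        x1 x2 x3 y1 y2 y3 z1 z2 z3) (fun _ _ _ _ _ e => Or.inl e) c3 c3
    (fun a c g => (cnt_le_add (q := fun y => Γ a y ∧ k1 a y = k1 a c)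
      (r := fun y => Γ a y ∧ k2 a y = k2 a c) fun y g' => (cv a c y g g'.1 g'.2).imp
        (fun e => ⟨g'.1, e.symm⟩) fun e => ⟨g'.1, e.symm⟩).trans
          (by linarith [c1 a (k1 a c), c2 a (k2 a c)])) dA (by positivity) k0 ze
  have P1 : 1 ≤ X ^ 18 * T := one_le_mul_of_one_le_of_one_le (one_le_pow₀ X1) T1
  have hY : 55296 * X ^ 5 * (d * σ) ^ 3 * σ ^ 2 * (σ * (X ^ 18 * T)) ^ 2 ≤
      ((d * σ) ^ 2 * σ * (σ * (X ^ 18 * T)) / (X ^ 44 * T ^ 2)) ^ 2 := by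
    rw [div_pow, le_div_iff₀ (by positivity)]
    have e1 : 55296 * X ^ 5 * (X ^ 44 * T ^ 2) ^ 2 ≤ d * σ := by
      refine le_of_mul_le_mul_left ?_ (by positivity : 0 < X ^ 35)
      have e2 : 4096 * X ^ 128 ≤ X ^ 129 := cpw X1 hX le_rfl
      have e3 : 4096 * X ^ 129 ≤ X ^ 130 := cpw X1 hX le_rfl
      calc _ = 55296 * X ^ 128 * T ^ 3 * T := by ring
        _ ≤ X ^ 130 * T ^ 3 * (X ^ 35 * σ) := by
            gcongr; linarith [pow_pos X0 128]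
        _ ≤ d * (X ^ 35 * σ) := by gcongr
        _ = _ := by ring
    calc _ = 55296 * X ^ 5 * (X ^ 44 * T ^ 2) ^ 2 *
          ((d * σ) ^ 3 * σ ^ 2 * (σ * (X ^ 18 * T)) ^ 2) := by ring
      _ ≤ d * σ * ((d * σ) ^ 3 * σ ^ 2 * (σ * (X ^ 18 * T)) ^ 2) := by gcongr
      _ = _ := by ring
  have d1 := Core.dd hT Γ k1 k2 L1 cb cθ c1 c2 dX (by positivity) P1 σ0.le le_rfl
    (by positivity) hY s1
  have d2 := Core.dd hT (fun x a => Γ a x) _ _ L1 cb cθ c3 c3 dA (by positivity) P1 σ0.le le_rfl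
    (by positivity) hY s2
  rw [ed_flip] at z2 d2
  refine Core.num hX T1 hd hσ σ0 hE ((c4_lower Γ cθ cθ).trans (mul_le_mul_of_nonneg_left
    (c4.trans (mul_le_mul_of_nonneg_left (add_le_add ?_ ?_) (by positivity))) (by positivity))) rfl
  · linarith
  · linarith

end Pool.Agent.Lib.MP_65c801_co.T
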