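import Pool.Agent.Lib.MP_65c801_co.T.St
import Pool.Agent.Lib.MP_65c801_co.Final
import Pool.Agent.Lib.MP_65c801_co.Comb

/-! From the bound for families of lenses to the cutting theorem for Jordan curves. -/

namespace Pool.Agent.Lib.MP_65c801_co.T

open Finset Classical

namespace Fn

/-- the cutting theorem in the discrete model with the bound `φ` -/
def CutF (φ : ℕ → ℝ) : Prop := ∀ (V α : Type) [Fintype V] [LinearOrder α]
  (h : V → ℕ → α), NoAlt h → Inj h → ∀ n M : ℕ, 1 ≤ n → Fintype.card V ≤ n → M ≤ n ^ 2 →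
  ∃ X : Finset (V × ℕ), (X.card : ℝ) ≤ φ n ∧
    ∀ a y, BLens h M a y → ∃ τ < M, h y τ < h a τ ∧ ((a, τ) ∈ X ∨ (y, τ) ∈ X)

/-- the combinatorial cutting theorem with the bound `φ` -/
def CombF (φ : ℕ → ℝ) : Prop :=
  ∀ (ι X Vx : Type) [Fintype ι] [Fintype X] [Fintype Vx] (A : Arr ι X Vx) (n : ℕ),
    1 ≤ n → Fintype.card ι ≤ n → Fintype.card Vx ≤ 2 * n ^ 2 →
    ∃ (k0 : ι → ℤ) (D : Finset (ι × ℤ)), (D.card : ℝ) ≤ φ n ∧
      (∀ i, (i, 2 * k0 i) ∈ D) ∧
      ∀ i j, i ≠ j → ∀ k l k' l', k0 i < k → k < l → l < k0 i + A.m i →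
        k0 j < k' → k' < k0 j + A.m j → k0 j < l' → l' < k0 j + A.m j →
        A.vt (A.dart i k true) = A.vt (A.dart j k' true) →
        A.vt (A.dart i l true) = A.vt (A.dart j l' true) →
        (∃ c, (i, c) ∈ D ∧ 2 * k ≤ c ∧ c ≤ 2 * l) ∨
          ∃ c, (j, c) ∈ D ∧ 2 * min k' l' ≤ c ∧ c ≤ 2 * max k' l'

/-- the geometric cutting theorem with the bound `φ` -/
def GeoF (φ : ℕ → ℝ) : Prop :=
  ∀ (n : ℕ) (γ : Fin n → Circle → ℂ), 1 ≤ n → (∀ i, Continuous (γ i)) →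
    (∀ i, Function.Injective (γ i)) →
    (∀ i j, i ≠ j → (Set.range (γ i) ∩ Set.range (γ j)).encard ≤ 2) →
    (∀ i j, i ≠ j → ∀ p ∈ Set.range (γ i) ∩ Set.range (γ j),
      CrossesAt (Set.range (γ i)) (Set.range (γ j)) p) →
    ∃ X : Finset ℂ, (X.card : ℝ) ≤ φ n ∧
      (∀ x ∈ X, ∃ i, x ∈ Set.range (γ i)) ∧ (∀ i, ∃ x ∈ X, x ∈ Set.range (γ i)) ∧
      ∀ i j, i ≠ j → ∀ p q, (connectedComponentIn (Set.range (γ i) \ ↑X) p ∩
        connectedComponentIn (Set.range (γ j) \ ↑X) q).Subsingleton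

/-- the bound -/
noncomputable def bd (n : ℕ) : ℝ := (n : ℝ) ^ ((10 : ℝ) / 7) * (1 + Real.log n) ^ 131

lemma le_bd {n : ℕ} (hn : 1 ≤ n) : (n : ℝ) ≤ bd n := by
  have n1 : (1 : ℝ) ≤ n := by exact_mod_cast hn
  have h1 := Real.rpow_le_rpow_of_exponent_le n1 (show (1 : ℝ) ≤ 10 / 7 by norm_num)
  rw [Real.rpow_one] at h1
  exact h1.trans (le_mul_of_one_le_right (by positivity)
    (one_le_pow₀ (by linarith [Real.log_nonneg n1])))

lemma bd_two {n : ℕ} (hn : 1 ≤ n) : bd (2 * n) ≤ 4 * 2 ^ 131 * bd n := by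
  have n1 : (1 : ℝ) ≤ n := by exact_mod_cast hn
  have l0 := Real.log_nonneg n1
  have h1 : (2 : ℝ) ^ ((10 : ℝ) / 7) ≤ 4 :=
    (Real.rpow_le_rpow_of_exponent_le (by norm_num) (show (10 : ℝ) / 7 ≤ 2 by norm_num)).trans
      (by norm_num)
  have h2 : 1 + Real.log (2 * n) ≤ 2 * (1 + Real.log n) := by
    rw [Real.log_mul (by norm_num) (by positivity)]
    linarith [Real.log_two_lt_d9]
  have h3 : 0 ≤ 1 + Real.log (2 * n) := by
    linarith [Real.log_nonneg (show (1 : ℝ) ≤ 2 * n by linarith)]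
  unfold bd
  push_cast
  rw [Real.mul_rpow (by norm_num) (by positivity)]
  calc _ ≤ 4 * (n : ℝ) ^ ((10 : ℝ) / 7) * (2 * (1 + Real.log n)) ^ 131 := by gcongr
    _ = _ := by rw [mul_pow]; ring

theorem cutF (hF : FamS) : CutF fun n => 2048 * 4117 ^ 131 * bd n := by
  intro V α _ _ h hn hi n M n1 hc hM
  obtain ⟨i, i1, i2⟩ : ∃ i : ℕ, n ≤ 2 ^ (7 * i) ∧ 2 ^ (7 * i) ≤ 128 * n := by
    refine ⟨Nat.clog 128 n, ?_, ?_⟩
    · rw [pow_mul]
      exact Nat.le_pow_clog (by norm_num) n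
    · rw [pow_mul]
      rcases n1.eq_or_lt with rfl | n2
      · simp
      · have h1 := Nat.pow_pred_clog_lt_self (b := 128) (by norm_num) n2
        have h2 := Nat.clog_pos (b := 128) (by norm_num) n2
        obtain ⟨k, hk⟩ := Nat.exists_eq_succ_of_ne_zero h2.ne'
        rw [hk, Nat.pred_succ] at h1
        rw [hk, pow_succ]
        norm_num
        omega
  have hM' : M ≤ 2 ^ (4096 + 21 * i) := by
    refine (hM.trans (Nat.pow_le_pow_left i1 2)).trans ?_
    rw [← pow_mul]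
    exact Nat.pow_le_pow_right two_pos (by omega)
  obtain ⟨X, hX, hX'⟩ := cut_of_bound hn hi hM'
    (ν := ((4096 + 21 * i : ℕ) : ℝ) ^ 130 * 2 ^ (10 * i)) fun E t f tb =>
      hF _ i (by omega) (by omega) V α h E t hn hi f (fun a y g => (tb a y g).trans_le hM')
        (hc.trans i1)
  refine ⟨X, hX.trans ?_, hX'⟩
  have n0 : (1 : ℝ) ≤ n := by exact_mod_cast n1
  have l0 := Real.log_nonneg n0
  have i3 : (2 : ℝ) ^ (7 * i) ≤ 128 * n := by exact_mod_cast i2
  have h1 : (i : ℝ) ≤ 1 + Real.log n := by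
    have h2 := Real.log_le_log (by positivity) i3
    rw [Real.log_pow, Real.log_mul (by norm_num) (by positivity),
      show (128 : ℝ) = 2 ^ 7 by norm_num, Real.log_pow] at h2
    push_cast at h2
    have h3 := Real.log_two_gt_d9
    by_contra h4
    push Not at h4
    nlinarith
  have h2 : (2 : ℝ) ^ (10 * i) ≤ 1024 * (n : ℝ) ^ ((10 : ℝ) / 7) := by
    have h3 := Real.rpow_le_rpow (by positivity) i3 (show (0 : ℝ) ≤ 10 / 7 by norm_num)
    rw [← Real.rpow_natCast, ← Real.rpow_mul (by norm_num), Real.mul_rpow (by norm_num)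
      (by positivity), show (128 : ℝ) = 2 ^ (7 : ℝ) by norm_num, ← Real.rpow_mul (by norm_num),
      show ((7 * i : ℕ) : ℝ) * (10 / 7) = (10 * i : ℕ) by push_cast; ring, Real.rpow_natCast] at h3
    refine h3.trans (le_of_eq ?_)
    norm_num
  have h3 : ((4096 + 21 * i : ℕ) : ℝ) ≤ 4117 * (1 + Real.log n) := by
    push_cast
    linarith
  calc _ = 2 * ((4096 + 21 * i : ℕ) : ℝ) ^ 131 * 2 ^ (10 * i) := by ring
    _ ≤ 2 * (4117 * (1 + Real.log n)) ^ 131 * (1024 * (n : ℝ) ^ ((10 : ℝ) / 7)) := by gcongr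
    _ = _ := by
      rw [mul_pow]
      unfold bd
      generalize (4117 : ℝ) ^ 131 = c
      ring

theorem combF {φ : ℕ → ℝ} (hC : CutF φ) : CombF fun n => 2 * n + φ (2 * n) := by
  intro ι X Vx _ _ _ A n n1 hι hV
  obtain ⟨σ, b, d, R⟩ := A.exists_run
  obtain ⟨Y, Y1, hY⟩ := hC (ι × Bool) _ _ R.noAlt R.inj (2 * n) (Fintype.card Vx + Fintype.card ι)
    (by omega) (by simp; omega) (by nlinarith)
  set M := Fintype.card Vx + Fintype.card ι
  refine ⟨fun i => (σ (b i)).β i, (univ.image fun i => (i, 2 * (σ (b i)).β i)) ∪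
    (univ.image fun i => (i, (σ M).β i + (σ M).α i)) ∪
    Y.image fun p => (p.1.1, (σ p.2).idx p.1 0 + (σ p.2).idx p.1 1), ?_, fun i => by simp, ?_⟩
  · have e3 := (card_union_le _ _).trans (add_le_add ((card_union_le _ _).trans (add_le_add
      (card_image_le (s := univ) (f := fun i : ι => (i, 2 * (σ (b i)).β i)))
      (card_image_le (s := univ) (f := fun i : ι => (i, (σ M).β i + (σ M).α i)))))
      (card_image_le (s := Y)
        (f := fun p : (ι × Bool) × ℕ => (p.1.1, (σ p.2).idx p.1 0 + (σ p.2).idx p.1 1))))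
    rw [card_univ] at e3
    have e4 : ((Fintype.card ι + Fintype.card ι + Y.card : ℕ) : ℝ) ≤ n + n + Y.card := by
      exact_mod_cast (by omega)
    refine ((Nat.cast_le.2 e3).trans e4).trans ?_
    linarith
  · intro i j ij k l k' l' k0 kl l1 k0' k1' l0' l1' e1 e2
    dsimp only at k0 l1 k0' k1' l0' l1'
    have e1 : A.v i k = A.v j k' := e1
    have e2 : A.v i l = A.v j l' := e2
    rcases R.side i k0 (by omega) (by omega : _ < l) l1 with c | ⟨e, ⟨t1, a1, a2, a3⟩, t2, a4, a5, a6⟩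
    · exact Or.inl ⟨(σ M).β i + (σ M).α i, by simp, by omega, by omega⟩
    rcases R.side j k0' k1' l0' l1' with c | ⟨f, ⟨t1', b1, b2, b3⟩, t2', b4, b5, b6⟩
    · exact Or.inr ⟨_, by simp, c⟩
    have sw : ∀ (s : ι × Bool) t, b s.1 ≤ t → mv (σ t) (σ (t + 1)) s →
        A.v s.1 ((σ t).idx s 1) ∈ (σ t).Un ∧ A.v s.1 ((σ t).idx s 1) ∉ (σ (t + 1)).Un := fun s t a c =>
      ⟨((R.step t).mov s ((R.born _ _).2 a) c).2.2.1, ((R.step t).mov s ((R.born _ _).2 a) c).2.2.2.1⟩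
    have p1 := sw (i, e) t1 a1 a2
    have p2 := sw (i, e) t2 a4 a5
    have p3 := sw (j, f) t1' b1 b2
    have p4 := sw (j, f) t2' b4 b5
    rw [a3] at p1
    rw [a6] at p2
    rw [b3, ← e1] at p3
    rw [b6, ← e2] at p4
    obtain rfl := R.once p1.1 p1.2 p3.1 p3.2
    obtain rfl := R.once p2.1 p2.2 p4.1 p4.2
    have mem : ∀ p ∈ Y, (p.1.1, (σ p.2).idx p.1 0 + (σ p.2).idx p.1 1) ∈
        (univ.image fun i => (i, 2 * (σ (b i)).β i)) ∪
        (univ.image fun i => (i, (σ M).β i + (σ M).α i)) ∪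
        Y.image fun p => (p.1.1, (σ p.2).idx p.1 0 + (σ p.2).idx p.1 1) := fun p hp =>
      mem_union_right _ (mem_image_of_mem _ hp)
    rcases lt_trichotomy t1 t2 with c | c | c
    · obtain ⟨τ, x1, x2, x3⟩ := R.lens (s := (i, e)) (u := (j, f)) ij c a1 b1 a2 b2 a5 b5 hY
      have y1 := R.pos (s := (i, e)) a1 a2 x1 x2
      have y2 := R.pos (s := (j, f)) b1 b2 x1 x2
      rw [a3, a6] at y1
      rw [b3, b6] at y2
      exact x3.imp (fun x => ⟨_, mem _ x, by simp only; omega, by simp only; omega⟩)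
        fun x => ⟨_, mem _ x, y2⟩
    · subst c; omega
    · obtain ⟨τ, x1, x2, x3⟩ := R.lens (s := (i, e)) (u := (j, f)) ij c a4 b4 a5 b5 a2 b2 hY
      have y1 := R.pos (s := (i, e)) a4 a5 x1 x2
      have y2 := R.pos (s := (j, f)) b4 b5 x1 x2
      rw [a3, a6] at y1
      rw [b3, b6, min_comm, max_comm] at y2
      exact x3.imp (fun x => ⟨_, mem _ x, by simp only; omega, by simp only; omega⟩)
        fun x => ⟨_, mem _ x, y2⟩

open FinalAux in
theorem geoF {φ : ℕ → ℝ} (hcomb : CombF φ) : GeoF fun n => φ n + n := by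
  intro n γ hn hc hi h2 hx
  obtain ⟨ι, X, Vx, _, _, _, A, e, τ, pt, he, hV, hpt, hτ, hper, hvt, hmeet⟩ :=
    exists_arr n γ hc hi h2 hx
  have hι : Fintype.card ι ≤ n := by
    simpa using Fintype.card_le_of_injective e he
  obtain ⟨k0, D, hD, hk0, hcut⟩ := hcomb ι X Vx A n hn hι hV
  set Y : Finset ℂ := D.image (fun d => γ (e d.1) (Circle.exp (sig (τ d.1) d.2))) ∪
    Finset.univ.image (fun i => γ i 1) with hY
  have hmem : ∀ i c, (i, c) ∈ D → γ (e i) (Circle.exp (sig (τ i) c)) ∈ (Y : Set ℂ) := by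
    intro i c hic
    exact Finset.mem_coe.2 (Finset.mem_union_left _ (Finset.mem_image.2 ⟨(i, c), hic, rfl⟩))
  refine ⟨Y, ?_, ?_, ?_, ?_⟩
  · have h1 : Y.card ≤ D.card + n := by
      refine (Finset.card_union_le _ _).trans (add_le_add Finset.card_image_le ?_)
      simpa using (Finset.card_image_le (s := (Finset.univ : Finset (Fin n))) (f := fun i => γ i 1))
    have h1' : (Y.card : ℝ) ≤ D.card + n := by exact_mod_cast h1
    linarith
  · intro x hx
    rcases Finset.mem_union.1 hx with hx | hx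
    · obtain ⟨d, -, rfl⟩ := Finset.mem_image.1 hx
      exact ⟨_, _, rfl⟩
    · obtain ⟨i, -, rfl⟩ := Finset.mem_image.1 hx
      exact ⟨_, _, rfl⟩
  · intro i
    exact ⟨γ i 1, Finset.mem_union_right _ (Finset.mem_image.2 ⟨i, Finset.mem_univ _, rfl⟩), _, rfl⟩
  · have par : ∀ i j, i ≠ j → ∀ p, p ∈ Set.range (γ i) → p ∈ Set.range (γ j) → p ∉ (Y : Set ℂ) →
        ∃ i' k, e i' = i ∧ k0 i' < k ∧ k < k0 i' + A.m i' ∧
          γ (e i') (Circle.exp (τ i' k)) = p := by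
      rintro i j hij p ⟨z, rfl⟩ hj hp
      obtain ⟨t, rfl⟩ := Circle.exp_surjective z
      obtain ⟨i', k, rfl, rfl⟩ := hmeet i j hij t hj
      obtain ⟨l, h1, h2, h3⟩ := reduce (A.mpos i') (hper i') (k0 i') k
      refine ⟨i', l, rfl, ?_, h2, by rw [h3]⟩
      rcases h1.lt_or_eq with h1 | h1
      · exact h1
      · exfalso
        apply hp
        have := hmem i' _ (hk0 i')
        rwa [sig_even, h1, h3] at this
    intro i j hij p0 q0 p hp q hq
    by_contra hpq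
    have sI := connectedComponentIn_subset (Set.range (γ i) \ (Y : Set ℂ)) p0
    have sJ := connectedComponentIn_subset (Set.range (γ j) \ (Y : Set ℂ)) q0
    obtain ⟨i1, k, e1, a1, a2, a3⟩ := par i j hij p (sI hp.1).1 (sJ hp.2).1 (sI hp.1).2
    obtain ⟨i2, l, e2, b1, b2, b3⟩ := par i j hij q (sI hq.1).1 (sJ hq.2).1 (sI hq.1).2
    obtain ⟨j1, k', e3, c1, c2, c3⟩ := par j i hij.symm p (sJ hp.2).1 (sI hp.1).1 (sI hp.1).2
    obtain ⟨j2, l', e4, d1, d2, d3⟩ := par j i hij.symm q (sJ hq.2).1 (sI hq.1).1 (sI hq.1).2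
    obtain rfl : i2 = i1 := he (e2.trans e1.symm)
    obtain rfl : j2 = j1 := he (e4.trans e3.symm)
    subst e1 e3
    have hne : i2 ≠ j2 := fun h => hij (by rw [h])
    have v1 : A.vt (A.dart i2 k true) = A.vt (A.dart j2 k' true) :=
      hpt (by rw [hvt, hvt, a3, c3])
    have v2 : A.vt (A.dart i2 l true) = A.vt (A.dart j2 l' true) :=
      hpt (by rw [hvt, hvt, b3, d3])
    have pI := hp.1
    have qI := hq.1
    have pJ := hp.2
    have qJ := hq.2
    rw [← a3] at pI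
    rw [← b3] at qI
    rw [← c3] at pJ
    rw [← d3] at qJ
    have onJ : ∀ c, (j2, c) ∈ D → 2 * min k' l' ≤ c → c ≤ 2 * max k' l' → False := by
      intro c hc' h3 h4
      rcases le_total k' l' with hle | hle
      · rw [min_eq_left hle] at h3
        rw [max_eq_right hle] at h4
        exact key (hc _) (hi _) (hτ j2) (hper j2) (hmem _ _ (hk0 j2)) (hmem _ _ hc') c1 d2 h3 h4
          isPreconnected_connectedComponentIn sJ pJ qJ
      · rw [min_eq_right hle] at h3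
        rw [max_eq_left hle] at h4
        exact key (hc _) (hi _) (hτ j2) (hper j2) (hmem _ _ (hk0 j2)) (hmem _ _ hc') d1 c2 h3 h4
          isPreconnected_connectedComponentIn sJ qJ pJ
    rcases lt_trichotomy k l with hkl | hkl | hkl
    · rcases hcut i2 j2 hne k l k' l' a1 hkl b2 c1 c2 d1 d2 v1 v2 with ⟨c, hc', h3, h4⟩ |
        ⟨c, hc', h3, h4⟩
      · exact key (hc _) (hi _) (hτ i2) (hper i2) (hmem _ _ (hk0 i2)) (hmem _ _ hc') a1 b2 h3 h4
          isPreconnected_connectedComponentIn sI pI qI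
      · exact onJ c hc' h3 h4
    · exact hpq (by rw [← a3, ← b3, hkl])
    · rcases hcut i2 j2 hne l k l' k' b1 hkl a2 d1 d2 c1 c2 v2 v1 with ⟨c, hc', h3, h4⟩ |
        ⟨c, hc', h3, h4⟩
      · exact key (hc _) (hi _) (hτ i2) (hper i2) (hmem _ _ (hk0 i2)) (hmem _ _ hc') b1 a2 h3 h4
          isPreconnected_connectedComponentIn sI qI pI
      · exact onJ c hc' (by rwa [min_comm]) (by rwa [max_comm])

end Fn

open Fn in
/-- the cutting theorem for Jordan curves from the bound for families of lenses -/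
theorem geo (hF : FamS) : ∃ C : ℝ, ∀ (n : ℕ) (γ : Fin n → Circle → ℂ), (∀ i, Continuous (γ i)) →
    (∀ i, Function.Injective (γ i)) →
    (∀ i j, i ≠ j → (Set.range (γ i) ∩ Set.range (γ j)).encard ≤ 2) →
    (∀ i j, i ≠ j → ∀ p ∈ Set.range (γ i) ∩ Set.range (γ j), ∀ U ∈ nhds p,
      ∃ a ∈ U ∩ (Set.range (γ j) \ Set.range (γ i)), ∃ b ∈ U ∩ (Set.range (γ j) \ Set.range (γ i)),
        b ∉ connectedComponentIn (Set.range (γ i))ᶜ a) →
    ∃ X : Finset ℂ, (X.card : ℝ) ≤ C * (n : ℝ) ^ ((10 : ℝ) / 7) * (1 + Real.log n) ^ 131 ∧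
      (∀ x ∈ X, ∃ i, x ∈ Set.range (γ i)) ∧ (∀ i, ∃ x ∈ X, x ∈ Set.range (γ i)) ∧
      ∀ i j p q, (i ≠ j ∨ connectedComponentIn (Set.range (γ i) \ ↑X) p ≠
          connectedComponentIn (Set.range (γ j) \ ↑X) q) →
        (connectedComponentIn (Set.range (γ i) \ ↑X) p ∩
          connectedComponentIn (Set.range (γ j) \ ↑X) q).Subsingleton := by
  obtain ⟨c, c0, h⟩ : ∃ c : ℝ, 0 ≤ c ∧ CutF fun n => c * bd n := ⟨_, by positivity, cutF hF⟩
  refine ⟨3 + c * (4 * 2 ^ 131), fun n γ h1 h2 h3 h4 => ?_⟩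
  rcases Nat.eq_zero_or_pos n with rfl | hn
  · exact ⟨∅, by simp, by simp, fun i => i.elim0, fun i => i.elim0⟩
  obtain ⟨X, x1, x2, x3, x4⟩ := geoF (combF h) n γ hn h1 h2 h3 h4
  refine ⟨X, x1.trans ?_, x2, x3, fun i j p q c => ?_⟩
  · have b1 := le_bd hn
    have b2 := mul_le_mul_of_nonneg_left (bd_two hn) c0
    rw [mul_assoc]
    change _ ≤ _ * bd n
    beta_reduce
    generalize (4 * 2 ^ 131 : ℝ) = k at *
    nlinarith
  by_cases e : i = j
  · subst e
    rintro x ⟨a, b⟩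
    exact absurd ((connectedComponentIn_eq a).trans (connectedComponentIn_eq b).symm)
      (c.resolve_left fun d => d rfl)
  · exact x4 i j e p q

end Pool.Agent.Lib.MP_65c801_co.T
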