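import Pool.Agent.Lib.MP_65c801_co.T.St

/-! The sign identity for a sign that may vanish. -/

namespace Pool.Agent.Lib.MP_65c801_co.T

open Finset Classical

namespace Id2

variable {V : Type} [Fintype V] {G : V → V → Prop} {lab : V → V → ℕ} {s : V → V → V → ℝ}

/-- degenerate four-cycles -/
noncomputable def Za (G : V → V → Prop) (lab : V → V → ℕ) (s : V → V → V → ℝ) : ℝ :=
  cnt (fun z : (V × V) × (V × V) => C4 G z ∧ (s z.1.1 z.2.1 z.2.2 = 0 ∨
    s z.1.2 z.2.1 z.2.2 = 0 ∨ lab z.1.1 z.2.1 = lab z.1.2 z.2.1 ∨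
    lab z.1.1 z.2.2 = lab z.1.2 z.2.2))

lemma Za_le : Za G lab s ≤ 2 * (Zc G (fun a x y => s a x y = 0) +
    Zc (fun x a => G a x) (fun x a b => lab a x = lab b x)) := by
  have h1 : cnt (fun z : (V × V) × (V × V) => C4 G z ∧ s z.1.2 z.2.1 z.2.2 = 0) ≤
      Zc G (fun a x y => s a x y = 0) :=
    cnt_inj (fun z => ((z.1.2, z.1.1), z.2))
      (fun z hz => ⟨⟨hz.1.2.2.1, hz.1.2.2.2, hz.1.1, hz.1.2.1⟩, hz.2⟩)
      (fun z w _ _ h => by
        simp only [Prod.mk.injEq] at h; exact Prod.ext (Prod.ext h.1.2 h.1.1) h.2)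
  have h2 : cnt (fun z : (V × V) × (V × V) => C4 G z ∧ lab z.1.1 z.2.1 = lab z.1.2 z.2.1) ≤
      Zc (fun x a => G a x) (fun x a b => lab a x = lab b x) :=
    cnt_inj (fun z => (z.2, z.1))
      (fun z hz => ⟨⟨hz.1.1, hz.1.2.2.1, hz.1.2.1, hz.1.2.2.2⟩, hz.2⟩)
      (fun z w _ _ h => by simp only [Prod.mk.injEq] at h; exact Prod.ext h.2 h.1)
  have h3 : cnt (fun z : (V × V) × (V × V) => C4 G z ∧ lab z.1.1 z.2.2 = lab z.1.2 z.2.2) ≤
      Zc (fun x a => G a x) (fun x a b => lab a x = lab b x) :=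
    cnt_inj (fun z => ((z.2.2, z.2.1), z.1))
      (fun z hz => ⟨⟨hz.1.2.1, hz.1.2.2.2, hz.1.1, hz.1.2.2.1⟩, hz.2⟩)
      (fun z w _ _ h => by
        simp only [Prod.mk.injEq] at h; exact Prod.ext h.2 (Prod.ext h.1.2 h.1.1))
  have h4 : Za G lab s ≤ Zc G (fun a x y => s a x y = 0) + _ := cnt_le_add
    (r := fun z => (C4 G z ∧ s z.1.2 z.2.1 z.2.2 = 0) ∨
      (C4 G z ∧ lab z.1.1 z.2.1 = lab z.1.2 z.2.1) ∨ (C4 G z ∧ lab z.1.1 z.2.2 = lab z.1.2 z.2.2))
    (fun z hz => by tauto)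
  have h5 := cnt_le_add3 (p := fun z : (V × V) × (V × V) =>
      (C4 G z ∧ s z.1.2 z.2.1 z.2.2 = 0) ∨
      (C4 G z ∧ lab z.1.1 z.2.1 = lab z.1.2 z.2.1) ∨ (C4 G z ∧ lab z.1.1 z.2.2 = lab z.1.2 z.2.2))
    (fun z hz => hz)
  linarith

lemma sg_cases (p q : ℕ) : (p = q ∧ sg p q = 0) ∨ (p ≠ q ∧ (sg p q = 1 ∨ sg p q = -1)) := by
  unfold sg
  split_ifs <;> simp <;> omega

lemma pt {u v p q : ℝ} {A B : Prop} (hu : u = 0 ∨ u = 1 ∨ u = -1) (hv : v = 0 ∨ v = 1 ∨ v = -1)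
    (hp : (A ∧ p = 0) ∨ (¬ A ∧ (p = 1 ∨ p = -1))) (hq : (B ∧ q = 0) ∨ (¬ B ∧ (q = 1 ∨ q = -1)))
    (h : u ≠ 0 → v ≠ 0 → ¬ A → ¬ B → u * v * (p * q) = -1) :
    (u = 0 ∨ v = 0 ∨ A ∨ B → u * v + p * q ≤ 1) ∧
      (¬ (u = 0 ∨ v = 0 ∨ A ∨ B) → u * v + p * q ≤ 0) := by
  rcases hu with rfl | rfl | rfl <;> rcases hv with rfl | rfl | rfl <;>
    rcases hp with ⟨a, rfl⟩ | ⟨a, rfl | rfl⟩ <;> rcases hq with ⟨b, rfl⟩ | ⟨b, rfl | rfl⟩ <;>
    first | (norm_num [a, b]; done) | norm_num [a, b] at h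

lemma level (h : PSign G lab s) (l : ℕ) : ∑ a, ∑ b, Nb G lab l a b ^ 2 ≤ Za G lab s := by
  set chi : V → V → V → V → Prop := fun a b x y =>
    (G a x ∧ G a y ∧ G b x ∧ G b y) ∧ lab a x / 2 ^ l / 2 = lab b x / 2 ^ l / 2 ∧
      lab a y / 2 ^ l / 2 = lab b y / 2 ^ l / 2 ∧ lab a x / 2 ^ l % 2 = lab a y / 2 ^ l % 2 ∧
      lab b x / 2 ^ l % 2 = lab b y / 2 ^ l % 2 with hchi
  have S1 : 0 ≤ ∑ a, ∑ b, ∑ x, ∑ y, if chi a b x y then s a x y * s b x y else 0 := by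
    rw [sum4_comm fun a b x y => if chi a b x y then s a x y * s b x y else 0]
    refine Finset.sum_nonneg fun x _ => Finset.sum_nonneg fun y _ => ?_
    have := sumkey (fun a => if G a x ∧ G a y ∧ lab a x / 2 ^ l % 2 = lab a y / 2 ^ l % 2 then
      s a x y else 0) (fun a => (lab a x / 2 ^ l / 2, lab a y / 2 ^ l / 2)) (0, 0)
    refine ((sq_nonneg _).trans this).trans (le_of_eq ?_)
    refine Finset.sum_congr rfl fun a _ => Finset.sum_congr rfl fun b _ => ?_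
    simp only [hchi, Prod.mk.injEq]
    by_cases c1 : G a x ∧ G a y ∧ lab a x / 2 ^ l % 2 = lab a y / 2 ^ l % 2
    · by_cases c2 : G b x ∧ G b y ∧ lab b x / 2 ^ l % 2 = lab b y / 2 ^ l % 2
      · simp only [c1, c2, and_self, if_true, true_and, and_true]
      · rw [if_neg c2, mul_zero, ite_self, if_neg (by tauto)]
    · rw [if_neg c1, zero_mul, ite_self, if_neg (by tauto)]
  have S2 : ∑ a, ∑ b, Nb G lab l a b ^ 2 ≤ ∑ a, ∑ b, ∑ x, ∑ y, if chi a b x y then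
      sg (lab a x) (lab b x) * sg (lab a y) (lab b y) else 0 := by
    refine Finset.sum_le_sum fun a _ => Finset.sum_le_sum fun b _ => ?_
    have := sumkey (fun x => if G a x ∧ G b x ∧ lab a x / 2 ^ l / 2 = lab b x / 2 ^ l / 2 then
      sg (lab a x) (lab b x) else 0) (fun x => (lab a x / 2 ^ l % 2, lab b x / 2 ^ l % 2)) (0, 1)
    refine (le_of_eq ?_).trans (this.trans (le_of_eq ?_))
    · unfold Nb
      rw [cnt_eq_sum]
      refine congrArg (fun r : ℝ => r ^ 2) (Finset.sum_congr rfl fun x _ => ?_)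
      simp only [Prod.mk.injEq]
      by_cases c1 : lab a x / 2 ^ l % 2 = 0 ∧ lab b x / 2 ^ l % 2 = 1
      · by_cases c2 : G a x ∧ G b x ∧ lab a x / 2 ^ l / 2 = lab b x / 2 ^ l / 2
        · have h1 : lab a x / 2 ^ l < lab b x / 2 ^ l := by omega
          have h2 : lab a x < lab b x := Nat.lt_of_div_lt_div h1
          rw [if_pos c1, if_pos c2, if_pos (by tauto)]; simp [sg, h2]
        · rw [if_pos c1, if_neg c2, if_neg (by tauto)]
      · rw [if_neg c1, if_neg (by tauto)]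
    · refine Finset.sum_congr rfl fun x _ => Finset.sum_congr rfl fun y _ => ?_
      simp only [hchi, Prod.mk.injEq]
      by_cases c1 : G a x ∧ G b x ∧ lab a x / 2 ^ l / 2 = lab b x / 2 ^ l / 2
      · by_cases c2 : G a y ∧ G b y ∧ lab a y / 2 ^ l / 2 = lab b y / 2 ^ l / 2
        · simp only [c1, c2, and_self, if_true, true_and]
        · rw [if_neg c2, mul_zero, ite_self, if_neg (by tauto)]
      · rw [if_neg c1, zero_mul, ite_self, if_neg (by tauto)]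
  refine S2.trans ((le_add_of_nonneg_left S1).trans ?_)
  unfold Za
  rw [cnt_prod, Fintype.sum_prod_type, ← Finset.sum_add_distrib]
  refine Finset.sum_le_sum fun a _ => ?_
  rw [← Finset.sum_add_distrib]
  refine Finset.sum_le_sum fun b _ => ?_
  rw [cnt_eq_sum, Fintype.sum_prod_type, ← Finset.sum_add_distrib]
  refine Finset.sum_le_sum fun x _ => ?_
  rw [← Finset.sum_add_distrib]
  refine Finset.sum_le_sum fun y _ => ?_
  by_cases c : chi a b x y
  · rw [if_pos c, if_pos c]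
    obtain ⟨⟨g1, g2, g3, g4⟩, -⟩ := c
    simp only [C4, g1, g2, g3, g4, and_self, true_and]
    have := pt (h.1 a x y) (h.1 b x y) (sg_cases _ _) (sg_cases _ _) (h.2 a b x y g1 g2 g3 g4)
    split_ifs with c
    exacts [this.1 c, this.2 c]
  · rw [if_neg c, if_neg c]; split_ifs <;> norm_num

lemma c4 (h : PSign G lab s) {L : ℕ} (hL : 1 ≤ L) (hb : ∀ a x, G a x → lab a x < 2 ^ L) :
    cnt (C4 G) ≤ 9 * (L:ℝ) ^ 2 * Za G lab s := by
  have h0 : ∑ a, ∑ b, cnt (fun x => G a x ∧ G b x ∧ lab a x = lab b x) ^ 2 ≤ Za G lab s := by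
    unfold Za
    rw [cnt_prod, Fintype.sum_prod_type]
    refine Finset.sum_le_sum fun a _ => Finset.sum_le_sum fun b _ => ?_
    rw [cnt_sq]
    exact cnt_mono fun z hz => by simp only [C4]; tauto
  have hl := level h
  have key : ∀ a b, cnt (fun x => G a x ∧ G b x) ^ 2 ≤
      3 * cnt (fun x => G a x ∧ G b x ∧ lab a x = lab b x) ^ 2 +
      3 * L * ∑ l ∈ range L, Nb G lab l a b ^ 2 + 3 * L * ∑ l ∈ range L, Nb G lab l b a ^ 2 := by
    intro a b
    have c1 : cnt (fun x => G a x ∧ G b x ∧ lab a x < lab b x) ≤ ∑ l ∈ range L, Nb G lab l a b :=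
      (cnt_cover _ L (fun l x => lab a x / 2 ^ l / 2 = lab b x / 2 ^ l / 2 ∧
        lab a x / 2 ^ l % 2 = 0 ∧ lab b x / 2 ^ l % 2 = 1)
        (fun x hx => bits_cover hx.2.2 (hb _ _ hx.2.1))).trans
        (Finset.sum_le_sum fun l _ => cnt_mono fun x hx => by tauto)
    have c2 : cnt (fun x => G a x ∧ G b x ∧ lab b x < lab a x) ≤ ∑ l ∈ range L, Nb G lab l b a :=
      (cnt_cover _ L (fun l x => lab b x / 2 ^ l / 2 = lab a x / 2 ^ l / 2 ∧
        lab b x / 2 ^ l % 2 = 0 ∧ lab a x / 2 ^ l % 2 = 1)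
        (fun x hx => bits_cover hx.2.2 (hb _ _ hx.1))).trans
        (Finset.sum_le_sum fun l _ => cnt_mono fun x hx => by tauto)
    have c3 := cnt_le_add3 (p := fun x => G a x ∧ G b x)
      (q := fun x => G a x ∧ G b x ∧ lab a x = lab b x)
      (r := fun x => G a x ∧ G b x ∧ lab a x < lab b x)
      (s := fun x => G a x ∧ G b x ∧ lab b x < lab a x) (fun x hx => by
        rcases lt_trichotomy (lab a x) (lab b x) with h | h | h <;> tauto)
    have d1 := sq_sum_le_card_mul_sum_sq (s := range L) (f := fun l => Nb G lab l a b)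
    have d2 := sq_sum_le_card_mul_sum_sq (s := range L) (f := fun l => Nb G lab l b a)
    rw [card_range] at d1 d2
    have n0 := cnt_nonneg (fun x => G a x ∧ G b x)
    set u := cnt (fun x => G a x ∧ G b x)
    set u0 := cnt (fun x => G a x ∧ G b x ∧ lab a x = lab b x)
    set s1 := ∑ l ∈ range L, Nb G lab l a b
    set s2 := ∑ l ∈ range L, Nb G lab l b a
    have : u ≤ u0 + s1 + s2 := by linarith
    have h2 : u ^ 2 ≤ (u0 + s1 + s2) ^ 2 := pow_le_pow_left₀ n0 this 2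
    nlinarith [sq_nonneg (u0 - s1), sq_nonneg (u0 - s2), sq_nonneg (s1 - s2)]
  have t1 : ∑ a, ∑ b, ∑ l ∈ range L, Nb G lab l a b ^ 2 ≤ L * Za G lab s := by
    have : ∑ a, ∑ b, ∑ l ∈ range L, Nb G lab l a b ^ 2 =
        ∑ l ∈ range L, ∑ a, ∑ b, Nb G lab l a b ^ 2 := by
      rw [Finset.sum_comm (s := range L)]
      exact Finset.sum_congr rfl fun a _ => Finset.sum_comm
    rw [this]
    calc _ ≤ ∑ _l ∈ range L, Za G lab s := Finset.sum_le_sum fun l _ => hl l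
      _ = _ := by simp
  have t2 : ∑ a, ∑ b, ∑ l ∈ range L, Nb G lab l b a ^ 2 ≤ L * Za G lab s := by
    rw [Finset.sum_comm]; exact t1
  have hz0 : 0 ≤ Za G lab s := cnt_nonneg _
  have hL' : (1:ℝ) ≤ L := by exact_mod_cast hL
  rw [c4_eq]
  have tot : ∑ a, ∑ b, cnt (fun x => G a x ∧ G b x) ^ 2 ≤
      3 * Za G lab s + 3 * L * (L * Za G lab s) + 3 * L * (L * Za G lab s) := by
    refine (Finset.sum_le_sum fun a _ => Finset.sum_le_sum fun b _ => key a b).trans ?_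
    simp only [Finset.sum_add_distrib, ← Finset.mul_sum]
    gcongr
  have : (1:ℝ) ≤ L ^ 2 := one_le_pow₀ hL'
  nlinarith [mul_le_mul_of_nonneg_right this hz0]

omit [Fintype V] in
lemma k33 (h : PSign G lab s) :
    K33 G (fun a x y => s a x y = 0) (fun x a b => lab a x = lab b x) := by
  intro a b c x y z ax ay az bx b_y bz cx cy cz a1 a2 a3 b1 b2 b3 c1 c2 c3 x1 x2 x3 y1 y2 y3
    z1 z2 z3
  have q2 : ∀ {p q}, ¬ p = q → sg p q ^ 2 = 1 := fun {p q} n => by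
    rcases sg_cases p q with e | ⟨-, e | e⟩
    exacts [absurd e.1 n, by rw [e]; norm_num, by rw [e]; norm_num]
  have row : ∀ a b, G a x → G a y → G a z → G b x → G b y → G b z → ¬ s a x y = 0 →
      ¬ s a y z = 0 → ¬ s a x z = 0 → ¬ s b x y = 0 → ¬ s b y z = 0 → ¬ s b x z = 0 →
      ¬ lab a x = lab b x → ¬ lab a y = lab b y → ¬ lab a z = lab b z →
      (s a x y * s a y z * s a x z) * (s b x y * s b y z * s b x z) = -1 := by
    intro a b ax ay az bx b_y bz a1 a2 a3 b1 b2 b3 x1 y1 z1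
    have e1 := h.2 a b x y ax ay bx b_y a1 b1 x1 y1
    have e2 := h.2 a b y z ay az b_y bz a2 b2 y1 z1
    have e3 := h.2 a b x z ax az bx bz a3 b3 x1 z1
    have e := congrArg₂ HMul.hMul (congrArg₂ HMul.hMul e1 e2) e3
    calc _ = (s a x y * s a y z * s a x z) * (s b x y * s b y z * s b x z) *
          (sg (lab a x) (lab b x) ^ 2 * sg (lab a y) (lab b y) ^ 2 *
            sg (lab a z) (lab b z) ^ 2) := by rw [q2 x1, q2 y1, q2 z1]; ring
      _ = -1 * -1 * -1 := by rw [← e]; ring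
      _ = -1 := by norm_num
  have r1 := row a b ax ay az bx b_y bz a1 a2 a3 b1 b2 b3 x1 y1 z1
  have r2 := row b c bx b_y bz cx cy cz b1 b2 b3 c1 c2 c3 x2 y2 z2
  have r3 := row a c ax ay az cx cy cz a1 a2 a3 c1 c2 c3 x3 y3 z3
  set A := s a x y * s a y z * s a x z
  set B := s b x y * s b y z * s b x z
  set C := s c x y * s c y z * s c x z
  have : (A * B * C) ^ 2 = (A * B) * (B * C) * (A * C) := by ring
  rw [r1] at this
  rw [r2, r3] at this
  nlinarith [sq_nonneg (-1 * C)]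

end Id2

theorem id2 : IdS := by
  intro V _ Γ lab s L h hL hb
  refine ⟨(Id2.c4 h hL hb).trans ?_, Id2.k33 h⟩
  nlinarith [mul_le_mul_of_nonneg_left (Id2.Za_le (G := Γ) (lab := lab) (s := s))
    (sq_nonneg (L:ℝ))]

end Pool.Agent.Lib.MP_65c801_co.T
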