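import Pool.Agent.Lib.MP_65c801_co.T.St

/-! The incidence bound for groups and its two instances. -/

namespace Pool.Agent.Lib.MP_65c801_co.T

open Finset Classical

theorem inc : IncS := by
  intro V K _ H κ C P ok C0 P1 G U e he
  set H0 : V → V → Prop := fun c y => H c y ∧ (c, κ c y) ∈ G ∧ U y with hH0
  have q := ok H0 fun c y g => g.1
  set p : V × V × V → Prop := fun z => H0 z.1 z.2.1 ∧ H0 z.1 z.2.2 ∧ κ z.1 z.2.1 = κ z.1 z.2.2 ∧
    z.2.1 ≠ z.2.2 with hp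
  have c1 : e ^ 2 ≤ G.card * Chr H0 κ := by
    rw [he]
    refine (cnt_cs (fun e : V × V => (e.1, κ e.1 e.2)) G fun e g => g.2.1).trans
      (mul_le_mul_of_nonneg_left (cnt_inj (fun z => (z.1.1, z.1.2, z.2.2)) ?_ ?_) (by positivity))
    · rintro ⟨⟨a, y⟩, ⟨b, x⟩⟩ ⟨h1, h2, h3⟩
      simp only [Prod.mk.injEq] at h3
      obtain ⟨rfl, h3⟩ := h3
      exact ⟨h1, h2, h3⟩
    · rintro ⟨⟨a, y⟩, ⟨b, x⟩⟩ ⟨⟨a', y'⟩, ⟨b', x'⟩⟩ ⟨-, -, h1⟩ ⟨-, -, h3⟩ h5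
      simp only [Prod.mk.injEq] at h1 h3 h5 ⊢
      obtain ⟨rfl, rfl, rfl⟩ := h5
      exact ⟨⟨rfl, rfl⟩, h1.1.symm.trans h3.1, rfl⟩
  have c2 : Chr H0 κ ≤ e + cnt p := by
    refine (cnt_le_add (q := fun z => H0 z.1 z.2.1 ∧ z.2.1 = z.2.2) (r := p)
      fun z hz => by simp only [hp]; tauto).trans (add_le_add_left ?_ _)
    rw [he]
    refine cnt_inj (fun z => (z.1, z.2.1)) (fun z hz => hz.1) fun z w hz hw e => ?_
    simp only [Prod.mk.injEq] at e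
    exact Prod.ext e.1 (Prod.ext e.2 (hz.2.symm.trans (e.2.trans hw.2)))
  have c3 : cnt p ^ 2 ≤ cnt U ^ 2 * Q4 H0 κ := by
    rw [cnt_sq U]
    refine (cnt_cs' (fun z => z.2) fun z hz => ⟨hz.1.2.2, hz.2.1.2.2⟩).trans
      (mul_le_mul_of_nonneg_left (cnt_inj (fun z => ((z.1.1, z.2.1), z.1.2)) ?_ ?_) (cnt_nonneg _))
    · rintro ⟨⟨a, y⟩, ⟨b, x⟩⟩ ⟨h1, h2, h3⟩
      simp only at h3
      subst h3
      exact ⟨⟨h1.1, h1.2.1, h2.1, h2.2.1⟩, h1.2.2.2, h1.2.2.1, h2.2.2.1⟩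
    · rintro ⟨⟨a, y⟩, ⟨b, x⟩⟩ ⟨⟨a', y'⟩, ⟨b', x'⟩⟩ ⟨-, -, h1⟩ ⟨-, -, h3⟩ h5
      simp only [Prod.mk.injEq] at h1 h3 h5 ⊢
      exact ⟨⟨h5.1.1, h5.2⟩, h5.1.2, h1.symm.trans (h5.2.trans h3)⟩
  rw [← he] at q
  have e0 : 0 ≤ e := he ▸ cnt_nonneg _
  have s0 := cnt_nonneg p
  set s := cnt p
  set g := (G.card : ℝ)
  set u := cnt U ^ 2
  have g0 : 0 ≤ g := by positivity
  have u0 : 0 ≤ u := by positivity
  by_cases c : e ≤ 2 * g
  · exact Or.inl c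
  right
  push Not at c
  have a1 : e ^ 2 ≤ 2 * g * s := by nlinarith [mul_le_mul_of_nonneg_left c2 g0]
  have a2 : s ^ 2 ≤ u * (C * (s + 2 * P * e)) :=
    c3.trans (mul_le_mul_of_nonneg_left (q.trans (mul_le_mul_of_nonneg_left (by nlinarith) C0)) u0)
  have uC := mul_nonneg u0 C0
  by_cases c' : 2 * P * e ≤ s
  · left
    rcases s0.eq_or_lt with k | k
    · rw [← k] at a1; nlinarith [mul_nonneg uC g0]
    · have : s * s ≤ s * (2 * (u * C)) := by nlinarith [mul_le_mul_of_nonneg_left c' uC]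
      nlinarith [mul_le_mul_of_nonneg_left (le_of_mul_le_mul_left this k) g0]
  · right
    push Not at c'
    have a3 : s ^ 2 ≤ 4 * (u * C) * P * e := by nlinarith [mul_le_mul_of_nonneg_left c'.le uC]
    have a4 : (e ^ 2) ^ 2 ≤ (2 * g * s) ^ 2 := pow_le_pow_left₀ (sq_nonneg _) a1 2
    have ep : 0 < e := by linarith
    have : e * e ^ 3 ≤ e * (16 * C * g ^ 2 * u * P) := by
      nlinarith [mul_le_mul_of_nonneg_left a3 (sq_nonneg g)]
    exact le_of_mul_le_mul_left this ep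

namespace Inc

variable {V α K : Type} [Fintype V] [LinearOrder α]

lemma two (H : V → V → Prop) (κ : V → V → K) (w : V → V → ℕ)
    (h2 : ∀ y z, ∃ u1 u2, ∀ a, y ≠ z → H a y → H a z → κ a y = κ a z → w a y = u1 ∨ w a y = u2) :
    Q4 H κ ≤ 2 * ∑ q : V × V, cnt fun z : V × V => (q.1 ≠ q.2 ∧ H z.1 q.1 ∧ H z.1 q.2 ∧
      κ z.1 q.1 = κ z.1 q.2) ∧ (q.1 ≠ q.2 ∧ H z.2 q.1 ∧ H z.2 q.2 ∧ κ z.2 q.1 = κ z.2 q.2) ∧
      w z.1 q.1 = w z.2 q.1 := by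
  rw [Q4, cnt_prod', Finset.mul_sum]
  refine Finset.sum_le_sum fun q _ => ?_
  obtain ⟨u1, u2, hu⟩ := h2 q.1 q.2
  have h1 := cnt_cs (p := fun a => q.1 ≠ q.2 ∧ H a q.1 ∧ H a q.2 ∧ κ a q.1 = κ a q.2)
    (fun a => w a q.1) {u1, u2} fun a g => by simpa using hu a g.1 g.2.1 g.2.2.1 g.2.2.2
  rw [cnt_sq] at h1
  refine le_trans (cnt_mono fun z hz => ?_) (h1.trans (mul_le_mul_of_nonneg_right
    (by exact_mod_cast Finset.card_le_two) (cnt_nonneg _)))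
  simp only [C4] at hz
  tauto

lemma tri (p : V → Prop) (r : V → V → Prop)
    (h3 : ∀ x y z, p x → p y → p z → r x y ∨ r y z ∨ r x z) :
    cnt p ^ 2 ≤ 3 * cnt fun z : V × V => p z.1 ∧ p z.2 ∧ r z.1 z.2 := by
  have e : cnt p ^ 3 = cnt (fun z : V × V × V => p z.1 ∧ p z.2.1 ∧ p z.2.2) := by
    rw [cnt_mul p (fun z : V × V => p z.1 ∧ p z.2), ← cnt_sq]; ring
  have m := cnt_mul (fun z : V × V => p z.1 ∧ p z.2 ∧ r z.1 z.2) p
  have b1 : cnt (fun z : V × V × V => (p z.1 ∧ p z.2.1 ∧ p z.2.2) ∧ r z.1 z.2.1) ≤ _ :=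
    (cnt_inj (fun z => ((z.1, z.2.1), z.2.2)) (fun z hz => ⟨⟨hz.1.1, hz.1.2.1, hz.2⟩, hz.1.2.2⟩)
      (fun z w _ _ h => by
        simp only [Prod.mk.injEq] at h; exact Prod.ext h.1.1 (Prod.ext h.1.2 h.2))).trans m.le
  have b2 : cnt (fun z : V × V × V => (p z.1 ∧ p z.2.1 ∧ p z.2.2) ∧ r z.2.1 z.2.2) ≤ _ :=
    (cnt_inj (fun z => ((z.2.1, z.2.2), z.1)) (fun z hz => ⟨⟨hz.1.2.1, hz.1.2.2, hz.2⟩, hz.1.1⟩)
      (fun z w _ _ h => by
        simp only [Prod.mk.injEq] at h; exact Prod.ext h.2 (Prod.ext h.1.1 h.1.2))).trans m.le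
  have b3 : cnt (fun z : V × V × V => (p z.1 ∧ p z.2.1 ∧ p z.2.2) ∧ r z.1 z.2.2) ≤ _ :=
    (cnt_inj (fun z => ((z.1, z.2.2), z.2.1)) (fun z hz => ⟨⟨hz.1.1, hz.1.2.2, hz.2⟩, hz.1.2.1⟩)
      (fun z w _ _ h => by
        simp only [Prod.mk.injEq] at h; exact Prod.ext h.1.1 (Prod.ext h.2 h.1.2))).trans m.le
  have s2 := cnt_le_add3 (p := fun z : V × V × V => p z.1 ∧ p z.2.1 ∧ p z.2.2)
    (q := fun z => (p z.1 ∧ p z.2.1 ∧ p z.2.2) ∧ r z.1 z.2.1)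
    (r := fun z => (p z.1 ∧ p z.2.1 ∧ p z.2.2) ∧ r z.2.1 z.2.2)
    (s := fun z => (p z.1 ∧ p z.2.1 ∧ p z.2.2) ∧ r z.1 z.2.2)
    (fun z hz => by have := h3 _ _ _ hz.1 hz.2.1 hz.2.2; tauto)
  rcases (cnt_nonneg p).eq_or_lt with k | k
  · rw [← k]; simpa using cnt_nonneg _
  · refine le_of_mul_le_mul_right ?_ k
    linarith

lemma tri' (p : V → Prop) (w : V → ℕ) (r : V → V → Prop)
    (h3 : ∀ x y z, p x → p y → p z → w y = w x → w z = w x → r x y ∨ r y z ∨ r x z) :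
    cnt (fun z : V × V => p z.1 ∧ p z.2 ∧ w z.1 = w z.2) ≤
      3 * cnt fun z : V × V => p z.1 ∧ p z.2 ∧ w z.1 = w z.2 ∧ r z.1 z.2 := by
  rw [cnt_fib _ (fun z : V × V => w z.1) (univ.image w) fun z _ => mem_image_of_mem _ (mem_univ _),
    cnt_fib (fun z : V × V => p z.1 ∧ p z.2 ∧ w z.1 = w z.2 ∧ r z.1 z.2) (fun z : V × V => w z.1)
      (univ.image w) fun z _ => mem_image_of_mem _ (mem_univ _), Finset.mul_sum]
  refine Finset.sum_le_sum fun u _ => ?_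
  have h1 := tri (fun x => p x ∧ w x = u) r fun x y z a b c =>
    h3 x y z a.1 b.1 c.1 (b.2.trans a.2.symm) (c.2.trans a.2.symm)
  rw [cnt_sq] at h1
  exact (cnt_mono fun z hz => ⟨⟨hz.1.1, hz.2⟩, hz.1.2.1, hz.1.2.2 ▸ hz.2⟩).trans (h1.trans
    (mul_le_mul_of_nonneg_left (cnt_mono fun z hz => ⟨⟨hz.1.1, hz.2.1.1,
      hz.1.2.trans hz.2.1.2.symm, hz.2.2⟩, hz.1.2⟩) (by norm_num)))

variable {h : V → ℕ → α} {H : V → V → Prop} {t : V → V → ℕ} {S : ℕ} {P : ℝ} {row col : V → ℕ → ℕ}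

lemma ord (hn : NoAlt h) (f : Fam h H t) (S0 : 0 < S) (s : Stair h H t S P row col) {a y z : V}
    {u : ℕ} (g : H a y) (g' : H a z) (w : t a y / S = u) (w' : t a z / S = u)
    (r : row y u < row z u) (c : col y u ≠ col z u) : t a y < t a z := by
  have ne : y ≠ z := fun e => by subst e; exact c rfl
  have o1 := s.r0 u y z r
  have o2 := s.c0 u z y (lt_of_le_of_ne (s.st a y z u g g' w w' r) c.symm)
  have o3 := (f.p1 a y g).trans (f.p2 a y z g g' ne)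
  have o4 := (f.p1 a z g').trans (f.p2 a z y g' g ne.symm)
  have b1 := (win_bounds S0 w).2
  have b2 := (win_bounds S0 w').1
  refine lt_of_le_of_ne (not_lt.1 fun k => ?_) fun e => ne (f.injU g g' e)
  exact hn y z _ _ _ _ (lt_of_le_of_ne b2 fun e => lt_asymm o1 (e ▸ o4)) k
    (lt_of_le_of_ne b1 fun e => lt_asymm o2 (e ▸ o3)) o1 o4 o3 o2

lemma dif (hn : NoAlt h) (f : Fam h H t) (S0 : 0 < S) (s : Stair h H t S P row col) {a b y z : V}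
    {u : ℕ} (ab : a ≠ b) (g1 : H a y) (g2 : H a z) (g3 : H b y) (g4 : H b z) (w1 : t a y / S = u)
    (w2 : t a z / S = u) (w3 : t b y / S = u) (w4 : t b z / S = u)
    (n : ¬ (row y u = row z u ∨ col y u = col z u)) : ¬ (t a y < t b y ↔ t a z < t b z) := by
  obtain ⟨r, c⟩ := not_or.1 n
  have ne : y ≠ z := fun e => by subst e; exact c rfl
  refine (f.sign hn a b y z g1 g2 g3 g4 (fun e => ne (f.injU g1 g2 e))
    (fun e => ne (f.injU g3 g4 e)) (fun e => ab (f.injL g1 g3 e))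
    (fun e => ab (f.injL g2 g4 e))).1 ?_
  rcases lt_or_gt_of_ne r with k | k
  · exact iff_of_true (ord hn f S0 s g1 g2 w1 w2 k c) (ord hn f S0 s g3 g4 w3 w4 k c)
  · exact iff_of_false (lt_asymm (ord hn f S0 s g2 g1 w2 w1 k (Ne.symm c)))
      (lt_asymm (ord hn f S0 s g4 g3 w4 w3 k (Ne.symm c)))

end Inc

theorem i1 (hS : SplitS) : I1S := by
  intro V α K _ _ h H t κ S L P hn f L1 tb win hP H0 sub
  have h1 := Inc.two H0 κ (fun a y => t a y / S) fun y z => by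
    obtain ⟨u1, u2, hu⟩ := f.two hn S y z
    exact ⟨u1, u2, fun a n g g' e => hu _ a n (sub _ _ g) (sub _ _ g') rfl
      (win a y z (sub _ _ g) (sub _ _ g') e).symm⟩
  have h2 := hS V α K ℕ h H0 t κ (fun a y => t a y / S) L hn (f.mono sub) L1
    fun a y g => tb a y (sub _ _ g)
  have h3 := Chr_le (fun y a => H0 a y) (fun y a => t a y / S) (P := P) fun y w =>
    (cnt_mono fun a g => ⟨sub _ _ g.1, g.2⟩).trans (hP y w)
  rw [ed_flip] at h3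
  have h4 : 0 ≤ Chr (fun y a => H0 a y) (fun y a => t a y / S) := cnt_nonneg _
  have h5 : 0 ≤ Chr H0 κ := cnt_nonneg _
  refine h1.trans (le_trans (mul_le_mul_of_nonneg_left (le_trans ?_ h2) (by norm_num)) ?_)
  · rw [Sp4, cnt_prod']
    refine Finset.sum_le_sum fun q _ => cnt_mono ?_
    rintro z ⟨⟨-, g1, g2, e1⟩, ⟨-, g3, g4, e2⟩, e3⟩
    exact ⟨⟨g1, g2, g3, g4⟩, e1, e2, e3, (win _ _ _ (sub _ _ g1) (sub _ _ g2) e1).symm.trans
      (e3.trans (win _ _ _ (sub _ _ g3) (sub _ _ g4) e2))⟩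
  · nlinarith [mul_le_mul_of_nonneg_left h3 (sq_nonneg (L:ℝ)), mul_nonneg (sq_nonneg (L:ℝ)) h4,
      mul_nonneg (sq_nonneg (L:ℝ)) h5]

theorem i2 (hS : SplitS) : I2S := by
  intro V α _ _ h H t S L P row col hn f L1 tb S0 s H0 sub
  have h1 := Inc.two H0 (fun y a => t a y / S) (fun y a => t a y / S) fun a b => by
    obtain ⟨u1, u2, hu⟩ := f.flip.two hn.flip S a b
    exact ⟨u1, u2, fun y n g g' e => hu _ y n (sub _ _ g) (sub _ _ g') rfl e.symm⟩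
  have key : ∀ r : V → ℕ → ℕ, (∀ a w k, cnt (fun y => H a y ∧ t a y / S = w ∧ r y w = k) ≤ P) →
      Sp4 (fun a y => H0 y a) (fun a y => (t a y / S, r y (t a y / S))) (fun a y => t a y / S) ≤
      18 * (L:ℝ) ^ 2 * (Chr H0 (fun y a => t a y / S) + P * ed H0) := fun r hr => by
    have h2 := hS V α _ ℕ h (fun a y => H0 y a) t (fun a y => (t a y / S, r y (t a y / S)))
      (fun a y => t a y / S) L hn (f.mono fun a y => sub y a) L1 fun a y g => tb a y (sub _ _ g)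
    have h3 := Chr_le (fun a y => H0 y a) (fun a y => (t a y / S, r y (t a y / S))) (P := P)
      fun a k => (cnt_mono fun y g => by
        obtain ⟨g, rfl⟩ := g
        exact ⟨sub _ _ g, rfl, rfl⟩).trans (hr a k.1 k.2)
    rw [ed_flip] at h3
    exact h2.trans (mul_le_mul_of_nonneg_left (by linarith) (by positivity))
  have k1 := key row s.rs
  have k2 := key col s.cs
  refine h1.trans (le_trans (mul_le_mul_of_nonneg_left (le_trans ?_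
    (mul_le_mul_of_nonneg_left (add_le_add k1 k2) (by norm_num : (0:ℝ) ≤ 3))) (by norm_num))
    (le_of_eq (by ring)))
  rw [Sp4, Sp4, cnt_prod, cnt_prod, ← Finset.sum_add_distrib, Finset.mul_sum]
  refine Finset.sum_le_sum fun q _ => ?_
  refine (Inc.tri' (fun y => q.1 ≠ q.2 ∧ H0 y q.1 ∧ H0 y q.2 ∧ t q.1 y / S = t q.2 y / S)
    (fun y => t q.1 y / S) (fun y z => row y (t q.1 y / S) = row z (t q.1 y / S) ∨
      col y (t q.1 y / S) = col z (t q.1 y / S)) ?_).trans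
    (mul_le_mul_of_nonneg_left (cnt_le_add ?_) (by norm_num))
  · rintro x y z ⟨n, a1, a2, a3⟩ ⟨-, b1, b2, b3⟩ ⟨-, c1, c2, c3⟩ e1 e2
    by_contra hc
    obtain ⟨n1, n23⟩ := not_or.1 hc
    obtain ⟨n2, n3⟩ := not_or.1 n23
    have d1 := Inc.dif hn f S0 s n (sub _ _ a1) (sub _ _ b1) (sub _ _ a2) (sub _ _ b2) rfl e1
      a3.symm (b3.symm.trans e1) n1
    have d2 := Inc.dif hn f S0 s n (sub _ _ b1) (sub _ _ c1) (sub _ _ b2) (sub _ _ c2) rfl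
      (e2.trans e1.symm) b3.symm (c3.symm.trans (e2.trans e1.symm)) n2
    have d3 := Inc.dif hn f S0 s n (sub _ _ a1) (sub _ _ c1) (sub _ _ a2) (sub _ _ c2) rfl e2
      a3.symm (c3.symm.trans e2) n3
    tauto
  · rintro z ⟨⟨-, a1, a2, a3⟩, ⟨-, b1, b2, b3⟩, e, r⟩
    simp only [C4, Prod.mk.injEq, a1, a2, b1, b2, ← a3, ← b3, ← e, true_and, and_true, and_self]
    exact r

end Pool.Agent.Lib.MP_65c801_co.T
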