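import Pool.Agent.Lib.MP_65c801_co.T.St

/-! Degenerate four-cycles of a graph all of whose `K_{3,3}` are degenerate. -/

namespace Pool.Agent.Lib.MP_65c801_co.T

open Finset Classical

namespace SideAux

variable {V : Type} [Fintype V]

lemma triple {Γ : V → V → Prop} {zA zX : V → V → V → Prop} (hs : K33 Γ zA zX) {k2 : ℝ}
    (hk2 : ∀ x c, Γ c x → cnt (fun a => Γ a x ∧ zX x c a) ≤ k2) (hk0 : 0 ≤ k2) (x y z : V) :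
    cnt (fun c => Γ c x ∧ Γ c y ∧ Γ c z ∧ ¬ zA c x y ∧ ¬ zA c y z ∧ ¬ zA c x z) ≤ 6 * k2 := by
  set T : V → Prop := fun c => Γ c x ∧ Γ c y ∧ Γ c z ∧ ¬ zA c x y ∧ ¬ zA c y z ∧ ¬ zA c x z with hT
  have N : ∀ c0, T c0 → cnt (fun c => T c ∧ (zX x c0 c ∨ zX y c0 c ∨ zX z c0 c)) ≤ 3 * k2 := by
    intro c0 h0
    have := cnt_le_add3 (p := fun c => T c ∧ (zX x c0 c ∨ zX y c0 c ∨ zX z c0 c))
      (q := fun c => Γ c x ∧ zX x c0 c) (r := fun c => Γ c y ∧ zX y c0 c)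
      (s := fun c => Γ c z ∧ zX z c0 c) (fun c hc => by
        obtain ⟨⟨h1, h2, h3, -⟩, h | h | h⟩ := hc
        · exact Or.inl ⟨h1, h⟩
        · exact Or.inr (Or.inl ⟨h2, h⟩)
        · exact Or.inr (Or.inr ⟨h3, h⟩))
    linarith [hk2 x c0 h0.1, hk2 y c0 h0.2.1, hk2 z c0 h0.2.2.1]
  by_cases h1 : ∃ c1, T c1
  · obtain ⟨c1, h1⟩ := h1
    by_cases h2 : ∃ c2, T c2 ∧ ¬ (zX x c1 c2 ∨ zX y c1 c2 ∨ zX z c1 c2)
    · obtain ⟨c2, h2, h2'⟩ := h2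
      have := cnt_le_add (p := T)
        (q := fun c => T c ∧ (zX x c1 c ∨ zX y c1 c ∨ zX z c1 c))
        (r := fun c => T c ∧ (zX x c2 c ∨ zX y c2 c ∨ zX z c2 c))
        (fun c hc => by
          by_contra hn
          simp only [not_or, not_and, hc, true_implies] at hn h2'
          obtain ⟨a1, a2, a3, a4, a5, a6⟩ := h1
          obtain ⟨b1, b2, b3, b4, b5, b6⟩ := h2
          obtain ⟨d1, d2, d3, d4, d5, d6⟩ := hc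
          exact hs c1 c2 c x y z a1 a2 a3 b1 b2 b3 d1 d2 d3 a4 a5 a6 b4 b5 b6 d4 d5 d6
            h2'.1 hn.2.1 hn.1.1 h2'.2.1 hn.2.2.1 hn.1.2.1 h2'.2.2 hn.2.2.2 hn.1.2.2)
      linarith [N c1 h1, N c2 h2]
    · have : cnt T ≤ cnt (fun c => T c ∧ (zX x c1 c ∨ zX y c1 c ∨ zX z c1 c)) :=
        cnt_mono fun c hc => ⟨hc, by by_contra hn; exact h2 ⟨c, hc, hn⟩⟩
      linarith [N c1 h1]
  · rw [cnt_zero (fun c hc => h1 ⟨c, hc⟩)]; linarith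

lemma cube (p : V → Prop) (r : V → V → Prop) :
    cnt p ^ 3 ≤ cnt (fun z : V × V × V => p z.1 ∧ p z.2.1 ∧ p z.2.2 ∧ ¬ r z.1 z.2.1 ∧
      ¬ r z.2.1 z.2.2 ∧ ¬ r z.1 z.2.2) +
      3 * (cnt (fun z : V × V => p z.1 ∧ p z.2 ∧ r z.1 z.2) * cnt p) := by
  have e : cnt p ^ 3 = cnt (fun z : V × V × V => p z.1 ∧ p z.2.1 ∧ p z.2.2) := by
    rw [cnt_mul p (fun z : V × V => p z.1 ∧ p z.2), ← cnt_sq]; ring
  have m := cnt_mul (fun z : V × V => p z.1 ∧ p z.2 ∧ r z.1 z.2) p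
  have b1 : cnt (fun z : V × V × V => (p z.1 ∧ p z.2.1 ∧ p z.2.2) ∧ r z.1 z.2.1) ≤ _ :=
    (cnt_inj (fun z => ((z.1, z.2.1), z.2.2)) (fun z hz => ⟨⟨hz.1.1, hz.1.2.1, hz.2⟩, hz.1.2.2⟩)
      (fun z w _ _ h => by
        simp only [Prod.mk.injEq] at h; exact Prod.ext h.1.1 (Prod.ext h.1.2 h.2))).trans m.le
  have b2 : cnt (fun z : V × V × V => (p z.1 ∧ p z.2.1 ∧ p z.2.2) ∧ r z.2.1 z.2.2) ≤ _ :=
    (cnt_inj (fun z => ((z.2.1, z.2.2), z.1)) (fun z hz => ⟨⟨hz.1.2.1, hz.1.2.2, hz.2⟩, hz.1.1⟩)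
      (fun z w _ _ h => by
        simp only [Prod.mk.injEq] at h; exact Prod.ext h.2 (Prod.ext h.1.1 h.1.2))).trans m.le
  have b3 : cnt (fun z : V × V × V => (p z.1 ∧ p z.2.1 ∧ p z.2.2) ∧ r z.1 z.2.2) ≤ _ :=
    (cnt_inj (fun z => ((z.1, z.2.2), z.2.1)) (fun z hz => ⟨⟨hz.1.1, hz.1.2.2, hz.2⟩, hz.1.2.1⟩)
      (fun z w _ _ h => by
        simp only [Prod.mk.injEq] at h; exact Prod.ext h.1.1 (Prod.ext h.2 h.1.2))).trans m.le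
  have s1 := cnt_le_add (p := fun z : V × V × V => p z.1 ∧ p z.2.1 ∧ p z.2.2)
    (q := fun z => p z.1 ∧ p z.2.1 ∧ p z.2.2 ∧ ¬ r z.1 z.2.1 ∧ ¬ r z.2.1 z.2.2 ∧ ¬ r z.1 z.2.2)
    (r := fun z => ((p z.1 ∧ p z.2.1 ∧ p z.2.2) ∧ r z.1 z.2.1) ∨
      ((p z.1 ∧ p z.2.1 ∧ p z.2.2) ∧ r z.2.1 z.2.2) ∨
      ((p z.1 ∧ p z.2.1 ∧ p z.2.2) ∧ r z.1 z.2.2)) (fun z hz => by tauto)
  have s2 := cnt_le_add3 (p := fun z : V × V × V =>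
      ((p z.1 ∧ p z.2.1 ∧ p z.2.2) ∧ r z.1 z.2.1) ∨
      ((p z.1 ∧ p z.2.1 ∧ p z.2.2) ∧ r z.2.1 z.2.2) ∨
      ((p z.1 ∧ p z.2.1 ∧ p z.2.2) ∧ r z.1 z.2.2)) (fun z hz => hz)
  linarith

/-- pairs of a set `Y` with a common neighbour -/
lemma pairs {Γ : V → V → Prop} {zA zX : V → V → V → Prop} (hs : K33 Γ zA zX) {k1 k2 D ze : ℝ}
    (hk2 : ∀ x c, Γ c x → cnt (fun a => Γ a x ∧ zX x c a) ≤ k2) (hk0 : 0 ≤ k2)
    (hD : ∀ x, cnt (fun a => Γ a x) ≤ D) (hze : 0 < ze) (hk1 : 0 < k1) (hk : k2 ≤ ze ^ 2 * D)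
    (Y : V → Prop) (hY : cnt Y ≤ k1) :
    ∑ c, cnt (fun x => Y x ∧ Γ c x) ^ 2 ≤
      6 * ∑ c, cnt (fun z : V × V => (Y z.1 ∧ Γ c z.1) ∧ (Y z.2 ∧ Γ c z.2) ∧
        zA c z.1 z.2) + 13 * ze * cnt Y * k1 * D := by
  set good : V → ℝ := fun c => cnt (fun z : V × V × V => (Y z.1 ∧ Γ c z.1) ∧
    (Y z.2.1 ∧ Γ c z.2.1) ∧ (Y z.2.2 ∧ Γ c z.2.2) ∧ ¬ zA c z.1 z.2.1 ∧
      ¬ zA c z.2.1 z.2.2 ∧ ¬ zA c z.1 z.2.2) with hgood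
  have zk : 0 < ze * k1 := mul_pos hze hk1
  have pt : ∀ c, cnt (fun x => Y x ∧ Γ c x) ^ 2 ≤
      6 * cnt (fun z : V × V => (Y z.1 ∧ Γ c z.1) ∧ (Y z.2 ∧ Γ c z.2) ∧ zA c z.1 z.2) +
      ze * k1 * cnt (fun x => Y x ∧ Γ c x) + 2 / (ze * k1) * good c := by
    intro c
    have h := cube (fun x => Y x ∧ Γ c x) (zA c)
    have g0 : 0 ≤ good c := cnt_nonneg _
    have d0 := cnt_nonneg (fun x => Y x ∧ Γ c x)
    have b0 := cnt_nonneg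
      (fun z : V × V => (Y z.1 ∧ Γ c z.1) ∧ (Y z.2 ∧ Γ c z.2) ∧ zA c z.1 z.2)
    change _ ≤ good c + _ at h
    set d := cnt (fun x => Y x ∧ Γ c x)
    set b := cnt (fun z : V × V => (Y z.1 ∧ Γ c z.1) ∧ (Y z.2 ∧ Γ c z.2) ∧ zA c z.1 z.2)
    have g1 : 0 ≤ 2 / (ze * k1) * good c := by positivity
    have g2 : 0 ≤ ze * k1 * d := by positivity
    by_cases c1 : d ^ 2 ≤ 6 * b
    · linarith
    · by_cases c2 : d ≤ ze * k1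
      · nlinarith
      · push Not at c1 c2
        have h3 : d ^ 3 ≤ 2 * good c := by nlinarith
        have h4 : d ^ 2 ≤ 2 / (ze * k1) * good c := by
          rw [div_mul_eq_mul_div, le_div_iff₀ zk]; nlinarith
        linarith
  have y0 := cnt_nonneg Y
  have s1 : ∑ c, cnt (fun x => Y x ∧ Γ c x) ≤ cnt Y * D := by
    rw [← cnt_prod' (fun z : V × V => Y z.1 ∧ Γ z.2 z.1)]
    exact cnt_pair_le (fun x c h => h.1) (fun x _ => (cnt_mono fun c hc => hc.2).trans (hD x))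
  have s2 : ∑ c, good c ≤ cnt Y ^ 3 * (6 * k2) := by
    have e : cnt Y ^ 3 = cnt (fun z : V × V × V => Y z.1 ∧ Y z.2.1 ∧ Y z.2.2) := by
      rw [cnt_mul Y (fun z : V × V => Y z.1 ∧ Y z.2), ← cnt_sq]; ring
    rw [e, hgood, ← cnt_prod' (fun w : (V × V × V) × V => (Y w.1.1 ∧ Γ w.2 w.1.1) ∧
      (Y w.1.2.1 ∧ Γ w.2 w.1.2.1) ∧ (Y w.1.2.2 ∧ Γ w.2 w.1.2.2) ∧ ¬ zA w.2 w.1.1 w.1.2.1 ∧
      ¬ zA w.2 w.1.2.1 w.1.2.2 ∧ ¬ zA w.2 w.1.1 w.1.2.2)]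
    exact cnt_pair_le (fun z c h => ⟨h.1.1, h.2.1.1, h.2.2.1.1⟩) (fun z _ =>
      (cnt_mono fun c hc => ⟨hc.1.2, hc.2.1.2, hc.2.2.1.2, hc.2.2.2⟩).trans
        (triple hs hk2 hk0 z.1 z.2.1 z.2.2))
  refine (Finset.sum_le_sum fun c _ => pt c).trans ?_
  simp only [Finset.sum_add_distrib, ← Finset.mul_sum]
  have D0 : 0 ≤ D := by nlinarith [sq_pos_of_pos hze]
  have t1 : ze * k1 * ∑ c, cnt (fun x => Y x ∧ Γ c x) ≤ ze * k1 * (cnt Y * D) :=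
    mul_le_mul_of_nonneg_left s1 zk.le
  have t2 : 2 / (ze * k1) * ∑ c, good c ≤ 12 * ze * cnt Y * k1 * D := by
    rw [div_mul_eq_mul_div, div_le_iff₀ zk]
    have : cnt Y ^ 3 ≤ cnt Y * k1 ^ 2 := by
      have : cnt Y ^ 2 ≤ k1 ^ 2 := pow_le_pow_left₀ y0 hY 2
      nlinarith
    have h5 : cnt Y ^ 3 * (6 * k2) ≤ cnt Y * k1 ^ 2 * (6 * (ze ^ 2 * D)) := by gcongr
    nlinarith
  linarith

/-- four-cycles with an equal key at the first vertex -/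
lemma key {K : Type} {Γ : V → V → Prop} {zA zX : V → V → V → Prop} (hs : K33 Γ zA zX)
    {k1 k2 D ze : ℝ} (κ : V → V → K) (hκ : ∀ a u, cnt (fun x => Γ a x ∧ κ a x = u) ≤ k1)
    (hk2 : ∀ x c, Γ c x → cnt (fun a => Γ a x ∧ zX x c a) ≤ k2) (hk0 : 0 ≤ k2)
    (hD : ∀ x, cnt (fun a => Γ a x) ≤ D) (hze : 0 < ze) (hk1 : 0 < k1) (hk : k2 ≤ ze ^ 2 * D) :
    Zc Γ (fun a x y => κ a x = κ a y) ≤ 13 * ze * k1 * D * ed Γ +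
      6 * cnt (fun q : (V × V) × (V × V) => C4 Γ q ∧ κ q.1.1 q.2.1 = κ q.1.1 q.2.2 ∧
        zA q.1.2 q.2.1 q.2.2) := by
  unfold Zc ed
  rw [cnt_prod (fun e : V × V => Γ e.1 e.2), Finset.mul_sum, cnt_prod, Fintype.sum_prod_type,
    cnt_prod (fun q : (V × V) × (V × V) => C4 Γ q ∧ κ q.1.1 q.2.1 = κ q.1.1 q.2.2 ∧
        zA q.1.2 q.2.1 q.2.2), Fintype.sum_prod_type, Finset.mul_sum, ← Finset.sum_add_distrib]
  refine Finset.sum_le_sum fun a _ => ?_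
  rw [cnt_fib (fun x => Γ a x) (κ a) (univ.image (κ a))
    (fun z _ => mem_image_of_mem _ (mem_univ _)), Finset.mul_sum]
  have e : ∀ c, cnt (fun z : V × V => C4 Γ ((a, c), z) ∧ κ a z.1 = κ a z.2) ≤
      ∑ u ∈ univ.image (κ a), cnt (fun x => (Γ a x ∧ κ a x = u) ∧ Γ c x) ^ 2 := by
    intro c
    rw [cnt_fib _ (fun z : V × V => κ a z.1) (univ.image (κ a))
        (fun z _ => mem_image_of_mem _ (mem_univ _))]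
    refine Finset.sum_le_sum fun u _ => ?_
    rw [cnt_sq]
    exact cnt_mono fun z hz => ⟨⟨⟨hz.1.1.1, hz.2⟩, hz.1.1.2.2.1⟩,
      ⟨hz.1.1.2.1, hz.1.2 ▸ hz.2⟩, hz.1.1.2.2.2⟩
  have e' : ∀ c, ∑ u ∈ univ.image (κ a), cnt (fun z : V × V => ((Γ a z.1 ∧ κ a z.1 = u) ∧ Γ c z.1) ∧
      ((Γ a z.2 ∧ κ a z.2 = u) ∧ Γ c z.2) ∧ zA c z.1 z.2) ≤
      cnt (fun z : V × V => C4 Γ ((a, c), z) ∧ κ a z.1 = κ a z.2 ∧ zA c z.1 z.2) := by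
    intro c
    rw [cnt_fib (fun z : V × V => C4 Γ ((a, c), z) ∧ κ a z.1 = κ a z.2 ∧ zA c z.1 z.2)
      (fun z : V × V => κ a z.1) (univ.image (κ a)) (fun z _ => mem_image_of_mem _ (mem_univ _))]
    exact Finset.sum_le_sum fun u _ => cnt_mono fun z hz =>
      ⟨⟨⟨hz.1.1.1, hz.2.1.1.1, hz.1.2, hz.2.1.2⟩, hz.1.1.2.trans hz.2.1.1.2.symm, hz.2.2⟩, hz.1.1.2⟩
  have e2 := Finset.sum_le_sum (s := univ) fun c _ => e' c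
  rw [Finset.sum_comm] at e2
  refine (Finset.sum_le_sum fun c _ => e c).trans ?_
  rw [Finset.sum_comm]
  refine (Finset.sum_le_sum fun u _ =>
    pairs hs hk2 hk0 hD hze hk1 hk (fun x => Γ a x ∧ κ a x = u) (hκ a u)).trans ?_
  rw [Finset.sum_add_distrib, ← Finset.mul_sum, add_comm]
  exact add_le_add (le_of_eq (Finset.sum_congr rfl fun u _ => by ring))
    (mul_le_mul_of_nonneg_left e2 (by norm_num))

lemma sq_le {K : Type} {Γ : V → V → Prop} (k1 k2 : V → V → K) {p : (V × V) × (V × V) → Prop}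
    (hp : ∀ q, p q → C4 Γ q ∧ (k1 q.1.1 q.2.1 = k1 q.1.1 q.2.2 ∨ k2 q.1.1 q.2.1 = k2 q.1.1 q.2.2) ∧
      (k1 q.1.2 q.2.1 = k1 q.1.2 q.2.2 ∨ k2 q.1.2 q.2.1 = k2 q.1.2 q.2.2)) :
    cnt p ≤ ∑ x, ∑ y, cc Γ k1 k2 x y ^ 2 := by
  rw [cnt_prod', Fintype.sum_prod_type]
  refine Finset.sum_le_sum fun x _ => Finset.sum_le_sum fun y _ => ?_
  unfold cc
  rw [cnt_sq]
  exact cnt_mono fun z hz => by
    obtain ⟨⟨g1, g2, g3, g4⟩, e1, e2⟩ := hp _ hz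
    exact ⟨⟨g1, g2, e1⟩, g3, g4, e2⟩

end SideAux

theorem side : SideS := by
  intro V K _ Γ zA zX k1 k2 k D ze hs hz h1 h2 hX hD hze hk0 hk
  have a1 := SideAux.key hs k1 h1 hX (by linarith) hD hze hk0 hk
  have a2 := SideAux.key hs k2 h2 hX (by linarith) hD hze hk0 hk
  have b1 := SideAux.sq_le (Γ := Γ) k1 k2 (p := fun q : (V × V) × (V × V) => C4 Γ q ∧
    k1 q.1.1 q.2.1 = k1 q.1.1 q.2.2 ∧ zA q.1.2 q.2.1 q.2.2)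
    fun q hq => ⟨hq.1, Or.inl hq.2.1, hz _ _ _ hq.1.2.2.1 hq.1.2.2.2 hq.2.2⟩
  have b2 := SideAux.sq_le (Γ := Γ) k1 k2 (p := fun q : (V × V) × (V × V) => C4 Γ q ∧
    k2 q.1.1 q.2.1 = k2 q.1.1 q.2.2 ∧ zA q.1.2 q.2.1 q.2.2)
    fun q hq => ⟨hq.1, Or.inr hq.2.1, hz _ _ _ hq.1.2.2.1 hq.1.2.2.2 hq.2.2⟩
  have c : Zc Γ zA ≤ Zc Γ (fun a x y => k1 a x = k1 a y) + Zc Γ (fun a x y => k2 a x = k2 a y) :=
    cnt_le_add fun q hq => (hz _ _ _ hq.1.1 hq.1.2.1 hq.2).imp (fun e => ⟨hq.1, e⟩)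
      fun e => ⟨hq.1, e⟩
  linarith

end Pool.Agent.Lib.MP_65c801_co.T
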