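import Pool.Agent.Lib.MP_65c801_co.T.St

/-! The sign of a graph of lenses. -/

namespace Pool.Agent.Lib.MP_65c801_co.T

open Finset Classical

namespace Sign

variable {V α : Type} [LinearOrder α] {h : V → ℕ → α} {Γ : V → V → Prop} {lab : V → V → ℕ} {S : ℕ}

/-- the sign at a lower curve -/
noncomputable def sn (h : V → ℕ → α) (S : ℕ) (lab : V → V → ℕ) (a x y : V) : ℝ :=
  if lab a x = lab a y then
    (if Anti h S (lab a x) x y then 1 else if Anti h S (lab a x) y x then -1 else 0)
  else sg (lab a x) (lab a y)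

lemma sg_anti (p q : ℕ) : sg p q = -sg q p := by
  unfold sg
  split_ifs <;> first | norm_num; done | omega

lemma sn_anti (a x y : V) : sn h S lab a x y = -sn h S lab a y x := by
  unfold sn
  by_cases e : lab a x = lab a y
  · rw [if_pos e, if_pos e.symm, ← e]
    by_cases c1 : Anti h S (lab a x) x y <;> by_cases c2 : Anti h S (lab a x) y x <;> simp [c1, c2]
    exact absurd c1.1 (lt_asymm c2.1)
  · rw [if_neg e, if_neg (Ne.symm e), sg_anti]

lemma lt_ends {w : ℕ} {x y : V} (c : Anti h S w x y) : w * S < w * S + (S - 1) :=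
  lt_of_le_of_ne (Nat.le_add_right _ _) fun e => lt_asymm c.1 (by rw [e]; exact e ▸ c.2)

lemma one (hn : NoAlt h) (hi : Inj h) (hS : 0 < S) (hl : ∀ a b, Γ a b → Lens h S (lab a b) a b)
    {b x y : V} {w : ℕ} (g3 : Γ b x) (g4 : Γ b y) (c : Anti h S w x y)
    (n : sn h S lab b x y ≠ 0) (n1 : w ≠ lab b x) (n2 : w ≠ lab b y) :
    sn h S lab b x y * (sg w (lab b x) * sg w (lab b y)) = -1 := by
  have le := lt_ends c
  have d0 : w * S / S = w := Nat.mul_div_cancel _ hS
  have d1 : ∀ w, (w * S + (S - 1)) / S = w := fun w =>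
    Nat.div_eq_of_lt_le (Nat.le_add_right _ _) (by rw [add_mul]; omega)
  have lt : ∀ p q : ℕ, p / S < q / S → p < q := fun p q => Nat.lt_of_div_lt_div
  unfold sn at n ⊢
  by_cases e : lab b x = lab b y
  · rw [if_pos e] at n ⊢
    rw [← e]
    by_cases c1 : Anti h S (lab b x) x y
    · exfalso
      have le' := lt_ends c1
      have d2 : lab b x * S / S = lab b x := Nat.mul_div_cancel _ hS
      rcases lt_or_gt_of_ne n1 with k | k
      · exact hn x y _ _ _ _ le (lt _ _ (by rw [d1, d2]; exact k)) le' c.1 c.2 c1.1 c1.2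
      · exact hn x y _ _ _ _ le' (lt _ _ (by rw [d1, d0]; exact k)) le c1.1 c1.2 c.1 c.2
    · rw [if_neg c1] at n ⊢
      split_ifs at n ⊢
      · unfold sg
        split_ifs <;> first | norm_num; done | omega
      · exact absurd rfl n
  · rw [if_neg e]
    obtain ⟨-, -, s1, e1, k1⟩ := hl b x g3
    obtain ⟨-, -, s2, e2, k2⟩ := hl b y g4
    have o1 : h x s1 < h y s1 := k1.trans ((hl b y g4).out hn hi hS (by rw [e1]; exact e))
    have o2 : h y s2 < h x s2 := k2.trans ((hl b x g3).out hn hi hS (by rw [e2]; exact Ne.symm e))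
    have f1 : ¬ (w < lab b x ∧ lab b x < lab b y) := fun ⟨p, q⟩ =>
      hn x y _ _ _ _ le (lt _ _ (by rw [d1, e1]; exact p)) (lt _ _ (by rw [e1, e2]; exact q))
        c.1 c.2 o1 o2
    have f2 : ¬ (lab b y < w ∧ w < lab b x) := fun ⟨p, q⟩ =>
      hn y x _ _ _ _ (lt _ _ (by rw [d0, e2]; exact p)) le (lt _ _ (by rw [d1, e1]; exact q))
        o2 c.1 c.2 o1
    have f3 : ¬ (lab b x < lab b y ∧ lab b y < w) := fun ⟨p, q⟩ =>
      hn x y _ _ _ _ (lt _ _ (by rw [e1, e2]; exact p)) (lt _ _ (by rw [d0, e2]; exact q)) le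
        o1 o2 c.1 c.2
    unfold sg
    split_ifs <;> first | norm_num; done | (exfalso; omega)

lemma two (hn : NoAlt h) (hi : Inj h) (hS : 0 < S) (hl : ∀ a b, Γ a b → Lens h S (lab a b) a b)
    {a b x y : V} (g3 : Γ b x) (g4 : Γ b y) (e : lab a x = lab a y) (m : sn h S lab a x y ≠ 0)
    (n : sn h S lab b x y ≠ 0) (n1 : lab a x ≠ lab b x) (n2 : lab a y ≠ lab b y) :
    sn h S lab a x y * sn h S lab b x y *
      (sg (lab a x) (lab b x) * sg (lab a y) (lab b y)) = -1 := by
  rw [← e] at n2 ⊢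
  rw [sn, if_pos e] at m
  rw [sn, if_pos e]
  split_ifs at m ⊢ with c1 c2
  · rw [one_mul]; exact one hn hi hS hl g3 g4 c1 n n1 n2
  · have := one hn hi hS hl g4 g3 c2 (by rw [sn_anti]; exact neg_ne_zero.2 n) n2 n1
    rw [sn_anti] at this
    linear_combination this
  · exact absurd rfl m

end Sign

theorem sign : SignS := by
  intro V α _ _ h Γ lab S hn hi hS hl
  refine ⟨Sign.sn h S lab, ⟨fun a x y => ?_, fun a b x y g1 g2 g3 g4 m n n1 n2 => ?_⟩,
    fun a x y e => ?_⟩
  · unfold Sign.sn sg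
    split_ifs <;> simp
  · by_cases e1 : lab a x = lab a y
    · exact Sign.two hn hi hS hl g3 g4 e1 m n n1 n2
    by_cases e2 : lab b x = lab b y
    · have := Sign.two hn hi hS hl g1 g2 e2 n m n1.symm n2.symm
      rw [Sign.sg_anti (lab b x), Sign.sg_anti (lab b y)] at this
      linear_combination this
    have := lens_sign hn hi hS hl a b x y g1 g2 g3 g4 e1 e2 n1 n2
    rw [Sign.sn, Sign.sn, if_neg e1, if_neg e2]
    unfold sg
    split_ifs <;> first | norm_num; done | (exfalso; omega)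
  · unfold Sign.sn sg at e
    split_ifs at e with c1 c2 c3 c4 c5 <;> first | exact ⟨c1, c2, c3⟩ | omega | norm_num at e

end Pool.Agent.Lib.MP_65c801_co.T
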