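import Pool.Agent.Lib.MP_65c801_co.T.St

/-! Doubly degenerate four-cycles: a function dominated by incidences of weighted groups. -/

namespace Pool.Agent.Lib.MP_65c801_co.T

open Finset Classical

namespace StemAux

/-- the arithmetic of the three cases -/
lemma arith {L D σ P k Y ν S c u m e g : ℝ} (L1 : 1 ≤ L) (P1 : 1 ≤ P) (σ0 : 0 ≤ σ)
    (hk : σ * P ≤ k) (Y0 : 0 ≤ Y) (hY : 55296 * L ^ 5 * D ^ 3 * σ ^ 2 * k ^ 2 ≤ Y ^ 2)
    (ν0 : 0 < ν) (Sσ : S ≤ σ * ν) (c0 : 0 < c) (cD : c ≤ D) (u0 : 0 < u)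
    (cu : c * u ≤ 2 * D * k) (m0 : 0 < m) (mS : m ≤ S) (g0 : 0 ≤ g)
    (gm : g * m ≤ D * S) (h : ν * c * u ≤ 2 * L * m * e)
    (hc : e ≤ 2 * g ∨ e ^ 2 ≤ 4 * (216 * L ^ 2) * u ^ 2 * g ∨
      e ^ 3 ≤ 16 * (216 * L ^ 2) * g ^ 2 * u ^ 2 * P) :
    c ^ 2 * u ≤ 4 * L * D ^ 2 * σ + Y := by
  have D0 : 0 ≤ D := by linarith
  have L0 : 0 ≤ L := by linarith
  have k0 : 0 ≤ k := le_trans (by positivity) hk
  have gs : g * m ≤ D * (σ * ν) := gm.trans (by gcongr)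
  have ms : m ≤ σ * ν := mS.trans Sσ
  have t0 : 0 ≤ 4 * L * D ^ 2 * σ := by positivity
  have fin : (c ^ 2 * u) ^ 2 ≤ 55296 * L ^ 5 * D ^ 3 * σ ^ 2 * k ^ 2 →
      c ^ 2 * u ≤ 4 * L * D ^ 2 * σ + Y := fun h1 => by
    have h2 : c ^ 2 * u ≤ Y := (abs_le_of_sq_le_sq' (h1.trans hY) Y0).2
    linarith
  rcases hc with hc | hc | hc
  · have h1 : ν * (c * u) ≤ ν * (4 * L * D * σ) := by
      calc ν * (c * u) = ν * c * u := by ring
        _ ≤ 2 * L * m * e := h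
        _ ≤ 2 * L * m * (2 * g) := by gcongr
        _ = 4 * L * (g * m) := by ring
        _ ≤ 4 * L * (D * (σ * ν)) := by gcongr
        _ = _ := by ring
    have h2 : c * u ≤ 4 * L * D * σ := le_of_mul_le_mul_left h1 ν0
    have h3 : c ^ 2 * u ≤ 4 * L * D ^ 2 * σ := by
      calc c ^ 2 * u = c * (c * u) := by ring
        _ ≤ D * (4 * L * D * σ) := by gcongr
        _ = _ := by ring
    linarith
  · have h1 : (ν * u) ^ 2 * c ^ 2 ≤ (ν * u) ^ 2 * (3456 * L ^ 4 * D * σ ^ 2) := by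
      calc (ν * u) ^ 2 * c ^ 2 = (ν * c * u) ^ 2 := by ring
        _ ≤ (2 * L * m * e) ^ 2 := by gcongr
        _ = 4 * L ^ 2 * m ^ 2 * e ^ 2 := by ring
        _ ≤ 4 * L ^ 2 * m ^ 2 * (4 * (216 * L ^ 2) * u ^ 2 * g) := by gcongr
        _ = 3456 * L ^ 4 * u ^ 2 * (m * (g * m)) := by ring
        _ ≤ 3456 * L ^ 4 * u ^ 2 * (σ * ν * (D * (σ * ν))) := by gcongr
        _ = _ := by ring
    have h2 : c ^ 2 ≤ 3456 * L ^ 4 * D * σ ^ 2 := le_of_mul_le_mul_left h1 (by positivity)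
    refine fin ?_
    calc (c ^ 2 * u) ^ 2 = c ^ 2 * (c * u) ^ 2 := by ring
      _ ≤ 3456 * L ^ 4 * D * σ ^ 2 * (2 * D * k) ^ 2 := by gcongr
      _ = 13824 * 1 * (L ^ 4 * D ^ 3 * σ ^ 2 * k ^ 2) := by ring
      _ ≤ 55296 * L * (L ^ 4 * D ^ 3 * σ ^ 2 * k ^ 2) := by gcongr; norm_num
      _ = _ := by ring
  · have h1 : (ν ^ 3 * u ^ 2) * (c ^ 3 * u) ≤
        (ν ^ 3 * u ^ 2) * (27648 * L ^ 5 * D ^ 2 * σ ^ 3 * P) := by
      calc (ν ^ 3 * u ^ 2) * (c ^ 3 * u) = (ν * c * u) ^ 3 := by ring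
        _ ≤ (2 * L * m * e) ^ 3 := by gcongr
        _ = 8 * L ^ 3 * m ^ 3 * e ^ 3 := by ring
        _ ≤ 8 * L ^ 3 * m ^ 3 * (16 * (216 * L ^ 2) * g ^ 2 * u ^ 2 * P) := by gcongr
        _ = 27648 * L ^ 5 * u ^ 2 * P * (m * (g * m) ^ 2) := by ring
        _ ≤ 27648 * L ^ 5 * u ^ 2 * P * (σ * ν * (D * (σ * ν)) ^ 2) := by gcongr
        _ = _ := by ring
    have h2 : c ^ 3 * u ≤ 27648 * L ^ 5 * D ^ 2 * σ ^ 3 * P :=
      le_of_mul_le_mul_left h1 (by positivity)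
    refine fin ?_
    calc (c ^ 2 * u) ^ 2 = (c ^ 3 * u) * (c * u) := by ring
      _ ≤ 27648 * L ^ 5 * D ^ 2 * σ ^ 3 * P * (2 * D * k) := by gcongr
      _ = 55296 * L ^ 5 * D ^ 3 * σ ^ 2 * k * (σ * P) := by ring
      _ ≤ 55296 * L ^ 5 * D ^ 3 * σ ^ 2 * k * k := by gcongr
      _ = _ := by ring

end StemAux

theorem stem (inc : IncS) : StemS := by
  intro V _ c x L D σ P k Y L1 hc c1 cD cL cs P1 σ0 hk Y0 hY
    ⟨K, H, κ, st, gr, ν, S, ok, ν0, _, Sσ, hst, hgr, dom⟩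
  have c0 : ∀ y, 0 ≤ c y := fun y => (c1 y).elim (fun e => e.ge) fun e => by linarith
  have L1' : (1:ℝ) ≤ L := by exact_mod_cast L1
  have D0 : 0 ≤ D := (c0 x).trans (cD x)
  set B := 4 * (L:ℝ) * D ^ 2 * σ + Y with hB
  have B0 : 0 ≤ B := by positivity
  set U : ℕ → V → Prop := fun j y => y ≠ x ∧ (2:ℝ) ^ j ≤ c y ∧ c y < 2 * 2 ^ j with hU
  have cls : ∀ j, ((2:ℝ) ^ j) ^ 2 * cnt (U j) ≤ B := by
    intro j
    rcases cnt_zero_or (U j) with e | e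
    · rw [e, mul_zero]; exact B0
    obtain ⟨y0, hy0⟩ := exists_of_cnt_pos (lt_of_lt_of_le one_pos e)
    set N : V × V × V × V → Prop := fun z =>
      U j z.1 ∧ st z.2 ∧ H (gr z.2).1 z.1 ∧ κ (gr z.2).1 z.1 = (gr z.2).2 with hN
    set m : V × K → ℝ := fun γ => cnt (fun p => st p ∧ gr p = γ) with hm
    have n1 : cnt (U j) * (ν * 2 ^ j) ≤ cnt N := cnt_pair_ge fun y hy =>
      (le_trans (by gcongr; exact hy.2.1) (dom y hy.1)).trans (cnt_mono fun p hp => ⟨hy, hp⟩)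
    obtain ⟨i, -, n2⟩ := pigeon N L L1 (fun i z => (2:ℝ) ^ i ≤ m (gr z.2) ∧ m (gr z.2) < 2 * 2 ^ i)
      fun z hz => dyadic _ L (one_le_cnt (x := z.2) ⟨hz.2.1, rfl⟩) (lt3 hc _)
    set G : Finset (V × K) := ((univ.filter st).image gr).filter
      fun γ => (2:ℝ) ^ i ≤ m γ ∧ m γ < 2 * 2 ^ i with hG
    have pos : 0 < cnt (fun z => N z ∧ (2:ℝ) ^ i ≤ m (gr z.2) ∧ m (gr z.2) < 2 * 2 ^ i) := by
      have : 0 < cnt (U j) * (ν * 2 ^ j) := by positivity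
      exact (pos_iff_pos_of_mul_pos ((this.trans_le n1).trans_le n2)).1 (by positivity)
    obtain ⟨z0, hz0⟩ := exists_of_cnt_pos pos
    have mS : (2:ℝ) ^ i ≤ S := hz0.2.1.trans (hgr _)
    have gm : (G.card:ℝ) * 2 ^ i ≤ D * S := by
      refine le_trans ?_ ((cnt_mono (p := fun p => st p ∧ gr p ∈ G) fun p hp => hp.1).trans hst)
      rw [cnt_fib (fun p => st p ∧ gr p ∈ G) gr G fun p hp => hp.2]
      calc (G.card:ℝ) * 2 ^ i = ∑ _γ ∈ G, (2:ℝ) ^ i := by simp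
        _ ≤ _ := Finset.sum_le_sum fun γ hγ => (mem_filter.1 hγ).2.1.trans
          (cnt_mono fun p hp => ⟨⟨hp.1, hp.2 ▸ hγ⟩, hp.2⟩)
    have n3 : cnt (fun z => N z ∧ (2:ℝ) ^ i ≤ m (gr z.2) ∧ m (gr z.2) < 2 * 2 ^ i) ≤
        ed (fun a y => H a y ∧ (a, κ a y) ∈ G ∧ U j y) * (2 * 2 ^ i) := by
      refine cnt_fib_le' (fun z : V × V × V × V => ((gr z.2).1, z.1)) (fun z hz => ?_)
        fun e he => ?_
      · refine ⟨hz.1.2.2.1, ?_, hz.1.1⟩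
        show ((gr z.2).1, κ (gr z.2).1 z.1) ∈ G
        rw [hz.1.2.2.2]
        exact mem_filter.2 ⟨mem_image_of_mem _ (mem_filter.2 ⟨mem_univ _, hz.1.2.1⟩), hz.2⟩
      · refine le_trans (cnt_inj (fun z : V × V × V × V => z.2) ?_ ?_) (mem_filter.1 he.2.1).2.2.le
        · rintro z ⟨hz, rfl⟩
          exact ⟨hz.1.2.1, Prod.ext rfl hz.1.2.2.2.symm⟩
        · rintro z w ⟨-, rfl⟩ ⟨-, h2⟩ h3
          exact Prod.ext (congrArg Prod.snd h2).symm h3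
    have cu : (2:ℝ) ^ j * cnt (U j) ≤ 2 * D * k := by
      rw [mul_comm]
      exact (cnt_mul_le_sum c (fun y hy => hy.2.1) c0).trans cs
    refine StemAux.arith L1' P1 σ0 hk Y0 hY ν0 Sσ (by positivity) (hy0.2.1.trans (cD y0))
      (by linarith) cu (by positivity) mS (Nat.cast_nonneg _) gm ?_
      (inc V K H κ _ P ok (by positivity) P1 G (U j) _ rfl)
    calc ν * 2 ^ j * cnt (U j) = cnt (U j) * (ν * 2 ^ j) := by ring
      _ ≤ L * (ed (fun a y => H a y ∧ (a, κ a y) ∈ G ∧ U j y) * (2 * 2 ^ i)) :=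
        (n1.trans n2).trans (by gcongr)
      _ = _ := by ring
  calc ∑ y, (if y = x then 0 else c y ^ 2)
      ≤ ∑ y, ∑ j ∈ range L, (if U j y then (1:ℝ) else 0) * (4 * ((2:ℝ) ^ j) ^ 2) := by
        refine Finset.sum_le_sum fun y _ => ?_
        have nn : ∀ j ∈ range L, 0 ≤ (if U j y then (1:ℝ) else 0) * (4 * ((2:ℝ) ^ j) ^ 2) :=
          fun j _ => by split_ifs <;> positivity
        split_ifs with e
        · exact Finset.sum_nonneg nn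
        rcases c1 y with e1 | e1
        · exact le_trans (by rw [e1]; norm_num) (Finset.sum_nonneg nn)
        obtain ⟨j, hj, h1, h2⟩ := dyadic _ L e1 (cL y)
        refine le_trans ?_ (Finset.single_le_sum nn (mem_range.2 hj))
        rw [if_pos ⟨e, h1, h2⟩]
        nlinarith [c0 y]
    _ = ∑ j ∈ range L, 4 * (((2:ℝ) ^ j) ^ 2 * cnt (U j)) := by
        rw [Finset.sum_comm]
        refine Finset.sum_congr rfl fun j _ => ?_
        have : cnt (U j) = ∑ y, if U j y then (1:ℝ) else 0 := by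
          rw [cnt_eq_sum]; exact Finset.sum_congr rfl fun y _ => by congr
        rw [← Finset.sum_mul, this]; ring
    _ ≤ ∑ _j ∈ range L, 4 * B := Finset.sum_le_sum fun j _ => by linarith [cls j]
    _ = _ := by simp only [sum_const, card_range, nsmul_eq_mul]; ring

end Pool.Agent.Lib.MP_65c801_co.T
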