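import Pool.Agent.Lib.MP_65c801_co.T.St

/-! The staircase of rows and columns. -/

namespace Pool.Agent.Lib.MP_65c801_co.T

open Finset Classical

namespace Tb

variable {V α : Type} [Fintype V] [LinearOrder α]

lemma lev (E : V → V → Prop) (T : V → V → ℕ) (L : ℕ) {P lam : ℝ} (lam0 : 0 ≤ lam)
    (hP : ∀ a y, E a y → gs E T 1 a y < P) : ∃ B : V × V → Prop, cnt B * lam ≤ L * (2 * ed E) ∧
    ∀ e, E e.1 e.2 → ¬ B e → P ≤ gs E T (2 ^ L) e.1 e.2 → ∃ l < L,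
      P ≤ gs E T (2 ^ (l + 1)) e.1 e.2 ∧ gs E T (2 ^ (l + 1)) e.1 e.2 ≤ lam * P := by
  refine ⟨fun e => E e.1 e.2 ∧ ∃ i < L, lam * gs E T (2 ^ i) e.1 e.2 < gs E T (2 ^ i * 2) e.1 e.2,
    ?_, fun e he hB hL => ?_⟩
  · refine (mul_le_mul_of_nonneg_right (cnt_cover _ L (fun i e =>
      lam * gs E T (2 ^ i) e.1 e.2 < gs E T (2 ^ i * 2) e.1 e.2) fun e he => he.2) lam0).trans ?_
    rw [sum_mul]
    refine (sum_le_card_nsmul _ _ (2 * ed E) fun i _ => ?_).trans (by simp)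
    have := growth E T (2 ^ i) two_pos lam0
    push_cast at this
    exact (mul_le_mul_of_nonneg_right (cnt_mono fun e he => ⟨he.1.1, he.2⟩) lam0).trans this
  · have ex : ∃ i, P ≤ gs E T (2 ^ i) e.1 e.2 := ⟨L, hL⟩
    have h1 := Nat.find_spec ex
    have h2 := Nat.find_min' ex hL
    have h3 := fun i => @Nat.find_min _ _ ex i
    generalize Nat.find ex = k at *
    cases k with
    | zero => exact absurd (hP _ _ he) (not_lt.2 h1)
    | succ l =>
      refine ⟨l, h2, h1, ?_⟩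
      have h4 := not_lt.1 fun c => hB ⟨he, l, h2, c⟩
      exact h4.trans (mul_le_mul_of_nonneg_left (not_le.1 (h3 l (Nat.lt_succ_self l))).le lam0)

/-- the position of a curve in a window -/
noncomputable def ps (h : V → ℕ → α) (σ : ℕ → ℕ) (L : ℕ) (y : V) (w : ℕ) : ℕ :=
  w * 2 ^ L + rkN h (σ w) y

variable {h : V → ℕ → α} {σ : ℕ → ℕ} {L : ℕ}

lemma ps_div (hc : (Fintype.card V : ℝ) ^ 3 < 2 ^ L) (y : V) (w : ℕ) :
    ps h σ L y w / 2 ^ L = w := by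
  have h1 : (rkN h (σ w) y : ℝ) < 2 ^ L := rk_eq (h := h) (σ w) y ▸ lt1 hc _
  have h2 : rkN h (σ w) y < 2 ^ L := by exact_mod_cast h1
  rw [ps, add_comm, Nat.add_mul_div_right _ _ (by positivity), Nat.div_eq_of_lt h2, zero_add]

lemma ps_win (hc : (Fintype.card V : ℝ) ^ 3 < 2 ^ L) {l : ℕ} (hl : l < L) {y z : V} {w w' : ℕ}
    (e : ps h σ L y w / 2 ^ (l + 1) ≤ ps h σ L z w' / 2 ^ (l + 1)) : w ≤ w' := by
  obtain ⟨k, rfl⟩ := Nat.exists_eq_add_of_le (Nat.succ_le_of_lt hl)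
  have := Nat.div_le_div_right (c := 2 ^ k) e
  rwa [Nat.div_div_eq_div_mul, Nat.div_div_eq_div_mul, ← pow_add, ps_div hc, ps_div hc] at this

lemma ps_lt {k : ℕ} {y z : V} {w : ℕ} (e : ps h σ L y w / k < ps h σ L z w / k) :
    h y (σ w) < h z (σ w) := by
  have h1 := Nat.lt_of_div_lt_div e
  refine lt_of_rk ?_
  rw [rk_eq, rk_eq]
  exact_mod_cast Nat.lt_of_add_lt_add_left h1

lemma ps_one (hi : Inj h) (hc : (Fintype.card V : ℝ) ^ 3 < 2 ^ L) (E : V → V → Prop)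
    (w : V → V → ℕ) (a y : V) : gs E (fun a y => ps h σ L y (w a y)) 1 a y ≤ 1 := by
  have key : ∀ x, ps h σ L x (w a x) / 1 = ps h σ L y (w a y) / 1 → x = y := fun x e => by
    simp only [Nat.div_one] at e
    have e1 : w a x = w a y := by rw [← ps_div (h := h) (σ := σ) hc x (w a x), e, ps_div hc]
    rw [e1] at e
    exact rkN_inj hi (Nat.add_left_cancel e)
  exact cnt_le_one fun x z hx hz => (key x hx.2).trans (key z hz.2).symm

lemma between {O : Finset ℕ} {p q : ℕ} (hp : p ∈ O) (hpq : p < q)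
    (e : #(O.filter (· < p)) % 2 = #(O.filter (· < q)) % 2) : ∃ v ∈ O, p < v ∧ v < q := by
  by_contra hc
  push Not at hc
  have : O.filter (· < q) = insert p (O.filter (· < p)) := by
    ext v
    simp only [mem_filter, mem_insert]
    constructor
    · rintro ⟨h1, h2⟩
      have := hc v h1
      by_cases c : v = p
      · exact Or.inl c
      · exact Or.inr ⟨h1, by omega⟩
    · rintro (rfl | ⟨h1, h2⟩)
      · exact ⟨hp, hpq⟩
      · exact ⟨h1, by omega⟩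
  rw [this, card_insert_of_notMem (by simp)] at e
  omega

lemma cells {H : V → V → Prop} {w r c : V → V → ℕ}
    (hr : ∀ a y z, r a y = r a z → w a y = w a z) (hc : ∀ a y z, c a y = c a z → w a y = w a z)
    (st : ∀ a y z, H a y → H a z → w a y = w a z → r a y < r a z → c a z ≤ c a y) :
    #((univ.filter fun e : V × V => H e.1 e.2).image
      fun e => (e.1, w e.1 e.2, r e.1 e.2, c e.1 e.2)) ≤
    #((univ.filter fun e : V × V => H e.1 e.2).image fun e => (e.1, r e.1 e.2)) +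
    #((univ.filter fun e : V × V => H e.1 e.2).image fun e => (e.1, c e.1 e.2)) := by
  set Mn : V × ℕ × ℕ × ℕ → Prop := fun g => ∀ y, H g.1 y → r g.1 y = g.2.2.1 → g.2.2.2 ≤ c g.1 y
  rw [← card_filter_add_card_filter_not Mn]
  refine add_le_add (card_le_card_of_injOn (fun g => (g.1, g.2.2.1)) ?_ ?_)
    (card_le_card_of_injOn (fun g => (g.1, g.2.2.2)) ?_ ?_)
  · intro g hg
    obtain ⟨e, he, rfl⟩ := mem_image.1 (mem_filter.1 hg).1
    exact mem_image_of_mem _ he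
  · intro g hg g' hg' e
    obtain ⟨h1, h2⟩ := mem_filter.1 hg
    obtain ⟨h3, h4⟩ := mem_filter.1 hg'
    obtain ⟨⟨a, y⟩, he, rfl⟩ := mem_image.1 h1
    obtain ⟨⟨b, z⟩, he', rfl⟩ := mem_image.1 h3
    simp only [Prod.mk.injEq] at e ⊢
    obtain ⟨rfl, e⟩ := e
    exact ⟨rfl, hr _ _ _ e, e, le_antisymm (h2 z (mem_filter.1 he').2 e.symm)
      (h4 y (mem_filter.1 he).2 e)⟩
  · intro g hg
    obtain ⟨e, he, rfl⟩ := mem_image.1 (mem_filter.1 hg).1
    exact mem_image_of_mem _ he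
  · intro g hg g' hg' e
    obtain ⟨h1, h2⟩ := mem_filter.1 hg
    obtain ⟨h3, h4⟩ := mem_filter.1 hg'
    obtain ⟨⟨a, y⟩, he, rfl⟩ := mem_image.1 h1
    obtain ⟨⟨b, z⟩, he', rfl⟩ := mem_image.1 h3
    simp only [Prod.mk.injEq] at e ⊢
    obtain ⟨rfl, e⟩ := e
    have e1 := hc _ _ _ e
    simp only [Mn, not_forall, not_le] at h2 h4
    obtain ⟨y', a1, a2, a3⟩ := h2
    obtain ⟨z', b1, b2, b3⟩ := h4
    refine ⟨rfl, e1, ?_, e⟩
    rcases lt_trichotomy (r a y) (r a z) with k | k | k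
    · have := st a y' z a1 (mem_filter.1 he').2 ((hr _ _ _ a2).trans e1) (a2 ▸ k)
      omega
    · exact k
    · have := st a z' y b1 (mem_filter.1 he).2 ((hr _ _ _ b2).trans e1.symm) (b2 ▸ k)
      omega

lemma occ {E H : V → V → Prop} {T : V → V → ℕ} {k : ℕ} {P : ℝ}
    (hP : ∀ a y, H a y → P ≤ gs E T k a y) :
    #((univ.filter fun e : V × V => H e.1 e.2).image fun e => (e.1, T e.1 e.2 / k)) * P ≤ ed E := by
  refine cnt_fib_ge' (fun e : V × V => (e.1, T e.1 e.2 / k)) _ fun g hg => ?_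
  obtain ⟨⟨a, y⟩, he, rfl⟩ := mem_image.1 hg
  refine (hP a y (mem_filter.1 he).2).trans (cnt_inj (fun z => (a, z)) (fun z hz => ?_)
    fun _ _ _ _ e => (Prod.mk.inj e).2)
  exact ⟨hz.1, by rw [hz.2]⟩

lemma grp {E H : V → V → Prop} {T : V → V → ℕ} {k : ℕ} {P : ℝ} (P0 : 0 ≤ P)
    (hE : ∀ a y, H a y → E a y) (hP : ∀ a y, H a y → gs E T k a y ≤ P) (a : V) (p : V → Prop)
    (hp : ∀ y z, p y → p z → T a y / k = T a z / k) : cnt (fun y => H a y ∧ p y) ≤ P := by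
  by_cases c : ∃ y, H a y ∧ p y
  · obtain ⟨y, h1, h2⟩ := c
    exact (cnt_mono fun z hz => ⟨hE _ _ hz.1, hp _ _ hz.2 h2⟩).trans (hP a y h1)
  · rwa [cnt_zero fun y hy => c ⟨y, hy⟩]

end Tb

open Tb in
theorem tube : TubeS := by
  intro V α _ _ h E t S' R L θ m d c s hm few
  obtain ⟨L0, θ0, L1, θ1⟩ := c.num
  have θ1' : (1:ℝ) ≤ θ := by exact_mod_cast θ1
  have Lr : (1:ℝ) ≤ L := by linarith
  have S0 : 0 < S' * R := Nat.mul_pos s.S0 s.R0
  obtain ⟨G, G1, G2⟩ : ∃ G : Finset (V × ℕ), G.card * ((L:ℝ) ^ 6 * θ) ≤ m ∧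
      ∀ a y, E a y → (a, t a y / (S' * R)) ∈ G := by
    obtain ⟨G, G1, G2⟩ := s.g1
    refine ⟨G.image fun g => (g.1, g.2 / R), le_trans ?_ G1, fun a y g =>
      mem_image.2 ⟨_, G2 a y g, by rw [Nat.div_div_eq_div_mul]⟩⟩
    exact mul_le_mul_of_nonneg_right (Nat.cast_le.2 card_image_le) (by positivity)
  have em := s.em
  generalize S' * R = S at *
  obtain ⟨P, hP⟩ : ∃ P, P = (L:ℝ) ^ 3 * θ := ⟨_, rfl⟩
  have P1 : 2 * ((L:ℝ) ^ 2 * θ) < P := by
    have : 0 < (L:ℝ) ^ 2 * θ := by positivity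
    have : P = L * ((L:ℝ) ^ 2 * θ) := by rw [hP]; ring
    nlinarith
  have P2 : 1 < P := by nlinarith [one_le_mul_of_one_le_of_one_le (one_le_pow₀ (n := 2) Lr) θ1']
  have P3 : (L:ℝ) ^ 2 * P ≤ L ^ 18 * θ := by
    calc _ = (L:ℝ) ^ 5 * θ := by rw [hP]; ring
      _ ≤ _ := by gcongr; norm_num
  set T0 : V → V → ℕ := fun a y => ps h (fun w => w * S) L y (t a y / S) with hT0
  set T1 : V → V → ℕ := fun a y => ps h (fun w => w * S + (S - 1)) L y (t a y / S) with hT1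
  obtain ⟨B0, b0, k0⟩ := lev E T0 L (sq_nonneg (L:ℝ)) fun a y _ =>
    (ps_one c.inj c.cb E _ a y).trans_lt P2
  obtain ⟨B1, b1, k1⟩ := lev E T1 L (sq_nonneg (L:ℝ)) fun a y _ =>
    (ps_one c.inj c.cb E _ a y).trans_lt P2
  have small : cnt (fun e : V × V => E e.1 e.2 ∧ gs E t S e.1 e.2 < P) ≤ G.card * P := by
    refine cnt_fib_le (fun e => (e.1, t e.1 e.2 / S)) G (fun e he => G2 _ _ he.1) ?_
    rintro ⟨a, w⟩ -
    refine le_trans (cnt_inj (fun e => e.2) ?_ ?_) (grp (E := E) (T := t) (k := S)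
      (H := fun a y => E a y ∧ gs E t S a y < P) (by linarith) (fun _ _ g => g.1)
      (fun _ _ g => g.2.le) a (fun y => t a y / S = w) fun _ _ e e' => e.trans e'.symm)
    · rintro ⟨b, y⟩ ⟨g, e⟩
      cases e
      exact ⟨g, rfl⟩
    · rintro ⟨b, y⟩ ⟨b', y'⟩ ⟨-, e⟩ ⟨-, e'⟩ e2
      exact Prod.ext ((Prod.mk.inj e).1.trans (Prod.mk.inj e').1.symm) e2
  set F : V × V → Prop := fun e => E e.1 e.2 ∧ P ≤ gs E t S e.1 e.2 ∧ ¬ B0 e ∧ ¬ B1 e with hF
  have split : ed E ≤ cnt F + (G.card * P + cnt B0 + cnt B1) := by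
    refine (cnt_le_add (q := F) (r := fun e => (E e.1 e.2 ∧ gs E t S e.1 e.2 < P) ∨ B0 e ∨ B1 e)
      fun e he => ?_).trans ?_
    · by_cases c : P ≤ gs E t S e.1 e.2
      · simp only [hF]
        tauto
      · exact Or.inr (Or.inl ⟨he, not_le.1 c⟩)
    · linarith [cnt_le_add3 (p := fun e : V × V =>
        (E e.1 e.2 ∧ gs E t S e.1 e.2 < P) ∨ B0 e ∨ B1 e) fun _ he => he]
  have top : ∀ (σ : ℕ → ℕ) a y, gs E (fun a y => ps h σ L y (t a y / S)) (2 ^ L) a y =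
      gs E t S a y := fun σ a y => by simp only [gs, ps_div c.cb]
  obtain ⟨l0, l0L, p0⟩ := pigeon F L L1 (fun l e => P ≤ gs E T0 (2 ^ (l + 1)) e.1 e.2 ∧
    gs E T0 (2 ^ (l + 1)) e.1 e.2 ≤ L ^ 2 * P) fun e he =>
      k0 e he.1 he.2.2.1 (he.2.1.trans_eq (top _ _ _).symm)
  obtain ⟨l1, l1L, p1⟩ := pigeon (fun e => F e ∧ P ≤ gs E T0 (2 ^ (l0 + 1)) e.1 e.2 ∧
    gs E T0 (2 ^ (l0 + 1)) e.1 e.2 ≤ L ^ 2 * P) L L1
    (fun l e => P ≤ gs E T1 (2 ^ (l + 1)) e.1 e.2 ∧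
    gs E T1 (2 ^ (l + 1)) e.1 e.2 ≤ L ^ 2 * P) fun e he =>
      k1 e he.1.1 he.1.2.2.2 (he.1.2.1.trans_eq (top _ _ _).symm)
  set F2 : V × V → Prop := fun e => (F e ∧ P ≤ gs E T0 (2 ^ (l0 + 1)) e.1 e.2 ∧
    gs E T0 (2 ^ (l0 + 1)) e.1 e.2 ≤ L ^ 2 * P) ∧ P ≤ gs E T1 (2 ^ (l1 + 1)) e.1 e.2 ∧
    gs E T1 (2 ^ (l1 + 1)) e.1 e.2 ≤ L ^ 2 * P with hF2
  set O : V → Finset ℕ := fun a =>
    (univ.filter fun y => F2 (a, y)).image fun y => T0 a y / 2 ^ (l0 + 1) with hO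
  obtain ⟨par, -, p2⟩ := pigeon F2 2 two_pos (fun i e =>
    #((O e.1).filter (· < T0 e.1 e.2 / 2 ^ (l0 + 1))) % 2 = i) fun e _ =>
      ⟨_, Nat.mod_lt _ two_pos, rfl⟩
  obtain ⟨H, hH, ok, p3⟩ := gap c.na c.inj (c.fam.mono (G' := fun a y => F2 (a, y) ∧
    #((O a).filter (· < T0 a y / 2 ^ (l0 + 1))) % 2 = par) fun a y g => g.1.1.1.1) S0 L1 le_rfl
    (card_lt c.cb).1 G fun a y g => G2 a y g.1.1.1.1
  have hE : ∀ a y, H a y → E a y := fun a y g => (hH a y g).1.1.1.1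
  have st : ∀ a y z, H a y → H a z → t a y / S = t a z / S →
      T0 a y / 2 ^ (l0 + 1) < T0 a z / 2 ^ (l0 + 1) →
      T1 a z / 2 ^ (l1 + 1) ≤ T1 a y / 2 ^ (l1 + 1) := by
    intro a y z gy gz e lt
    refine not_lt.1 fun lt' => ?_
    obtain ⟨v, hv, v1, v2⟩ := between (O := O a) (mem_image_of_mem _
      (mem_filter.2 ⟨mem_univ y, (hH a y gy).1⟩)) lt ((hH a y gy).2.trans (hH a z gz).2.symm)
    obtain ⟨x, hx, rfl⟩ := mem_image.1 hv
    have h1 := (mem_filter.1 hx).2.1.2.1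
    have h2 := few a y (hE a y gy)
    have h3 := few a z (hE a z gz)
    simp only [hT1, ← e] at lt'
    have h4 := ps_lt lt'
    refine absurd (h1.trans ((cnt_le_add fun u hu => ?_).trans (add_le_add h2 h3)))
      (not_le.2 (by linarith))
    rw [← hu.2] at v1 v2
    have e1 : t a u / S = t a y / S :=
      le_antisymm (e ▸ ps_win c.cb l0L v2.le) (ps_win c.cb l0L v1.le)
    simp only [hT0, ← e, e1] at v1 v2
    have u1 := ps_lt v1
    have u2 := ps_lt v2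
    by_cases k : h y (t a y / S * S + (S - 1)) < h u (t a y / S * S + (S - 1))
    · exact Or.inl ⟨hu.1, e1, Or.inl ⟨u1, k⟩⟩
    · exact Or.inr ⟨hu.1, e1.trans e, Or.inr (e ▸ ⟨u2, (not_lt.1 k).trans_lt h4⟩)⟩
  have P4 : 0 ≤ (L:ℝ) ^ 2 * P := by positivity
  refine ⟨H, fun y w => ps h (fun w => w * S) L y w / 2 ^ (l0 + 1),
    fun y w => ps h (fun w => w * S + (S - 1)) L y w / 2 ^ (l1 + 1), hE,
    ⟨fun w y z e => ps_lt (σ := fun w => w * S) e,
      fun w y z e => ps_lt (σ := fun w => w * S + (S - 1)) e, ?_, fun a w r => ?_, fun a w r => ?_⟩,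
    ok, ?_, _, ?_, fun a y g => mem_image_of_mem (fun e : V × V => (e.1, t e.1 e.2 / S,
      T0 e.1 e.2 / 2 ^ (l0 + 1), T1 e.1 e.2 / 2 ^ (l1 + 1)))
      ((mem_filter (p := fun e : V × V => H e.1 e.2)).2 ⟨mem_univ (a, y), g⟩)⟩
  · rintro a y z w gy gz rfl e lt
    have := st a y z gy gz e.symm (by simpa only [hT0, e] using lt)
    simpa only [hT1, e] using this
  · refine (grp P4 hE (fun a y g => (hH a y g).1.1.2.2) a _ ?_).trans P3
    rintro y z ⟨rfl, e1⟩ ⟨e2, e3⟩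
    simp only [hT0, e2]
    exact e1.trans e3.symm
  · refine (grp P4 hE (fun a y g => (hH a y g).1.2.2) a _ ?_).trans P3
    rintro y z ⟨rfl, e1⟩ ⟨e2, e3⟩
    simp only [hT1, e2]
    exact e1.trans e3.symm
  · have e0 : 0 ≤ ed E := cnt_nonneg _
    have g0 : (0:ℝ) ≤ G.card := Nat.cast_nonneg _
    have f0 := cnt_nonneg F2
    have h0 : 0 ≤ ed H := cnt_nonneg _
    have L2 : (0:ℝ) < L := by linarith
    have a1 : G.card * P * L ≤ 8 * ed E := by
      refine le_of_mul_le_mul_right ?_ (pow_pos L2 2)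
      calc _ = G.card * ((L:ℝ) ^ 6 * θ) := by rw [hP]; ring
        _ ≤ _ := by linarith
    have a2 : cnt B0 * L ≤ 2 * ed E := le_of_mul_le_mul_right (by linarith) L2
    have a3 : cnt B1 * L ≤ 2 * ed E := le_of_mul_le_mul_right (by linarith) L2
    have a4 : ed E ≤ 2 * cnt F := le_of_mul_le_mul_right (by nlinarith) L2
    have a5 : cnt F ≤ L * (L * cnt F2) := p0.trans (by gcongr)
    have a6 : cnt F2 ≤ 2 * (L * (L * ed H) + G.card * 4) := by
      push_cast at p2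
      exact p2.trans (by gcongr)
    have a7 : 256 * ((L:ℝ) ^ 4 * G.card) ≤ m := by
      refine le_trans ?_ G1
      calc _ = G.card * ((L:ℝ) ^ 4 * 256) := by ring
        _ ≤ G.card * ((L:ℝ) ^ 6 * θ) := by
          gcongr
          · norm_num
          · nlinarith [one_le_pow₀ (n := 5) Lr, show (L:ℝ) ^ 6 = L ^ 5 * L by ring]
    have a8 : m ≤ 8 * L ^ 2 * (2 * (L * (L * (2 * (L * (L * ed H) + G.card * 4))))) :=
      hm.trans (by gcongr; exact a4.trans (by gcongr; exact a5.trans (by gcongr)))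
    have a9 : 0 ≤ (L:ℝ) ^ 6 * ed H := by positivity
    have a10 : (L:ℝ) ^ 7 * ed H = L * (L ^ 6 * ed H) := by ring
    nlinarith
  · have h1 := cells (H := H) (w := fun a y => t a y / S) (r := fun a y => T0 a y / 2 ^ (l0 + 1))
      (c := fun a y => T1 a y / 2 ^ (l1 + 1))
      (fun a y z e => le_antisymm (ps_win c.cb l0L e.le) (ps_win c.cb l0L e.ge))
      (fun a y z e => le_antisymm (ps_win c.cb l1L e.le) (ps_win c.cb l1L e.ge)) st
    have h2 := occ (E := E) fun a y g => (hH a y g).1.1.2.1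
    have h3 := occ (E := E) fun a y g => (hH a y g).1.2.1
    rw [← hP]
    refine (mul_le_mul_of_nonneg_right (Nat.cast_le.2 h1) (by linarith)).trans ?_
    rw [Nat.cast_add, add_mul]
    linarith

end Pool.Agent.Lib.MP_65c801_co.T
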