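import Pool.Agent.Lib.MP_65c801_co.T.Split
import Pool.Agent.Lib.MP_65c801_co.T.Id2
import Pool.Agent.Lib.MP_65c801_co.T.Sign
import Pool.Agent.Lib.MP_65c801_co.T.Inc
import Pool.Agent.Lib.MP_65c801_co.T.Side
import Pool.Agent.Lib.MP_65c801_co.T.Stem
import Pool.Agent.Lib.MP_65c801_co.T.Core
import Pool.Agent.Lib.MP_65c801_co.T.Scale
import Pool.Agent.Lib.MP_65c801_co.T.Box
import Pool.Agent.Lib.MP_65c801_co.T.Tube
import Pool.Agent.Lib.MP_65c801_co.T.CaseA
import Pool.Agent.Lib.MP_65c801_co.T.Fam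
import Pool.Agent.Lib.MP_65c801_co.T.Fin

/-! All steps together. -/

namespace Pool.Agent.Lib.MP_65c801_co.T

theorem famAll : FamS :=
  have hC := core id2 sign side (stem inc)
  fam (no scale box (caseB split (i1 split) hC) tube (path split p3)
    (caseA (i1 split) (i2 split) hC))

end Pool.Agent.Lib.MP_65c801_co.T
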