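import Pool.Agent.Lib.MP_65c801_co.T.St

/-! The case of many ordered pairs: the graph of lenses between upper curves. -/

namespace Pool.Agent.Lib.MP_65c801_co.T

open Finset Classical

namespace CaseB

lemma surj {X Y : Type} [Fintype X] [Fintype Y] {p : X → Prop} {q : Y → Prop} (f : Y → X)
    (hf : ∀ x, p x → ∃ y, q y ∧ f y = x) : cnt p ≤ cnt q := by
  simpa using cnt_fib_ge (p := q) (q := p) f (K := 1) fun x hx => one_le_cnt (hf x hx).choose_spec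

variable {V K : Type} [Fintype V] {Ha Hb Γ : V → V → Prop} {κ : V → V → K} {w lab : V → V → ℕ}
  {P d D : ℝ} {L : ℕ}

lemma deg (hΓ : ∀ y z, Γ y z → ∃ a, Ha a y ∧ Hb a z ∧ κ a y = κ a z ∧ w a y = lab y z)
    (cb : ∀ a k, cnt (fun y => Hb a y ∧ κ a y = k) ≤ P) (P0 : 0 ≤ P) (y : V) (r : ℕ → Prop)
    (hd : cnt (fun a => Ha a y ∧ r (w a y)) ≤ d) : cnt (fun z => Γ y z ∧ r (lab y z)) ≤ d * P := by
  refine (surj (q := fun p : V × V => (Ha p.1 y ∧ r (w p.1 y)) ∧ Hb p.1 p.2 ∧ κ p.1 p.2 = κ p.1 y)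
    Prod.snd fun z g => ?_).trans ((cnt_pair_le (fun a z g => g.1) fun a _ =>
      (cnt_mono fun z g => g.2).trans (cb a (κ a y))).trans (mul_le_mul_of_nonneg_right hd P0))
  obtain ⟨a, g1, g2, g3, g4⟩ := hΓ y z g.1
  exact ⟨(a, z), ⟨⟨g1, g4 ▸ g.2⟩, g2, g3.symm⟩, rfl⟩

lemma stems (hΓ : ∀ y z, Γ y z → ∃ a, Ha a y ∧ Hb a z ∧ κ a y = κ a z ∧ w a y = lab y z)
    (ca : ∀ a k, cnt (fun y => Ha a y ∧ κ a y = k) ≤ P) (P0 : 0 ≤ P)
    (hq : ∀ y u, cnt (fun a => Ha a y ∧ w a y = u) ≤ P) (hD : ∀ z, cnt (fun y => Γ y z) ≤ D)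
    (ok : IncOK Hb κ (216 * (L:ℝ) ^ 2) P) (x : V) : StemOK (cc Γ lab lab x) x L D P P := by
  refine ⟨K, Hb, κ, fun p => Γ p.1 x ∧ p.2.2 = p.1 ∧ Ha p.2.1 p.1 ∧ w p.2.1 p.1 = lab p.1 x,
    fun p => (p.2.1, κ p.2.1 p.1), 1, P, ok, one_pos, P0, (mul_one P).ge, ?_, fun γ => ?_,
    fun z _ => ?_⟩
  · refine (cnt_pair_le (q := fun y => Γ y x) (fun y p g => g.1) fun y _ => le_trans
      (cnt_inj Prod.fst (fun p g => g.2.2) fun p q g g' e => Prod.ext e (g.2.1.trans g'.2.1.symm))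
      (hq y (lab y x))).trans (mul_le_mul_of_nonneg_right (hD x) P0)
  · refine le_trans (cnt_inj Prod.fst ?_ ?_) (ca γ.1 γ.2)
    · rintro p ⟨g, rfl⟩
      exact ⟨g.2.2.1, rfl⟩
    · rintro p q ⟨g, rfl⟩ ⟨g', e'⟩ e
      exact Prod.ext e (Prod.ext (congrArg Prod.fst e').symm (g.2.1.trans (e.trans g'.2.1.symm)))
  · rw [one_mul]
    refine surj Prod.fst fun y g => ?_
    obtain ⟨a, g1, g2, g3, g4⟩ := hΓ y z g.2.1
    exact ⟨(y, a, y), ⟨⟨g.1, rfl, g1, g4.trans (g.2.2.elim Eq.symm Eq.symm)⟩, g2, g3.symm⟩, rfl⟩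

end CaseB

theorem caseB (hS : SplitS) (h1 : I1S) (hC : CoreS) : CaseBS := by
  intro V α K _ _ h E t S' R L θ m d H0 H1 κ c s b
  obtain ⟨hX, hθ, L1, θ1⟩ := c.num
  have S0 : 0 < S' * R := Nat.mul_pos s.S0 s.R0
  have q2 := s.q2
  set S := S' * R
  set Γ : V → V → Prop := fun y z => ∃ a, H0 a y ∧ H1 a z ∧ κ a y = κ a z with hΓ
  have lens : ∀ a y z, H0 a y → H1 a z → κ a y = κ a z → Lens h S (t a y / S) y z :=
    fun a y z g g' e => by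
      have co := b.co a y z g g' e
      exact ⟨co.1, co.2, t a z, (b.win a y z e).symm, (c.fam.p1 a z (b.s1 _ _ g')).trans
        (c.fam.p2 a z y (b.s1 _ _ g') (b.s0 _ _ g) fun e => lt_irrefl _ (e ▸ co.1))⟩
  have : ∀ y z, ∃ w, ∀ a, H0 a y → H1 a z → κ a y = κ a z → t a y / S = w := fun y z => by
    by_cases g : Γ y z
    · obtain ⟨a, g1, g2, g3⟩ := g
      exact ⟨_, fun a' k1 k2 k3 => (lens a' y z k1 k2 k3).uniq c.na c.inj S0 (lens a y z g1 g2 g3)⟩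
    · exact ⟨0, fun a k1 k2 k3 => absurd ⟨a, k1, k2, k3⟩ g⟩
  choose lab hl using this
  have G0 : ∀ y z, Γ y z → ∃ a, H0 a y ∧ H1 a z ∧ κ a y = κ a z ∧ t a y / S = lab y z :=
    fun y z ⟨a, g1, g2, g3⟩ => ⟨a, g1, g2, g3, hl y z a g1 g2 g3⟩
  have G1 : ∀ z y, Γ y z → ∃ a, H1 a z ∧ H0 a y ∧ κ a z = κ a y ∧ t a z / S = lab y z :=
    fun z y ⟨a, g1, g2, g3⟩ =>
      ⟨a, g2, g1, g3.symm, (b.win a y z g3).symm.trans (hl y z a g1 g2 g3)⟩
  have T1 : (1:ℝ) ≤ θ := by exact_mod_cast θ1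
  have many := b.many
  have d1 := s.d1
  have d2 := s.d2
  set X := (L:ℝ)
  set T := (θ:ℝ)
  have X1 : 1 ≤ X := by linarith
  have X0 : 0 < X := by linarith
  have p4 : 4 * T ≤ X ^ 18 * T := by
    gcongr; simpa using cpw (c := 4) (i := 0) (j := 18) X1 (by linarith) (by norm_num)
  have P0 : 0 ≤ X ^ 18 * T := by positivity
  have c0 : ∀ a k, cnt (fun y => H0 a y ∧ κ a y = k) ≤ X ^ 18 * T := fun a k =>
    (b.c0 a k).trans (by linarith)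
  have c1 : ∀ a k, cnt (fun y => H1 a y ∧ κ a y = k) ≤ X ^ 18 * T := fun a k =>
    (b.c1 a k).trans (by linarith)
  have w0 : ∀ y u, cnt (fun a => H0 a y ∧ t a y / S = u) ≤ X ^ 18 * T := fun y u =>
    (cnt_mono fun a g => ⟨b.s0 _ _ g.1, g.2⟩).trans (q2 y u)
  have w1 : ∀ y u, cnt (fun a => H1 a y ∧ t a y / S = u) ≤ X ^ 18 * T := fun y u =>
    (cnt_mono fun a g => ⟨b.s1 _ _ g.1, g.2⟩).trans (q2 y u)
  have dA : ∀ y, cnt (fun z => Γ y z) ≤ d * (X ^ 18 * T) := fun y =>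
    (cnt_mono fun z g => ⟨g, trivial⟩).trans (CaseB.deg G0 c1 P0 y (fun _ => True)
      ((cnt_mono fun a g => b.s0 _ _ g.1).trans (s.dU y)))
  have dX : ∀ z, cnt (fun y => Γ y z) ≤ d * (X ^ 18 * T) := fun z =>
    (cnt_mono fun y g => ⟨g, trivial⟩).trans (CaseB.deg (Γ := fun z y => Γ y z)
      (lab := fun z y => lab y z) G1 c0 P0 z (fun _ => True)
      ((cnt_mono fun a g => b.s1 _ _ g.1).trans (s.dU z)))
  have k0 := fun y u => CaseB.deg G0 c1 P0 y (fun v => v = u) (w0 y u)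
  have k1 := fun z u => CaseB.deg (Γ := fun z y => Γ y z) (lab := fun z y => lab y z) G1 c0 P0 z
    (fun v => v = u) (w1 z u)
  have cs := cnt_cs' (p := fun z : V × V × V => H0 z.1 z.2.1 ∧ H1 z.1 z.2.2 ∧
    κ z.1 z.2.1 = κ z.1 z.2.2) (q := fun e : V × V => Γ e.1 e.2) Prod.snd fun z g => ⟨z.1, g⟩
  have sub : ∀ a y, H0 a y ∨ H1 a y → E a y := fun a y g => g.elim (b.s0 a y) (b.s1 a y)
  have sp := hS V α K ℕ h (fun a y => H0 a y ∨ H1 a y) t κ (fun a y => t a y / S) L c.na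
    (c.fam.mono sub) L1 fun a y g => c.tb a y (sub a y g)
  have r1 := Chr_le (fun a y => H0 a y ∨ H1 a y) κ (P := X ^ 18 * T) fun a k =>
    (cnt_le_add fun y g => g.1.imp (fun e => And.intro e g.2) fun e => And.intro e g.2).trans
      (by linarith [b.c0 a k, b.c1 a k])
  have r2 := Chr_le (fun y a => H0 a y ∨ H1 a y) (fun y a => t a y / S) (P := X ^ 18 * T)
    fun y u => (cnt_mono fun a g => ⟨sub _ _ g.1, g.2⟩).trans (q2 y u)
  rw [ed_flip (fun a y => H0 a y ∨ H1 a y)] at r2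
  have r3 := mul_le_mul_of_nonneg_left ((ed_mono sub).trans s.em) P0
  have d0 : 0 < d := lt_of_lt_of_le (by positivity) d1
  have m0 : 0 < m := (mul_pos_iff_of_pos_left X0).1 (lt_of_lt_of_le (by positivity) d2)
  have E0 : 0 ≤ ed Γ := cnt_nonneg _
  have a1 := cs.trans (mul_le_mul_of_nonneg_left (le_trans (cnt_inj
    (fun z => ((z.1.1, z.2.1), z.1.2)) (by
      rintro ⟨⟨a, y, z⟩, ⟨a', y'⟩⟩ ⟨g, g', e⟩
      simp only at e
      subst e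
      have e := (hl y z a g.1 g.2.1 g.2.2).trans (hl y z a' g'.1 g'.2.1 g'.2.2).symm
      exact ⟨⟨Or.inl g.1, Or.inr g.2.1, Or.inl g'.1, Or.inr g'.2.1⟩, g.2.2, g'.2.2, e,
        (b.win _ _ _ g.2.2).symm.trans (e.trans (b.win _ _ _ g'.2.2))⟩) (by
      rintro ⟨⟨a, y⟩, ⟨b, x⟩⟩ ⟨⟨a', y'⟩, ⟨b', x'⟩⟩ ⟨-, -, h1⟩ ⟨-, -, h3⟩ h5
      simp only [Prod.mk.injEq] at h1 h3 h5 ⊢
      exact ⟨⟨h5.1.1, h5.2⟩, h5.1.2, h1.symm.trans (h5.2.trans h3)⟩))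
    (sp.trans (mul_le_mul_of_nonneg_left (add_le_add (r1.trans r3) (r2.trans r3))
      (by positivity)))) E0)
  have a2 : T * m ≤ 36 * X ^ 30 * ed Γ := by
    refine le_of_mul_le_mul_left ?_ (by positivity : 0 < T * m)
    calc _ = (T * m) ^ 2 := by ring
      _ ≤ _ := pow_le_pow_left₀ (by positivity) many 2
      _ = X ^ 10 * _ ^ 2 := by ring
      _ ≤ _ := mul_le_mul_of_nonneg_left a1 (by positivity)
      _ = _ := by ring
  refine hC V α ℕ h Γ lab lab lab S L θ d (X ^ 18 * T) c.na c.inj S0 c.L0 c.cb c.cθ θ1 d1 ?_ ?_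
    (fun y z ⟨a, g1, g2, g3⟩ => hl y z a g1 g2 g3 ▸ lens a y z g1 g2 g3)
    (fun y z ⟨a, g1, g2, g3⟩ => hl y z a g1 g2 g3 ▸
      (Nat.div_le_self _ _).trans_lt (c.tb a y (b.s0 a y g1))) dA dX
    (fun _ _ _ _ _ e _ _ => Or.inl e) k0 k0 k1
    (CaseB.stems G0 c0 P0 w0 dX (h1 V α K h H1 t κ S L _ c.na (c.fam.mono b.s1) L1
      (fun a y g => c.tb a y (b.s1 a y g)) (fun a y z _ _ => b.win a y z) w1))
    (CaseB.stems G1 c1 P0 w1 dA (h1 V α K h H0 t κ S L _ c.na (c.fam.mono b.s0) L1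
      (fun a y g => c.tb a y (b.s0 a y g)) (fun a y z _ _ => b.win a y z) w0))
  · exact le_trans (by linarith) (le_mul_of_one_le_left P0 (one_le_pow₀ X1))
  · calc T ^ 7 * (d * (X ^ 18 * T)) = T ^ 7 * d * (X ^ 18 * T) := by ring
      _ ≤ X * m * (X ^ 18 * T) := by gcongr
      _ = X ^ 19 * (T * m) := by ring
      _ ≤ X ^ 19 * (36 * X ^ 30 * ed Γ) := by gcongr
      _ = 36 * X ^ 49 * ed Γ := by ring
      _ ≤ _ := mul_le_mul_of_nonneg_right (cpw X1 (by linarith) (by norm_num)) E0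

end Pool.Agent.Lib.MP_65c801_co.T
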