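import Pool.Agent.Lib.MP_65c801_co.T.CaseB

/-! The chain of the steps and the induction that removes the vertices of high degree. -/

namespace Pool.Agent.Lib.MP_65c801_co.T

open Finset Classical

theorem no (h1 : ScaleS) (h2 : BoxS) (h3 : CaseBS) (h4 : TubeS) (h5 : PathS) (h6 : CaseAS) :
    NoS := by
  have key : ∀ (V α : Type) [Fintype V] [LinearOrder α] (h : V → ℕ → α) (E : V → V → Prop)
      (t : V → V → ℕ) (S' R L θ : ℕ) (m d : ℝ), Ctx h E t L θ → Sc E t S' R L θ m d →
      m ≤ 4 * (L:ℝ) ^ 2 * ed E → False := by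
    intro V α _ _ h E t S' R L θ m d c s hm
    rcases h2 V α h E t (S' * R) L θ m c hm with ⟨F, sub, hF, few⟩ | ⟨H0, H1, κ, b⟩
    · obtain ⟨H, row, col, sub', tb⟩ := h4 V α h F t S' R L θ m d (c.mono sub) (s.mono sub) hF few
      have c' := (c.mono sub).mono sub'
      have s' := (s.mono sub).mono sub'
      exact h6 V α h H t S' R L θ m d row col c' s' tb (h5 V α h H t S' R L θ m d row col c' s' tb)
    · exact h3 V α _ h E t S' R L θ m d H0 H1 κ c s b
  intro V α _ _ h E t L θ d c dL dU d1 d2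
  rcases h1 V α h E t L θ d c dL dU d1 d2 with ⟨F, S', R, sub, s, hm⟩ | ⟨F, S', R, sub, s, hm⟩
  · exact key V α h F t S' R L θ _ d (c.mono sub) s hm
  · exact key V αᵒᵈ _ F _ S' R L θ _ d (c.flip.mono sub) s hm

namespace FamA

variable {V α : Type} [Fintype V] [LinearOrder α] {h : V → ℕ → α} {E : V → V → Prop}
  {t : V → V → ℕ} {L s : ℕ} {M : ℝ}

lemma high (ih : ∀ (V α : Type) [Fintype V] [LinearOrder α] (h : V → ℕ → α) (E : V → V → Prop)
      (t : V → V → ℕ), NoAlt h → Inj h → Fam h E t → (∀ a y, E a y → t a y < 2 ^ L) →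
      Fintype.card V ≤ 2 * s → ed E ≤ M)
    (hn : NoAlt h) (hi : Inj h) (f : Fam h E t) (tb : ∀ a y, E a y → t a y < 2 ^ L) (s0 : 0 < s)
    (hc : Fintype.card V ≤ 256 * s) (m0 : 0 < ed E) :
    cnt (fun e : V × V => E e.1 e.2 ∧ ed E / s < cnt fun y => E e.1 y) ≤ 256 * M := by
  have s1 : (0:ℝ) < s := by exact_mod_cast s0
  have h1 : cnt (fun a => ed E / s < cnt fun y => E a y) ≤ s := by
    have := cnt_pair_ge (p := fun e : V × V => E e.1 e.2) (K := ed E / s)
      (q := fun a => ed E / s < cnt fun y => E a y) fun a g => g.le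
    rw [← mul_div_assoc, div_le_iff₀ s1, mul_comm] at this
    exact le_of_mul_le_mul_left this m0
  obtain ⟨c, c1, -, c3⟩ := chunks (fun _ : V => True) s0
  refine (cnt_fib_le (fun e => c e.2) (range 256) (K := M) (fun e _ => mem_range.2 ?_)
    fun j _ => ?_).trans (by simp)
  · have h2 : (c e.2 : ℝ) * s < 256 * s := (c3 e.2 trivial).trans_le
      ((cnt_le_card _).trans (by exact_mod_cast hc))
    exact_mod_cast lt_of_mul_lt_mul_right h2 s1.le
  refine le_trans (CaseB.surj (fun e => (e.1.1, e.2.1)) fun e g => ?_)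
    (ih {v // (ed E / s < cnt fun y => E v y) ∨ c v = j} α (fun v => h v.1)
      (fun a y => E a.1 y.1) (fun a y => t a.1 y.1) (fun u v => hn u.1 v.1)
      (fun τ u v e => Subtype.ext (hi τ _ _ e)) ⟨fun a y => f.p1 _ _,
        fun a x y g g' e => f.p2 _ _ _ g g' fun e' => e (Subtype.ext e'),
        fun a b x g g' e => f.p3 _ _ _ g g' fun e' => e (Subtype.ext e')⟩ (fun a y => tb _ _) ?_)
  · exact ⟨(⟨e.1, Or.inl g.1.2⟩, ⟨e.2, Or.inr g.2⟩), g.1.1, rfl⟩
  · have h2 := cnt_le_add (p := fun v => (ed E / s < cnt fun y => E v y) ∨ c v = j)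
      fun v g => g.imp_right fun e => And.intro trivial e
    have h3 : cnt (fun v => (ed E / s < cnt fun y => E v y) ∨ c v = j) ≤ 2 * s := by
      linarith [c1 j]
    rw [Fintype.card_subtype, ← Nat.cast_le (α := ℝ), Nat.cast_mul]
    refine le_trans (le_of_eq ?_) h3
    unfold cnt
    congr

lemma small {i : ℕ} (L0 : 4096 ≤ L) (hi : 2 ^ i < L ^ 6) (hc : Fintype.card V ≤ 2 ^ (7 * i)) :
    ed E ≤ (L:ℝ) ^ 130 * 2 ^ (10 * i) := by
  refine (cnt_le_card _).trans ?_
  have : Fintype.card (V × V) ≤ L ^ 130 * 2 ^ (10 * i) := by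
    rw [Fintype.card_prod]
    calc _ ≤ 2 ^ (7 * i) * 2 ^ (7 * i) := Nat.mul_le_mul hc hc
      _ = (2 ^ i) ^ 4 * 2 ^ (10 * i) := by ring
      _ ≤ (L ^ 6) ^ 4 * 2 ^ (10 * i) := by gcongr
      _ ≤ _ := by
          rw [← pow_mul]
          exact Nat.mul_le_mul_right _ (Nat.pow_le_pow_right (by omega) (by norm_num))
  exact_mod_cast this

end FamA

theorem fam (hN : NoS) : FamS := by
  intro L i L0
  induction i with
  | zero =>
    intro _ V α _ _ h E t _ _ _ _ hc
    exact FamA.small L0 (Nat.one_lt_pow (by norm_num) (by omega)) hc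
  | succ i ih =>
    intro hL V α _ _ h E t hn hi f tb hc
    by_cases c : 2 ^ (i + 1) < L ^ 6
    · exact FamA.small L0 c hc
    push Not at c
    obtain ⟨j, rfl⟩ : ∃ j, i = j + 1 := by
      refine Nat.exists_eq_succ_of_ne_zero ?_
      rintro rfl
      have := Nat.pow_le_pow_left L0 6
      omega
    by_contra hm
    push Not at hm
    have X0 : (4096:ℝ) ≤ L := by exact_mod_cast L0
    have m0 : 0 < ed E := lt_trans (by positivity) hm
    have ih' := ih (by omega)
    rw [show 2 ^ (7 * (j + 1)) = 2 * 2 ^ (7 * j + 6) by ring] at ih'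
    have hc' : Fintype.card V ≤ 256 * 2 ^ (7 * j + 6) := hc.trans_eq (by ring)
    have u1 := FamA.high ih' hn hi f tb (by positivity) hc' m0
    have u2 := FamA.high ih' hn.flip hi.flip f.flip (fun y a => tb a y) (by positivity) hc'
      (by rwa [ed_flip])
    rw [← cnt_swap, ed_flip] at u2
    set d := ed E / ((2 ^ (7 * j + 6) : ℕ) : ℝ) with hd
    have u3 := cnt_le_add3 (p := fun e : V × V => E e.1 e.2) (q := fun e => E e.1 e.2 ∧
      cnt (fun y => E e.1 y) ≤ d ∧ cnt (fun a => E a e.2) ≤ d)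
      (r := fun e => E e.1 e.2 ∧ d < cnt fun y => E e.1 y)
      (s := fun e => E e.1 e.2 ∧ d < cnt fun a => E a e.2) fun e g =>
        (le_or_gt _ d).elim (fun a => (le_or_gt _ d).elim (fun b => Or.inl ⟨g, a, b⟩)
          fun b => Or.inr (Or.inr ⟨g, b⟩)) fun a => Or.inr (Or.inl ⟨g, a⟩)
    have d0 : 0 ≤ d := by positivity
    have hcR : (Fintype.card V : ℝ) ≤ 2 ^ (7 * (j + 1 + 1)) := by exact_mod_cast hc
    refine hN V α h (fun a y => E a y ∧ cnt (fun y => E a y) ≤ d ∧ cnt (fun a => E a y) ≤ d) t L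
      (2 ^ (j + 1 + 1)) d ⟨hn, hi, f.mono fun a y g => g.1, fun a y g => tb a y g.1, L0,
        (pow_le_pow_left₀ (by positivity) hcR 3).trans_lt (by
          rw [← pow_mul]; exact pow_lt_pow_right₀ (by norm_num) (by omega)),
        hcR.trans_eq (by push_cast; ring), c⟩ (fun a => ?_) (fun y => ?_) ?_ ?_
    · by_cases k : cnt (fun y => E a y) ≤ d
      · exact (cnt_mono fun y g => g.1).trans k
      · rwa [cnt_zero fun y g => k g.2.1]
    · by_cases k : cnt (fun a => E a y) ≤ d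
      · exact (cnt_mono fun a g => g.1).trans k
      · rwa [cnt_zero fun a g => k g.2.2]
    · rw [hd, le_div_iff₀ (by positivity)]
      refine le_trans ?_ hm.le
      push_cast
      rw [mul_assoc, ← pow_mul, ← pow_add]
      exact mul_le_mul_of_nonneg_left (pow_le_pow_right₀ (by norm_num) (by omega)) (by positivity)
    · have e1 : ((2 ^ (j + 1 + 1) : ℕ) : ℝ) ^ 7 * d = 256 * ed E := by
        rw [hd]; push_cast; field_simp; ring
      have e2 : (L:ℝ) ^ 130 * 2 ^ (10 * (j + 1 + 1)) = 1024 * ((L:ℝ) ^ 130 * 2 ^ (10 * (j + 1))) := by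
        ring
      rw [e1]
      nlinarith [cnt_nonneg fun e : V × V => E e.1 e.2 ∧ cnt (fun y => E e.1 y) ≤ d ∧
        cnt (fun a => E a e.2) ≤ d]

end Pool.Agent.Lib.MP_65c801_co.T
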