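import Pool.Agent.Lib.MP_65c801_co.T.St

/-! Many good paths in a staircase. -/

namespace Pool.Agent.Lib.MP_65c801_co.T

open Finset Classical

namespace PathL

variable {V α K K' : Type} [Fintype V] [LinearOrder α]

/-- an edge with many edges of the same key at its upper end, before and after it -/
def Cen (F : V → V → Prop) (t : V → V → ℕ) (S' : ℕ) (κ' : V → V → K') (η : ℝ) (a y : V) : Prop :=
  F a y ∧ η ≤ cnt (fun a' => (F a' y ∧ κ' a' y = κ' a y) ∧ t a y / S' < t a' y / S') ∧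
    η ≤ cnt (fun a' => (F a' y ∧ κ' a' y = κ' a y) ∧ t a' y / S' < t a y / S')

lemma noncen (F : V → V → Prop) (t : V → V → ℕ) (S' : ℕ) (κ' : V → V → K') {η : ℝ} (η0 : 0 ≤ η)
    (G : Finset (V × K')) (hG : ∀ a y, F a y → (y, κ' a y) ∈ G)
    (hq : ∀ y k w, cnt (fun a => F a y ∧ κ' a y = k ∧ t a y / S' = w) ≤ η) :
    cnt (fun e : V × V => F e.1 e.2 ∧ ¬ Cen F t S' κ' η e.1 e.2) ≤ G.card * (4 * η) := by
  refine cnt_fib_le (fun e => (e.2, κ' e.1 e.2)) G (fun e he => hG _ _ he.1) ?_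
  rintro ⟨y, u⟩ -
  have e1 := few_extreme (fun a => F a y ∧ κ' a y = u) (fun a => t a y / S') η0
    (fun b => (cnt_mono fun a ha => ⟨ha.1.1, ha.1.2, ha.2⟩).trans (hq y u b))
  have e2 := few_extreme (fun a => F a y ∧ κ' a y = u)
    (fun a => OrderDual.toDual (t a y / S')) η0
    (fun b => (cnt_mono fun a ha => ⟨ha.1.1, ha.1.2, ha.2⟩).trans (hq y u (OrderDual.ofDual b)))
  have e3 := cnt_or (fun a => (F a y ∧ κ' a y = u) ∧
    ¬ η ≤ cnt (fun a' => (F a' y ∧ κ' a' y = u) ∧ t a y / S' < t a' y / S'))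
    (fun a => (F a y ∧ κ' a y = u) ∧
    ¬ η ≤ cnt (fun a' => (F a' y ∧ κ' a' y = u) ∧ t a' y / S' < t a y / S'))
  refine le_trans (cnt_inj (fun e => e.1) ?_ ?_) (e3.trans (by
    have := add_le_add e1 e2
    exact this.trans (by linarith)))
  · rintro ⟨a, y'⟩ ⟨⟨g, hc⟩, he⟩
    simp only [Prod.mk.injEq] at he
    obtain ⟨rfl, rfl⟩ := he
    simp only [Cen] at hc
    tauto
  · rintro ⟨a, y1⟩ ⟨b, y2⟩ ⟨-, h1⟩ ⟨-, h2⟩ e
    simp only [Prod.mk.injEq] at h1 h2 e ⊢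
    exact ⟨e, h1.1.trans h2.1.symm⟩

/-- the paths of the statement -/
def Pa (h : V → ℕ → α) (F : V → V → Prop) (t : V → V → ℕ) (κ : V → V → K) (κ' : V → V → K')
    (z : (V × V × V) × V) : Prop :=
  F z.2 z.1.2.1 ∧ F z.1.1 z.1.2.1 ∧ F z.1.1 z.1.2.2 ∧ κ' z.2 z.1.2.1 = κ' z.1.1 z.1.2.1 ∧
    κ z.1.1 z.1.2.2 = κ z.1.1 z.1.2.1 ∧ h z.1.2.2 (t z.2 z.1.2.1) < h z.2 (t z.2 z.1.2.1)

lemma rich {h : V → ℕ → α} {F : V → V → Prop} {t : V → V → ℕ} {S' : ℕ} {κ : V → V → K}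
    {κ' : V → V → K'} {η : ℝ} (hn : NoAlt h) (hi : Inj h) (f : Fam h F t) {a y b : V}
    (c1 : Cen F t S' κ' η a y) (c2 : Cen F t S' κ' η a b) (hne : y ≠ b) (hk : κ a y = κ a b)
    (ho : t a y / S' = t a b / S') (lt : t a y < t a b) :
    η ≤ cnt (fun a' => Pa h F t κ κ' ((a, y, b), a')) ∨
      η ≤ cnt (fun a' => Pa h F t κ κ' ((a, b, y), a')) := by
  have s1 : h y (t a y) < h b (t a y) := (f.p1 a y c1.1).trans (f.p2 a y b c1.1 c2.1 hne)
  have s2 : h b (t a b) < h y (t a b) := (f.p1 a b c2.1).trans (f.p2 a b y c2.1 c1.1 hne.symm)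
  by_cases hc : ∀ τ, t a b < τ → h b τ < h y τ
  · refine Or.inl (c1.2.1.trans (cnt_mono fun a' ha => ?_))
    refine ⟨ha.1.1, c1.1, c2.1, ha.1.2, hk.symm, ?_⟩
    have : t a b < t a' y := Nat.lt_of_div_lt_div (ho ▸ ha.2)
    exact (hc _ this).trans (f.p1 a' y ha.1.1)
  · push Not at hc
    obtain ⟨τ, h1, h2⟩ := hc
    have s3 : h y τ < h b τ := lt_of_not_gt' hi hne (not_lt.2 h2)
    refine Or.inr (c2.2.2.trans (cnt_mono fun a' ha => ?_))
    refine ⟨ha.1.1, c2.1, c1.1, ha.1.2, hk, ?_⟩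
    have : t a' b < t a y := Nat.lt_of_div_lt_div (ho ▸ ha.2)
    exact (ends_of_three hn hi lt h1 s1 s2 s3 (Or.inl this.le)).trans (f.p1 a' b ha.1.1)

lemma cherries (C : V → V → Prop) (κ : V → V → K) (G : Finset (V × K))
    (hG : ∀ a y, C a y → (a, κ a y) ∈ G) :
    ed C ^ 2 ≤ G.card * (ed C + cnt fun z : V × V × V => C z.1 z.2.1 ∧ C z.1 z.2.2 ∧
      z.2.1 ≠ z.2.2 ∧ κ z.1 z.2.1 = κ z.1 z.2.2) := by
  refine (cnt_cs (p := fun e : V × V => C e.1 e.2) (fun e => (e.1, κ e.1 e.2)) G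
    (fun e he => hG _ _ he)).trans (mul_le_mul_of_nonneg_left ?_ (by positivity))
  refine (cnt_le_add (q := fun z => (C z.1.1 z.1.2 ∧ C z.2.1 z.2.2 ∧
    (z.1.1, κ z.1.1 z.1.2) = (z.2.1, κ z.2.1 z.2.2)) ∧ z.1.2 = z.2.2)
    (r := fun z => (C z.1.1 z.1.2 ∧ C z.2.1 z.2.2 ∧
    (z.1.1, κ z.1.1 z.1.2) = (z.2.1, κ z.2.1 z.2.2)) ∧ z.1.2 ≠ z.2.2)
    (fun z hz => by tauto)).trans (add_le_add ?_ ?_)
  · refine cnt_inj (fun z => z.1) (fun z hz => hz.1.1) ?_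
    rintro ⟨⟨a, y⟩, ⟨b, x⟩⟩ ⟨⟨a', y'⟩, ⟨b', x'⟩⟩ ⟨⟨-, -, h1⟩, h2⟩ ⟨⟨-, -, h3⟩, h4⟩ h5
    simp only [Prod.mk.injEq] at h1 h2 h3 h4 h5 ⊢
    obtain ⟨rfl, rfl⟩ := h5
    exact ⟨⟨rfl, rfl⟩, h1.1.symm.trans h3.1, h2.symm.trans h4⟩
  · refine cnt_inj (fun z => (z.1.1, z.1.2, z.2.2)) ?_ ?_
    · rintro ⟨⟨a, y⟩, ⟨b, x⟩⟩ ⟨⟨h1, h2, h3⟩, h4⟩
      simp only [Prod.mk.injEq] at h3
      obtain ⟨rfl, h3⟩ := h3
      exact ⟨h1, h2, h4, h3⟩
    · rintro ⟨⟨a, y⟩, ⟨b, x⟩⟩ ⟨⟨a', y'⟩, ⟨b', x'⟩⟩ ⟨⟨-, -, h1⟩, -⟩ ⟨⟨-, -, h3⟩, -⟩ h5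
      simp only [Prod.mk.injEq] at h1 h3 h5 ⊢
      obtain ⟨rfl, rfl, rfl⟩ := h5
      exact ⟨⟨rfl, rfl⟩, h1.1.symm.trans h3.1, rfl⟩

end PathL

open PathL

theorem p3 : P3S := by
  intro V α K K' _ _ h F t S' κ κ' G G' η ρ f hn hi fm hw hq hG hG' η0 ρ2 f0 h1 h2
  change f * ρ * η ≤ 4 * cnt (Pa h F t κ κ')
  have nc := noncen F t S' κ' η0 G' hG' hq
  set Ce := Cen F t S' κ' η with hCe
  have sp := cnt_split (fun e : V × V => F e.1 e.2) (fun e => Ce e.1 e.2)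
  have sm : cnt (fun e : V × V => F e.1 e.2 ∧ Ce e.1 e.2) ≤ ed Ce := cnt_mono fun e he => he.2
  have fC : f ≤ ed Ce := by unfold ed at h1; linarith
  have ch := cherries Ce κ G (fun a y g => hG a y g.1)
  set Ch : V × V × V → Prop := fun z => Ce z.1 z.2.1 ∧ Ce z.1 z.2.2 ∧ z.2.1 ≠ z.2.2 ∧
    κ z.1 z.2.1 = κ z.1 z.2.2 with hCh
  set Ri : V × V × V → Prop := fun z => η ≤ cnt (fun a' => Pa h F t κ κ' (z, a'))
  have ri : cnt Ri * η ≤ cnt (Pa h F t κ κ') := cnt_pair_ge fun z hz => hz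
  have ri2 : cnt (fun z : V × V × V => Ri (z.1, z.2.2, z.2.1)) ≤ cnt Ri :=
    cnt_inj (fun z => (z.1, z.2.2, z.2.1)) (fun z hz => hz) (fun z w _ _ e => by
      simp only [Prod.mk.injEq] at e; exact Prod.ext e.1 (Prod.ext e.2.2 e.2.1))
  have li : cnt Ch ≤ cnt Ri + cnt (fun z : V × V × V => Ri (z.1, z.2.2, z.2.1)) := by
    refine cnt_le_add ?_
    rintro ⟨a, y, b⟩ ⟨c1, c2, ne, hk⟩
    have ho := hw a y b c1.1 c2.1 hk
    have nt : t a y ≠ t a b := fun e => ne (fm.injU c1.1 c2.1 e)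
    rcases lt_or_gt_of_ne nt with c | c
    · exact rich hn hi fm c1 c2 ne hk ho c
    · exact (rich hn hi fm c2 c1 (Ne.symm ne) hk.symm ho.symm c).symm
  have N0 : 0 ≤ cnt Ch := cnt_nonneg _
  have P0 : 0 ≤ cnt (Pa h F t κ κ') := cnt_nonneg _
  set C := ed Ce
  set N := cnt Ch
  have key : f * ρ ≤ 2 * N := by
    rcases f0.eq_or_lt with e | fp
    · rw [← e]; linarith
    have Cp : 0 < C := by linarith
    have a1 : C * (ρ * C) ≤ C * (C + N) := by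
      calc C * (ρ * C) = ρ * C ^ 2 := by ring
        _ ≤ ρ * (G.card * (C + N)) := mul_le_mul_of_nonneg_left ch (by linarith)
        _ = ρ * G.card * (C + N) := by ring
        _ ≤ _ := mul_le_mul_of_nonneg_right (h2.trans fC) (by linarith)
    have a2 := le_of_mul_le_mul_left a1 Cp
    nlinarith
  calc f * ρ * η ≤ 4 * cnt Ri * η := mul_le_mul_of_nonneg_right (by linarith) η0
    _ ≤ _ := by linarith

namespace PathL

variable {V α : Type} [Fintype V] [LinearOrder α]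

/-- the cell of an edge -/
def cell (t : V → V → ℕ) (S : ℕ) (row col : V → ℕ → ℕ) (a y : V) : ℕ × ℕ × ℕ :=
  (t a y / S, row y (t a y / S), col y (t a y / S))

omit [Fintype V] in
lemma cell_eq {t : V → V → ℕ} {S : ℕ} {row col : V → ℕ → ℕ} {a y b z : V} :
    cell t S row col a y = cell t S row col b z ↔ t a y / S = t b z / S ∧
      row y (t b z / S) = row z (t b z / S) ∧ col y (t b z / S) = col z (t b z / S) := by
  simp only [cell, Prod.mk.injEq]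
  constructor
  · rintro ⟨h1, h2, h3⟩
    rw [h1] at h2 h3
    exact ⟨h1, h2, h3⟩
  · rintro ⟨h1, h2, h3⟩
    rw [h1]
    exact ⟨rfl, h2, h3⟩

lemma cell_le {h : V → ℕ → α} {H : V → V → Prop} {t : V → V → ℕ} {S : ℕ} {P : ℝ}
    {row col : V → ℕ → ℕ} (s : Stair h H t S P row col) (a : V) (k : ℕ × ℕ × ℕ) :
    cnt (fun y => H a y ∧ cell t S row col a y = k) ≤ P := by
  refine (cnt_mono fun y hy => ?_).trans (s.rs a k.1 k.2.1)
  obtain ⟨g, rfl⟩ := hy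
  exact ⟨g, rfl, rfl⟩

/-- paths inside a window whose last two edges lie in one cell -/
def WP (h : V → ℕ → α) (H : V → V → Prop) (t : V → V → ℕ) (S : ℕ) (row col : V → ℕ → ℕ)
    (z : (V × V × V) × V) : Prop :=
  H z.2 z.1.2.1 ∧ H z.1.1 z.1.2.1 ∧ H z.1.1 z.1.2.2 ∧ t z.2 z.1.2.1 / S = t z.1.1 z.1.2.1 / S ∧
    cell t S row col z.1.1 z.1.2.2 = cell t S row col z.1.1 z.1.2.1 ∧
    ∃ τ, τ / S = t z.1.1 z.1.2.1 / S ∧ h z.1.2.2 τ < h z.2 τ

variable {h : V → ℕ → α} {H : V → V → Prop} {t : V → V → ℕ} {S' R L θ : ℕ} {m d : ℝ}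
  {row col : V → ℕ → ℕ}

lemma many (c : Ctx h H t L θ) (s : Sc H t S' R L θ m d)
    (u : Tube h H t (S' * R) L θ m row col) :
    m * (θ:ℝ) ^ 2 ≤ (L:ℝ) ^ 14 * cnt (WP h H t (S' * R) row col) := by
  obtain ⟨n1, n2, -, n4⟩ := c.num
  have θ1 : (1:ℝ) ≤ θ := by exact_mod_cast n4
  have big := u.big
  have em := s.em
  have e0 : 0 ≤ ed H := cnt_nonneg _
  have m0 : 0 ≤ m := e0.trans em
  set X : ℝ := (L:ℝ) with hX
  set T : ℝ := (θ:ℝ) with hT
  have X0 : 0 < X := by linarith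
  have X1 : 1 ≤ X := by linarith
  set ce := cell t (S' * R) row col with hce
  set κ : V → V → (ℕ × ℕ × ℕ) × ℕ := fun a y => (ce a y, t a y / S') with hκ
  set η := T / X ^ 5 with hη
  have η0 : 0 < η := by positivity
  have ηX : X ≤ η := by rw [hη, le_div_iff₀ (by positivity)]; linarith [pow_succ' X 5]
  have Tη : T = X ^ 5 * η := by rw [hη]; field_simp
  set B : V → V → Prop := fun a y => η ≤ cnt (fun z => H a z ∧ κ a z = κ a y) with hB
  have sp := cnt_split (fun e : V × V => H e.1 e.2) (fun e => B e.1 e.2)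
  have W0 : 0 ≤ cnt (WP h H t (S' * R) row col) := cnt_nonneg _
  by_cases hc : ed H ≤ 2 * ed (fun a y => H a y ∧ B a y)
  · obtain ⟨G', g1, g2⟩ := s.g3
    set G := (univ.filter fun e : V × V => H e.1 e.2 ∧ B e.1 e.2).image
      (fun e => (e.1, κ e.1 e.2)) with hG
    have gc : G.card * η ≤ ed H := by
      refine cnt_fib_ge' (p := fun e : V × V => H e.1 e.2) (fun e => (e.1, κ e.1 e.2)) G ?_
      intro k hk
      obtain ⟨e, he, rfl⟩ := mem_image.1 hk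
      refine (mem_filter.1 he).2.2.trans (cnt_inj (fun z => (e.1, z)) ?_ ?_)
      · intro z hz; exact ⟨hz.1, Prod.ext rfl hz.2⟩
      · intro x y _ _ e; exact congrArg Prod.snd e
    have g3 : 4 * (X ^ 8 * T) * G'.card ≤ ed H / 4 := by
      have : X ^ 8 * (4 * (X ^ 8 * T) * G'.card) ≤ X ^ 8 * (ed H / 4) := by
        calc _ = 4 * (G'.card * (X ^ 16 * T)) := by ring
          _ ≤ 4 * (X ^ 7 * ed H) := by linarith
          _ = 16 * X ^ 7 * (ed H / 4) := by ring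
          _ ≤ _ := mul_le_mul_of_nonneg_right (cpw X1 (by linarith) le_rfl) (by positivity)
      exact le_of_mul_le_mul_left this (by positivity)
    have k := p3 V α _ _ h (fun a y => H a y ∧ B a y) t S' κ (fun a y => t a y / (S' * R)) G G'
      (X ^ 8 * T) (η / 4) (ed H / 4) c.na c.inj (c.fam.mono fun a y g => g.1)
      (fun a y z _ _ e => congrArg Prod.snd e)
      (fun y k w => (cnt_mono fun a ha => ⟨ha.1.1, ha.2.2⟩).trans (s.q1 y w))
      (fun a y g => mem_image.2 ⟨(a, y), mem_filter.2 ⟨mem_univ _, g⟩, rfl⟩)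
      (fun a y g => g2 a y g.1) (by positivity) (by linarith) (by positivity) (by linarith)
      (by linarith)
    have k2 := k.trans (mul_le_mul_of_nonneg_left (cnt_mono (q := WP h H t (S' * R) row col)
      fun z hz => ⟨hz.1.1, hz.2.1.1, hz.2.2.1.1, hz.2.2.2.1, congrArg Prod.fst hz.2.2.2.2.1, _,
        hz.2.2.2.1, hz.2.2.2.2.2⟩) (by norm_num))
    calc m * T ^ 2 ≤ X ^ 7 * ed H * T ^ 2 := by gcongr
      _ = 16 * X ^ 4 * (ed H / 4 * (η / 4) * (X ^ 8 * T)) := by rw [hη]; field_simp; ring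
      _ ≤ 16 * X ^ 4 * (4 * cnt (WP h H t (S' * R) row col)) := by gcongr
      _ = 64 * X ^ 4 * cnt (WP h H t (S' * R) row col) := by ring
      _ ≤ _ := mul_le_mul_of_nonneg_right (cpw X1 (by linarith) (by norm_num)) W0
  · obtain ⟨G, g1, g2⟩ := s.g2
    obtain ⟨G', g3, g4⟩ := u.cells
    have hc' : ed H ≤ 2 * ed (fun y a => H a y ∧ ¬ B a y) := by
      rw [ed_flip (fun a y => H a y ∧ ¬ B a y)]
      unfold ed at hc ⊢
      linarith
    have g5 : 4 * η * G'.card ≤ m / (4 * X ^ 7) := by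
      rw [le_div_iff₀ (by positivity)]
      have : X * (4 * η * G'.card * (4 * X ^ 7)) ≤ X * m := by
        calc _ = 16 * (G'.card * (X ^ 3 * T)) := by rw [Tη]; ring
          _ ≤ 32 * m := by linarith
          _ ≤ _ := mul_le_mul_of_nonneg_right (by linarith) m0
      exact le_of_mul_le_mul_left this X0
    have g6 : m / (4 * X ^ 7) ≤ ed H / 4 := by
      rw [div_le_iff₀ (by positivity)]; linarith
    have k := p3 V αᵒᵈ _ _ (fun v s => OrderDual.toDual (h v s)) (fun y a => H a y ∧ ¬ B a y)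
      (fun y a => t a y) S' (fun y a => t a y / S') (fun y a => ce a y) G G' η (T / (4 * X))
      (m / (4 * X ^ 7)) c.na.flip c.inj.flip (c.fam.flip.mono fun y a g => g.1)
      (fun a y z _ _ e => e) ?_ (fun y a g => g2 a y g.1) (fun y a g => g4 a y g.1) η0.le ?_
      (by positivity) (by linarith) ?_
    · have k2 := k.trans (mul_le_mul_of_nonneg_left (cnt_inj (q := WP h H t (S' * R) row col)
        (fun z => ((z.1.2.1, z.1.1, z.2), z.1.2.2)) ?_ ?_) (by norm_num))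
      · calc m * T ^ 2 = 16 * X ^ 13 * (m / (4 * X ^ 7) * (T / (4 * X)) * η) := by
              rw [hη]; field_simp; ring
          _ ≤ 16 * X ^ 13 * (4 * cnt (WP h H t (S' * R) row col)) := by gcongr
          _ = 64 * X ^ 13 * cnt (WP h H t (S' * R) row col) := by ring
          _ ≤ _ := mul_le_mul_of_nonneg_right (cpw X1 (by linarith) (by norm_num)) W0
      · rintro ⟨⟨y, a, a'⟩, b⟩ ⟨h1, h2, h3, h4, h5, h6⟩
        refine ⟨h3.1, h2.1, h1.1, ?_, h4, t a b, (cell_eq.1 h4).1, h6⟩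
        simp only at h5 ⊢
        rw [← Nat.div_div_eq_div_mul, ← Nat.div_div_eq_div_mul, h5]
      · rintro ⟨⟨y, a, a'⟩, b⟩ ⟨⟨y1, a1, a1'⟩, b1⟩ - - e
        simp only [Prod.mk.injEq] at e ⊢
        exact ⟨⟨e.1.2.1, e.1.1, e.2⟩, e.1.2.2⟩
    · intro a k w
      by_cases ex : ∃ y, (H a y ∧ ¬ B a y) ∧ ce a y = k ∧ t a y / S' = w
      · obtain ⟨y, ⟨-, h1⟩, h2, h3⟩ := ex
        exact (cnt_mono fun z hz => ⟨hz.1.1, Prod.ext (hz.2.1.trans h2.symm)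
          (hz.2.2.trans h3.symm)⟩).trans (not_le.1 h1).le
      · rw [cnt_zero fun y hy => ex ⟨y, hy⟩]; exact η0.le
    · rw [le_div_iff₀ (by positivity)]
      linarith [cpw X1 (by linarith : 8 ≤ X) (by norm_num : 1 + 1 ≤ 6)]
    · rw [le_div_iff₀ (by positivity)]
      calc _ = G.card * (X ^ 6 * (T / (4 * X) * (4 * X))) := by ring
        _ = G.card * (X ^ 6 * T) := by rw [div_mul_cancel₀ _ (by positivity)]
        _ ≤ _ := g1

lemma heavy (hs : SplitS) (c : Ctx h H t L θ) (s : Sc H t S' R L θ m d)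
    (u : Tube h H t (S' * R) L θ m row col) (K : ℝ) :
    cnt (fun z : V × V × V => H z.1 z.2.1 ∧ H z.1 z.2.2 ∧
      cell t (S' * R) row col z.1 z.2.2 = cell t (S' * R) row col z.1 z.2.1 ∧
      ¬ cod H (fun a y => t a y / (S' * R)) (t z.1 z.2.1 / (S' * R)) z.2.1 z.2.2 ≤ K) * K ≤
      36 * (L:ℝ) ^ 20 * θ * m := by
  have k := hs V α _ _ h H t (cell t (S' * R) row col) (fun a y => t a y / (S' * R)) L c.na c.fam
    c.num.2.2.1 c.tb
  have k1 := Chr_le H _ (cell_le u.toStair)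
  have k2 := Chr_le (fun y a => H a y) (fun y a => t a y / (S' * R)) s.q2
  rw [ed_flip] at k2
  have k3 : (L:ℝ) ^ 18 * θ * ed H ≤ (L:ℝ) ^ 18 * θ * m :=
    mul_le_mul_of_nonneg_left s.em (by positivity)
  refine le_trans (cnt_fib_ge (fun z => (z.1.1, z.2.1, z.2.2)) ?_) (k.trans ?_)
  · rintro ⟨a, y, b⟩ ⟨g1, g2, e, h2⟩
    refine (not_le.1 h2).le.trans (cnt_inj (fun a' => ((a, a'), (y, b))) ?_ ?_)
    · intro a' ha
      obtain ⟨e1, e2, e3⟩ := cell_eq.1 e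
      obtain ⟨g3, g4, w1, w2⟩ := ha
      simp only at e1 e2 e3 w1 w2
      refine ⟨⟨⟨g1, g2, g3, g4⟩, e.symm, cell_eq.2 ?_, w1.symm, e1.trans w2.symm⟩, rfl⟩
      simp only
      rw [w1, w2]
      exact ⟨rfl, e2.symm, e3.symm⟩
    · intro a1 a2 _ _ e
      simp only [Prod.mk.injEq] at e; exact e.1.2
  · calc _ ≤ 18 * (L:ℝ) ^ 2 * ((L:ℝ) ^ 18 * θ * m + (L:ℝ) ^ 18 * θ * m) := by
          gcongr <;> linarith
      _ = _ := by ring

end PathL

theorem path (hs : SplitS) (_ : P3S) : PathS := by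
  intro V α _ _ h H t S' R L θ m d row col c s u
  have k1 := many c s u
  have k2 := heavy hs c s u ((L:ℝ) ^ 53)
  obtain ⟨n1, n2, -, n4⟩ := c.num
  have m0 : 0 ≤ m := (cnt_nonneg _).trans s.em
  set He : V × V × V → Prop := fun z => H z.1 z.2.1 ∧ H z.1 z.2.2 ∧
    cell t (S' * R) row col z.1 z.2.2 = cell t (S' * R) row col z.1 z.2.1 ∧
    ¬ cod H (fun a y => t a y / (S' * R)) (t z.1 z.2.1 / (S' * R)) z.2.1 z.2.2 ≤ (L:ℝ) ^ 53
  have k3 := cnt_le_add (p := WP h H t (S' * R) row col)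
    (q := GP h H t (S' * R) row col ((L:ℝ) ^ 53))
    (r := fun z => He z.1 ∧ H z.2 z.1.2.1 ∧ t z.2 z.1.2.1 / (S' * R) = t z.1.1 z.1.2.1 / (S' * R))
    (fun z ⟨g1, g2, g3, w, e, l⟩ => by
      by_cases hK : cod H (fun a y => t a y / (S' * R)) (t z.1.1 z.1.2.1 / (S' * R)) z.1.2.1
        z.1.2.2 ≤ (L:ℝ) ^ 53
      · obtain ⟨e1, e2, e3⟩ := cell_eq.1 e
        exact Or.inl ⟨g1, g2, g3, w, e1, e2, e3, l, hK⟩
      · exact Or.inr ⟨⟨g2, g3, e, hK⟩, g1, w⟩)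
  have k4 := cnt_pair_le (p := fun z : (V × V × V) × V => He z.1 ∧ H z.2 z.1.2.1 ∧
    t z.2 z.1.2.1 / (S' * R) = t z.1.1 z.1.2.1 / (S' * R)) (q := He) (K := (L:ℝ) ^ 18 * θ)
    (fun z a hz => hz.1) (fun z _ => (cnt_mono fun a ha => ha.2).trans
      (s.q2 z.2.1 (t z.1 z.2.1 / (S' * R))))
  set X : ℝ := (L:ℝ)
  set T : ℝ := (θ:ℝ)
  have X0 : 0 < X := by linarith
  have k5 : 2 * X ^ 14 * (cnt He * (X ^ 18 * T)) ≤ m * T ^ 2 := by
    have : X ^ 21 * (2 * X ^ 14 * (cnt He * (X ^ 18 * T))) ≤ X ^ 21 * (m * T ^ 2) := by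
      calc _ = 2 * T * (cnt He * X ^ 53) := by ring
        _ ≤ 2 * T * (36 * X ^ 20 * T * m) := by gcongr
        _ = 72 * X ^ 20 * (m * T ^ 2) := by ring
        _ ≤ _ := mul_le_mul_of_nonneg_right (cpw (by linarith) (by linarith) le_rfl)
            (by positivity)
    exact le_of_mul_le_mul_left this (by positivity)
  have k6 := mul_le_mul_of_nonneg_left (k3.trans (add_le_add le_rfl k4))
    (by positivity : 0 ≤ X ^ 14)
  linarith

end Pool.Agent.Lib.MP_65c801_co.T
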