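import Pool.Agent.Lib.MP_65c801_co.T.St

/-! Four-cycles of the split graph. -/

namespace Pool.Agent.Lib.MP_65c801_co.T

open Finset Classical

theorem split : SplitS := by
  intro V α K K' _ _ h H t κ κ' L hn f L1 tb
  set T1 := (univ : Finset (V × V)).image (fun e => (e.1, κ e.1 e.2)) with hT1
  set T2 := (univ : Finset (V × V)).image (fun e => (e.2, κ' e.1 e.2)) with hT2
  have m1 : ∀ a x, (a, κ a x) ∈ T1 := fun a x => mem_image_of_mem _ (mem_univ (a, x))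
  have m2 : ∀ a x, (x, κ' a x) ∈ T2 := fun a x => mem_image_of_mem _ (mem_univ (a, x))
  set G : T1 → T2 → Prop := fun p q =>
    H p.1.1 q.1.1 ∧ κ p.1.1 q.1.1 = p.1.2 ∧ κ' p.1.1 q.1.1 = q.1.2 with hG
  have sg : SignOK G fun p q => t p.1.1 q.1.1 := fun a b x y g1 g2 g3 g4 =>
    f.sign hn _ _ _ _ g1.1 g2.1 g3.1 g4.1
  have i1 := ident sg L1 fun p q g => tb _ _ g.1
  have c1 : Sp4 H κ κ' ≤ cnt (C4 G) := by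
    refine cnt_inj (fun z => ((⟨_, m1 z.1.1 z.2.1⟩, ⟨_, m1 z.1.2 z.2.1⟩),
      (⟨_, m2 z.1.1 z.2.1⟩, ⟨_, m2 z.1.1 z.2.2⟩))) ?_ ?_
    · rintro z ⟨⟨g1, g2, g3, g4⟩, e1, e2, e3, e4⟩
      exact ⟨⟨g1, rfl, rfl⟩, ⟨g2, e1.symm, rfl⟩, ⟨g3, rfl, e3.symm⟩, g4, e2.symm, e4.symm⟩
    · intro z w _ _ e
      simp only [Prod.mk.injEq, Subtype.mk.injEq] at e
      exact Prod.ext (Prod.ext e.1.1.1 e.1.2.1) (Prod.ext e.2.1.1 e.2.2.1)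
  have z1 : ZL G (fun p q => t p.1.1 q.1.1) ≤ Chr (fun y a => H a y) (fun y a => κ' a y) := by
    refine cnt_inj (fun z => (z.2.1.1.1, z.1.1.1.1, z.1.2.1.1)) ?_ ?_
    · rintro z ⟨⟨g1, -, g3, -⟩, -⟩
      exact ⟨g1.1, g3.1, g1.2.2.trans g3.2.2.symm⟩
    · rintro ⟨⟨⟨⟨a, k⟩, _⟩, ⟨⟨b, l⟩, _⟩⟩, ⟨⟨x, u⟩, _⟩, ⟨⟨y, v⟩, _⟩⟩
        ⟨⟨⟨⟨a', k'⟩, _⟩, ⟨⟨b', l'⟩, _⟩⟩, ⟨⟨x', u'⟩, _⟩, ⟨⟨y', v'⟩, _⟩⟩ ⟨⟨g1, g2, g3, -⟩, e1⟩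
        ⟨⟨g1', g2', g3', -⟩, e2⟩ e
      simp only [Prod.mk.injEq, hG] at e g1 g2 g3 g1' g2' g3' e1 e2
      obtain ⟨rfl, rfl, rfl⟩ := e
      obtain rfl := f.injU g1.1 g2.1 e1
      obtain rfl := f.injU g1'.1 g2'.1 e2
      simp only [Prod.mk.injEq, Subtype.mk.injEq, true_and]
      exact ⟨⟨g1.2.1.symm.trans g1'.2.1, g3.2.1.symm.trans g3'.2.1⟩,
        g1.2.2.symm.trans g1'.2.2, g2.2.2.symm.trans g2'.2.2⟩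
  have z2 : ZU G (fun p q => t p.1.1 q.1.1) ≤ Chr H κ := by
    refine cnt_inj (fun z => (z.2.1.1.1, z.1.1.1.1, z.1.2.1.1)) ?_ ?_
    · rintro z ⟨⟨g1, -, g3, -⟩, -⟩
      exact ⟨g1.1, g3.1, g1.2.1.trans g3.2.1.symm⟩
    · rintro ⟨⟨⟨⟨a, k⟩, _⟩, ⟨⟨b, l⟩, _⟩⟩, ⟨⟨x, u⟩, _⟩, ⟨⟨y, v⟩, _⟩⟩
        ⟨⟨⟨⟨a', k'⟩, _⟩, ⟨⟨b', l'⟩, _⟩⟩, ⟨⟨x', u'⟩, _⟩, ⟨⟨y', v'⟩, _⟩⟩ ⟨⟨g1, g2, g3, -⟩, e1⟩
        ⟨⟨g1', g2', g3', -⟩, e2⟩ e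
      simp only [Prod.mk.injEq, hG] at e g1 g2 g3 g1' g2' g3' e1 e2
      obtain ⟨rfl, rfl, rfl⟩ := e
      obtain rfl := f.injL g1.1 g2.1 e1
      obtain rfl := f.injL g1'.1 g2'.1 e2
      simp only [Prod.mk.injEq, Subtype.mk.injEq, true_and]
      exact ⟨⟨g1.2.2.symm.trans g1'.2.2, g3.2.2.symm.trans g3'.2.2⟩,
        g1.2.1.symm.trans g1'.2.1, g2.2.1.symm.trans g2'.2.1⟩
  exact c1.trans (i1.trans (mul_le_mul_of_nonneg_left (by linarith) (by positivity)))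

end Pool.Agent.Lib.MP_65c801_co.T
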