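import Pool.Agent.Lib.MP_65c801_co.Cut

/-! The exponent `10/7` for families of lenses: definitions and the statements of the steps. -/

namespace Pool.Agent.Lib.MP_65c801_co.T

open Finset Classical

section Defs

variable {V α K K' : Type} [Fintype V] [LinearOrder α]

/-- the number of edges -/
noncomputable abbrev ed (E : V → V → Prop) : ℝ := cnt fun e : V × V => E e.1 e.2

/-- pairs of edges with the same first end and the same key -/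
noncomputable def Chr (H : V → V → Prop) (κ : V → V → K) : ℝ :=
  cnt fun z : V × V × V => H z.1 z.2.1 ∧ H z.1 z.2.2 ∧ κ z.1 z.2.1 = κ z.1 z.2.2

/-- four-cycles with equal keys `κ` at the first ends and equal keys `κ'` at the second ends -/
noncomputable def Sp4 (H : V → V → Prop) (κ : V → V → K) (κ' : V → V → K') : ℝ :=
  cnt fun z : (V × V) × (V × V) => C4 H z ∧ κ z.1.1 z.2.1 = κ z.1.1 z.2.2 ∧
    κ z.1.2 z.2.1 = κ z.1.2 z.2.2 ∧ κ' z.1.1 z.2.1 = κ' z.1.2 z.2.1 ∧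
    κ' z.1.1 z.2.2 = κ' z.1.2 z.2.2

/-- four-cycles with distinct second ends and equal keys at the first ends -/
noncomputable def Q4 (H : V → V → Prop) (κ : V → V → K) : ℝ :=
  cnt fun z : (V × V) × (V × V) => C4 H z ∧ z.2.1 ≠ z.2.2 ∧ κ z.1.1 z.2.1 = κ z.1.1 z.2.2 ∧
    κ z.1.2 z.2.1 = κ z.1.2 z.2.2

/-- all subgraphs have few four-cycles inside the groups -/
def IncOK (H : V → V → Prop) (κ : V → V → K) (C P : ℝ) : Prop :=
  ∀ H0 : V → V → Prop, (∀ c y, H0 c y → H c y) → Q4 H0 κ ≤ C * (Chr H0 κ + P * ed H0)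

/-- four-cycles that are degenerate at the first vertex -/
noncomputable def Zc (Γ : V → V → Prop) (z : V → V → V → Prop) : ℝ :=
  cnt fun q : (V × V) × (V × V) => C4 Γ q ∧ z q.1.1 q.2.1 q.2.2

/-- common neighbours with an equal key -/
noncomputable def cc (Γ : V → V → Prop) (k1 k2 : V → V → K) (x y : V) : ℝ :=
  cnt fun a => Γ a x ∧ Γ a y ∧ (k1 a x = k1 a y ∨ k2 a x = k2 a y)

/-- the sign rule with a sign `s` at the first ends that may vanish -/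
def PSign (Γ : V → V → Prop) (lab : V → V → ℕ) (s : V → V → V → ℝ) : Prop :=
  (∀ a x y, s a x y = 0 ∨ s a x y = 1 ∨ s a x y = -1) ∧
  ∀ a b x y, Γ a x → Γ a y → Γ b x → Γ b y → s a x y ≠ 0 → s b x y ≠ 0 → lab a x ≠ lab b x →
    lab a y ≠ lab b y →
    s a x y * s b x y * (sg (lab a x) (lab b x) * sg (lab a y) (lab b y)) = -1

/-- every `K_{3,3}` is degenerate -/
def K33 (Γ : V → V → Prop) (zA zX : V → V → V → Prop) : Prop :=
  ∀ a b c x y z, Γ a x → Γ a y → Γ a z → Γ b x → Γ b y → Γ b z → Γ c x → Γ c y → Γ c z →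
    ¬ zA a x y → ¬ zA a y z → ¬ zA a x z → ¬ zA b x y → ¬ zA b y z → ¬ zA b x z →
    ¬ zA c x y → ¬ zA c y z → ¬ zA c x z → ¬ zX x a b → ¬ zX x b c → ¬ zX x a c →
    ¬ zX y a b → ¬ zX y b c → ¬ zX y a c → ¬ zX z a b → ¬ zX z b c → ¬ zX z a c → False

/-- the function `c` is dominated by incidences of weighted groups -/
def StemOK (c : V → ℝ) (x : V) (L : ℕ) (D σ P : ℝ) : Prop :=
  ∃ (K : Type) (H : V → V → Prop) (κ : V → V → K) (st : V × V × V → Prop)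
    (gr : V × V × V → V × K) (ν S : ℝ), IncOK H κ (216 * (L:ℝ) ^ 2) P ∧ 0 < ν ∧ 0 ≤ S ∧
    S ≤ σ * ν ∧ cnt st ≤ D * S ∧ (∀ γ, cnt (fun p => st p ∧ gr p = γ) ≤ S) ∧
    ∀ y, y ≠ x → ν * c y ≤ cnt (fun p => st p ∧ H (gr p).1 y ∧ κ (gr p).1 y = (gr p).2)

/-- `y` is below `z` at both ends of the window `w` -/
def Co (h : V → ℕ → α) (S w : ℕ) (y z : V) : Prop :=
  h y (w * S) < h z (w * S) ∧ h y (w * S + (S - 1)) < h z (w * S + (S - 1))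

/-- `y` is below `z` at the start and above `z` at the end of the window `w` -/
def Anti (h : V → ℕ → α) (S w : ℕ) (y z : V) : Prop :=
  h y (w * S) < h z (w * S) ∧ h z (w * S + (S - 1)) < h y (w * S + (S - 1))

/-- the standing assumptions -/
structure Ctx (h : V → ℕ → α) (E : V → V → Prop) (t : V → V → ℕ) (L θ : ℕ) : Prop where
  na : NoAlt h
  inj : Inj h
  fam : Fam h E t
  tb : ∀ a y, E a y → t a y < 2 ^ L
  L0 : 4096 ≤ L
  cb : (Fintype.card V : ℝ) ^ 3 < 2 ^ L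
  cθ : (Fintype.card V : ℝ) ≤ (θ:ℝ) ^ 7
  θ0 : L ^ 6 ≤ θ

/-- the two scales `S'` and `S' * R` -/
structure Sc (E : V → V → Prop) (t : V → V → ℕ) (S' R L θ : ℕ) (m d : ℝ) : Prop where
  S0 : 0 < S'
  R0 : 0 < R
  em : ed E ≤ m
  dL : ∀ a, cnt (fun y => E a y) ≤ d
  dU : ∀ y, cnt (fun a => E a y) ≤ d
  q1 : ∀ y w, cnt (fun a => E a y ∧ t a y / S' = w) ≤ (L:ℝ) ^ 8 * θ
  q2 : ∀ y w, cnt (fun a => E a y ∧ t a y / (S' * R) = w) ≤ (L:ℝ) ^ 18 * θ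
  g1 : ∃ G : Finset (V × ℕ), G.card * ((L:ℝ) ^ 6 * θ) ≤ m ∧ ∀ a y, E a y → (a, t a y / S') ∈ G
  g2 : ∃ G : Finset (V × ℕ), G.card * ((L:ℝ) ^ 6 * θ) ≤ m ∧ ∀ a y, E a y → (y, t a y / S') ∈ G
  g3 : ∃ G : Finset (V × ℕ), G.card * ((L:ℝ) ^ 16 * θ) ≤ m ∧
    ∀ a y, E a y → (y, t a y / (S' * R)) ∈ G
  d1 : (L:ℝ) ^ 130 * (θ:ℝ) ^ 3 ≤ d
  d2 : (θ:ℝ) ^ 7 * d ≤ L * m

/-- few partners in the same order at both ends of the window -/
def FewCo (h : V → ℕ → α) (E : V → V → Prop) (t : V → V → ℕ) (S L θ : ℕ) : Prop :=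
  ∀ a y, E a y → cnt (fun z => E a z ∧ t a z / S = t a y / S ∧
    (Co h S (t a y / S) y z ∨ Co h S (t a y / S) z y)) ≤ (L:ℝ) ^ 2 * θ

/-- many pairs of edges in small groups whose upper ends are in the same order at both ends -/
structure BoxB (h : V → ℕ → α) (E : V → V → Prop) (t : V → V → ℕ) (S L θ : ℕ) (m : ℝ)
    (H0 H1 : V → V → Prop) (κ : V → V → K) : Prop where
  s0 : ∀ a y, H0 a y → E a y
  s1 : ∀ a y, H1 a y → E a y
  win : ∀ a y z, κ a y = κ a z → t a y / S = t a z / S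
  co : ∀ a y z, H0 a y → H1 a z → κ a y = κ a z → Co h S (t a y / S) y z
  c0 : ∀ a k, cnt (fun y => H0 a y ∧ κ a y = k) ≤ 2 * θ
  c1 : ∀ a k, cnt (fun y => H1 a y ∧ κ a y = k) ≤ 2 * θ
  many : θ * m ≤ (L:ℝ) ^ 5 *
    cnt fun z : V × V × V => H0 z.1 z.2.1 ∧ H1 z.1 z.2.2 ∧ κ z.1 z.2.1 = κ z.1 z.2.2

/-- rows and columns of bounded size that form a staircase at each lower curve -/
structure Stair (h : V → ℕ → α) (H : V → V → Prop) (t : V → V → ℕ) (S : ℕ) (P : ℝ)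
    (row col : V → ℕ → ℕ) : Prop where
  r0 : ∀ w y z, row y w < row z w → h y (w * S) < h z (w * S)
  c0 : ∀ w y z, col y w < col z w → h y (w * S + (S - 1)) < h z (w * S + (S - 1))
  st : ∀ a y z w, H a y → H a z → t a y / S = w → t a z / S = w → row y w < row z w →
    col z w ≤ col y w
  rs : ∀ a w r, cnt (fun y => H a y ∧ t a y / S = w ∧ row y w = r) ≤ P
  cs : ∀ a w r, cnt (fun y => H a y ∧ t a y / S = w ∧ col y w = r) ≤ P

/-- a large subfamily with a staircase and few cells -/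
structure Tube (h : V → ℕ → α) (H : V → V → Prop) (t : V → V → ℕ) (S L θ : ℕ) (m : ℝ)
    (row col : V → ℕ → ℕ) : Prop extends Stair h H t S ((L:ℝ) ^ 18 * θ) row col where
  ok : PathOK h H t S
  big : m ≤ (L:ℝ) ^ 7 * ed H
  cells : ∃ G : Finset (V × ℕ × ℕ × ℕ), G.card * ((L:ℝ) ^ 3 * θ) ≤ 2 * m ∧
    ∀ a y, H a y → (a, t a y / S, row y (t a y / S), col y (t a y / S)) ∈ G

/-- good paths `a' - y - a - b`, written `((a, y, b), a')` -/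
def GP (h : V → ℕ → α) (H : V → V → Prop) (t : V → V → ℕ) (S : ℕ) (row col : V → ℕ → ℕ) (K : ℝ)
    (z : (V × V × V) × V) : Prop :=
  H z.2 z.1.2.1 ∧ H z.1.1 z.1.2.1 ∧ H z.1.1 z.1.2.2 ∧
    t z.2 z.1.2.1 / S = t z.1.1 z.1.2.1 / S ∧ t z.1.1 z.1.2.2 / S = t z.1.1 z.1.2.1 / S ∧
    row z.1.2.2 (t z.1.1 z.1.2.1 / S) = row z.1.2.1 (t z.1.1 z.1.2.1 / S) ∧
    col z.1.2.2 (t z.1.1 z.1.2.1 / S) = col z.1.2.1 (t z.1.1 z.1.2.1 / S) ∧
    (∃ τ, τ / S = t z.1.1 z.1.2.1 / S ∧ h z.1.2.2 τ < h z.2 τ) ∧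
    cod H (fun a y => t a y / S) (t z.1.1 z.1.2.1 / S) z.1.2.1 z.1.2.2 ≤ K

end Defs

/-! ### abstract steps -/

/-- four-cycles of the split graph -/
def SplitS : Prop := ∀ (V α K K' : Type) [Fintype V] [LinearOrder α] (h : V → ℕ → α)
  (H : V → V → Prop) (t : V → V → ℕ) (κ : V → V → K) (κ' : V → V → K') (L : ℕ), NoAlt h →
  Fam h H t → 1 ≤ L → (∀ a y, H a y → t a y < 2 ^ L) →
  Sp4 H κ κ' ≤ 18 * (L:ℝ) ^ 2 * (Chr H κ + Chr (fun y a => H a y) (fun y a => κ' a y))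

/-- the identity for a sign that may vanish -/
def IdS : Prop := ∀ (V : Type) [Fintype V] (Γ : V → V → Prop) (lab : V → V → ℕ)
  (s : V → V → V → ℝ) (L : ℕ), PSign Γ lab s → 1 ≤ L → (∀ a x, Γ a x → lab a x < 2 ^ L) →
  cnt (C4 Γ) ≤ 18 * (L:ℝ) ^ 2 * (Zc Γ (fun a x y => s a x y = 0) +
    Zc (fun x a => Γ a x) (fun x a b => lab a x = lab b x)) ∧
  K33 Γ (fun a x y => s a x y = 0) (fun x a b => lab a x = lab b x)

/-- the sign of a graph of lenses -/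
def SignS : Prop := ∀ (V α : Type) [Fintype V] [LinearOrder α] (h : V → ℕ → α)
  (Γ : V → V → Prop) (lab : V → V → ℕ) (S : ℕ), NoAlt h → Inj h → 0 < S →
  (∀ a b, Γ a b → Lens h S (lab a b) a b) → ∃ s, PSign Γ lab s ∧ ∀ a x y, s a x y = 0 →
    lab a x = lab a y ∧ ¬ Anti h S (lab a x) x y ∧ ¬ Anti h S (lab a x) y x

/-- the incidence bound for groups and ends -/
def IncS : Prop := ∀ (V K : Type) [Fintype V] (H : V → V → Prop) (κ : V → V → K) (C P : ℝ),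
  IncOK H κ C P → 0 ≤ C → 1 ≤ P → ∀ (G : Finset (V × K)) (U : V → Prop) (e : ℝ),
  e = ed (fun c y => H c y ∧ (c, κ c y) ∈ G ∧ U y) →
  e ≤ 2 * G.card ∨ e ^ 2 ≤ 4 * C * cnt U ^ 2 * G.card ∨
    e ^ 3 ≤ 16 * C * (G.card:ℝ) ^ 2 * cnt U ^ 2 * P

/-- groups at the lower curves -/
def I1S : Prop := ∀ (V α K : Type) [Fintype V] [LinearOrder α] (h : V → ℕ → α)
  (H : V → V → Prop) (t : V → V → ℕ) (κ : V → V → K) (S L : ℕ) (P : ℝ), NoAlt h → Fam h H t →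
  1 ≤ L → (∀ a y, H a y → t a y < 2 ^ L) →
  (∀ a y z, H a y → H a z → κ a y = κ a z → t a y / S = t a z / S) →
  (∀ y w, cnt (fun a => H a y ∧ t a y / S = w) ≤ P) → IncOK H κ (216 * (L:ℝ) ^ 2) P

/-- groups at the upper curves -/
def I2S : Prop := ∀ (V α : Type) [Fintype V] [LinearOrder α] (h : V → ℕ → α)
  (H : V → V → Prop) (t : V → V → ℕ) (S L : ℕ) (P : ℝ) (row col : V → ℕ → ℕ), NoAlt h →
  Fam h H t → 1 ≤ L → (∀ a y, H a y → t a y < 2 ^ L) → 0 < S → Stair h H t S P row col →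
  IncOK (fun y a => H a y) (fun y a => t a y / S) (216 * (L:ℝ) ^ 2) P

/-- degenerate four-cycles -/
def SideS : Prop := ∀ (V K : Type) [Fintype V] (Γ : V → V → Prop) (zA zX : V → V → V → Prop)
  (k1 k2 : V → V → K) (k D ze : ℝ), K33 Γ zA zX →
  (∀ a x y, Γ a x → Γ a y → zA a x y → k1 a x = k1 a y ∨ k2 a x = k2 a y) →
  (∀ a u, cnt (fun x => Γ a x ∧ k1 a x = u) ≤ k) → (∀ a u, cnt (fun x => Γ a x ∧ k2 a x = u) ≤ k) →
  (∀ x c, Γ c x → cnt (fun a => Γ a x ∧ zX x c a) ≤ 2 * k) → (∀ x, cnt (fun a => Γ a x) ≤ D) →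
  0 < ze → 0 < k → 2 * k ≤ ze ^ 2 * D →
  Zc Γ zA ≤ 26 * ze * k * D * ed Γ + 12 * ∑ x, ∑ y, cc Γ k1 k2 x y ^ 2

/-- doubly degenerate four-cycles -/
def StemS : Prop := ∀ (V : Type) [Fintype V] (c : V → ℝ) (x : V) (L : ℕ) (D σ P k Y : ℝ), 1 ≤ L →
  (Fintype.card V : ℝ) ^ 3 < 2 ^ L → (∀ y, c y = 0 ∨ 1 ≤ c y) → (∀ y, c y ≤ D) →
  (∀ y, c y < 2 ^ L) → ∑ y, c y ≤ 2 * D * k → 1 ≤ P → 0 ≤ σ → σ * P ≤ k → 0 ≤ Y →
  55296 * (L:ℝ) ^ 5 * D ^ 3 * σ ^ 2 * k ^ 2 ≤ Y ^ 2 → StemOK c x L D σ P →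
  ∑ y, (if y = x then 0 else c y ^ 2) ≤ 4 * L * (4 * L * D ^ 2 * σ + Y)

/-- a dense graph of lenses with small groups does not exist -/
def CoreS : Prop := ∀ (V α K : Type) [Fintype V] [LinearOrder α] (h : V → ℕ → α)
  (Γ : V → V → Prop) (lab : V → V → ℕ) (k1 k2 : V → V → K) (S L θ : ℕ) (d σ : ℝ), NoAlt h →
  Inj h → 0 < S → 4096 ≤ L → (Fintype.card V : ℝ) ^ 3 < 2 ^ L →
  (Fintype.card V : ℝ) ≤ (θ:ℝ) ^ 7 → 1 ≤ θ → (L:ℝ) ^ 130 * (θ:ℝ) ^ 3 ≤ d →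
  (θ:ℝ) ≤ (L:ℝ) ^ 35 * σ → (θ:ℝ) ^ 7 * (d * σ) ≤ (L:ℝ) ^ 54 * ed Γ →
  (∀ a b, Γ a b → Lens h S (lab a b) a b) → (∀ a b, Γ a b → lab a b < 2 ^ L) →
  (∀ a, cnt (fun x => Γ a x) ≤ d * σ) → (∀ x, cnt (fun a => Γ a x) ≤ d * σ) →
  (∀ a x y, Γ a x → Γ a y → lab a x = lab a y → ¬ Anti h S (lab a x) x y →
    ¬ Anti h S (lab a x) y x → k1 a x = k1 a y ∨ k2 a x = k2 a y) →
  (∀ a u, cnt (fun x => Γ a x ∧ k1 a x = u) ≤ σ * ((L:ℝ) ^ 18 * θ)) →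
  (∀ a u, cnt (fun x => Γ a x ∧ k2 a x = u) ≤ σ * ((L:ℝ) ^ 18 * θ)) →
  (∀ x u, cnt (fun a => Γ a x ∧ lab a x = u) ≤ σ * ((L:ℝ) ^ 18 * θ)) →
  (∀ x, StemOK (cc Γ k1 k2 x) x L (d * σ) σ ((L:ℝ) ^ 18 * θ)) →
  (∀ a, StemOK (cc (fun x a => Γ a x) (fun x a => lab a x) (fun x a => lab a x) a) a L (d * σ) σ
    ((L:ℝ) ^ 18 * θ)) → False

/-! ### geometric steps -/

/-- the choice of the scales -/
def ScaleS : Prop := ∀ (V α : Type) [Fintype V] [LinearOrder α] (h : V → ℕ → α)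
  (E : V → V → Prop) (t : V → V → ℕ) (L θ : ℕ) (d : ℝ), Ctx h E t L θ →
  (∀ a, cnt (fun y => E a y) ≤ d) → (∀ y, cnt (fun a => E a y) ≤ d) →
  (L:ℝ) ^ 130 * (θ:ℝ) ^ 3 ≤ d → (θ:ℝ) ^ 7 * d ≤ L * ed E →
  (∃ (F : V → V → Prop) (S' R : ℕ), (∀ a y, F a y → E a y) ∧ Sc F t S' R L θ (ed E) d ∧
    ed E ≤ 4 * (L:ℝ) ^ 2 * ed F) ∨
  ∃ (F : V → V → Prop) (S' R : ℕ), (∀ y a, F y a → E a y) ∧
    Sc F (fun y a => t a y) S' R L θ (ed E) d ∧ ed E ≤ 4 * (L:ℝ) ^ 2 * ed F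

/-- the dichotomy of the dyadic boxes -/
def BoxS : Prop := ∀ (V α : Type) [Fintype V] [LinearOrder α] (h : V → ℕ → α)
  (E : V → V → Prop) (t : V → V → ℕ) (S L θ : ℕ) (m : ℝ), Ctx h E t L θ →
  m ≤ 4 * (L:ℝ) ^ 2 * ed E →
  (∃ F : V → V → Prop, (∀ a y, F a y → E a y) ∧ m ≤ 8 * (L:ℝ) ^ 2 * ed F ∧ FewCo h F t S L θ) ∨
  ∃ (H0 H1 : V → V → Prop) (κ : V → V → ℕ × ℕ × ℕ × ℕ), BoxB h E t S L θ m H0 H1 κ

/-- the case of many ordered pairs -/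
def CaseBS : Prop := ∀ (V α K : Type) [Fintype V] [LinearOrder α] (h : V → ℕ → α)
  (E : V → V → Prop) (t : V → V → ℕ) (S' R L θ : ℕ) (m d : ℝ) (H0 H1 : V → V → Prop)
  (κ : V → V → K), Ctx h E t L θ → Sc E t S' R L θ m d → BoxB h E t (S' * R) L θ m H0 H1 κ → False

/-- the staircase -/
def TubeS : Prop := ∀ (V α : Type) [Fintype V] [LinearOrder α] (h : V → ℕ → α)
  (E : V → V → Prop) (t : V → V → ℕ) (S' R L θ : ℕ) (m d : ℝ), Ctx h E t L θ →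
  Sc E t S' R L θ m d → m ≤ 8 * (L:ℝ) ^ 2 * ed E → FewCo h E t (S' * R) L θ →
  ∃ (H : V → V → Prop) (row col : V → ℕ → ℕ), (∀ a y, H a y → E a y) ∧
    Tube h H t (S' * R) L θ m row col

/-- many paths from central cherries -/
def P3S : Prop := ∀ (V α K K' : Type) [Fintype V] [LinearOrder α] (h : V → ℕ → α)
  (F : V → V → Prop) (t : V → V → ℕ) (S' : ℕ) (κ : V → V → K) (κ' : V → V → K')
  (G : Finset (V × K)) (G' : Finset (V × K')) (η ρ f : ℝ), NoAlt h → Inj h → Fam h F t →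
  (∀ a y z, F a y → F a z → κ a y = κ a z → t a y / S' = t a z / S') →
  (∀ y k w, cnt (fun a => F a y ∧ κ' a y = k ∧ t a y / S' = w) ≤ η) →
  (∀ a y, F a y → (a, κ a y) ∈ G) → (∀ a y, F a y → (y, κ' a y) ∈ G') → 0 ≤ η → 2 ≤ ρ → 0 ≤ f →
  f + 4 * η * G'.card ≤ ed F → ρ * G.card ≤ f →
  f * ρ * η ≤ 4 * cnt fun z : (V × V × V) × V => F z.2 z.1.2.1 ∧ F z.1.1 z.1.2.1 ∧
    F z.1.1 z.1.2.2 ∧ κ' z.2 z.1.2.1 = κ' z.1.1 z.1.2.1 ∧ κ z.1.1 z.1.2.2 = κ z.1.1 z.1.2.1 ∧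
    h z.1.2.2 (t z.2 z.1.2.1) < h z.2 (t z.2 z.1.2.1)

/-- many good paths -/
def PathS : Prop := ∀ (V α : Type) [Fintype V] [LinearOrder α] (h : V → ℕ → α)
  (H : V → V → Prop) (t : V → V → ℕ) (S' R L θ : ℕ) (m d : ℝ) (row col : V → ℕ → ℕ),
  Ctx h H t L θ → Sc H t S' R L θ m d → Tube h H t (S' * R) L θ m row col →
  m * (θ:ℝ) ^ 2 ≤ 2 * (L:ℝ) ^ 14 * cnt (GP h H t (S' * R) row col ((L:ℝ) ^ 53))

/-- the case of the staircase -/
def CaseAS : Prop := ∀ (V α : Type) [Fintype V] [LinearOrder α] (h : V → ℕ → α)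
  (H : V → V → Prop) (t : V → V → ℕ) (S' R L θ : ℕ) (m d : ℝ) (row col : V → ℕ → ℕ),
  Ctx h H t L θ → Sc H t S' R L θ m d → Tube h H t (S' * R) L θ m row col →
  m * (θ:ℝ) ^ 2 ≤ 2 * (L:ℝ) ^ 14 * cnt (GP h H t (S' * R) row col ((L:ℝ) ^ 53)) → False

/-- dense regular families do not exist -/
def NoS : Prop := ∀ (V α : Type) [Fintype V] [LinearOrder α] (h : V → ℕ → α)
  (E : V → V → Prop) (t : V → V → ℕ) (L θ : ℕ) (d : ℝ), Ctx h E t L θ →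
  (∀ a, cnt (fun y => E a y) ≤ d) → (∀ y, cnt (fun a => E a y) ≤ d) →
  (L:ℝ) ^ 130 * (θ:ℝ) ^ 3 ≤ d → (θ:ℝ) ^ 7 * d ≤ L * ed E → False

/-- the bound for families of lenses -/
def FamS : Prop := ∀ L i : ℕ, 4096 ≤ L → 21 * i < L → ∀ (V α : Type) [Fintype V] [LinearOrder α]
  (h : V → ℕ → α) (E : V → V → Prop) (t : V → V → ℕ), NoAlt h → Inj h → Fam h E t →
  (∀ a y, E a y → t a y < 2 ^ L) → Fintype.card V ≤ 2 ^ (7 * i) →
  ed E ≤ (L:ℝ) ^ 130 * 2 ^ (10 * i)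

/-- the cutting theorem in the discrete model with the exponent `β` -/
def CutD (β : ℝ) : Prop := ∃ C : ℝ, 0 < C ∧ ∀ (V α : Type) [Fintype V] [LinearOrder α]
  (h : V → ℕ → α), NoAlt h → Inj h → ∀ n M : ℕ, 1 ≤ n → Fintype.card V ≤ n → M ≤ n ^ 2 →
  ∃ X : Finset (V × ℕ), (X.card : ℝ) ≤ C * (n:ℝ) ^ β ∧
    ∀ a y, BLens h M a y → ∃ τ < M, h y τ < h a τ ∧ ((a, τ) ∈ X ∨ (y, τ) ∈ X)

/-! ### tools -/

section Tools

variable {V α K : Type} [Fintype V] [LinearOrder α] {h : V → ℕ → α} {E F : V → V → Prop}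
  {t : V → V → ℕ} {S' R L θ : ℕ} {m d : ℝ}

lemma ed_mono (hF : ∀ a y, F a y → E a y) : ed F ≤ ed E := cnt_mono fun _ he => hF _ _ he

lemma ed_flip (E : V → V → Prop) : ed (fun y a => E a y) = ed E :=
  cnt_swap fun e : V × V => E e.1 e.2

lemma Ctx.mono (c : Ctx h E t L θ) (hF : ∀ a y, F a y → E a y) : Ctx h F t L θ :=
  ⟨c.na, c.inj, c.fam.mono hF, fun a y g => c.tb a y (hF a y g), c.L0, c.cb, c.cθ, c.θ0⟩

lemma Ctx.flip (c : Ctx h E t L θ) :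
    Ctx (fun v s => OrderDual.toDual (h v s)) (fun y a => E a y) (fun y a => t a y) L θ :=
  ⟨c.na.flip, c.inj.flip, c.fam.flip, fun y a g => c.tb a y g, c.L0, c.cb, c.cθ, c.θ0⟩

lemma Sc.mono (s : Sc E t S' R L θ m d) (hF : ∀ a y, F a y → E a y) : Sc F t S' R L θ m d :=
  ⟨s.S0, s.R0, (ed_mono hF).trans s.em, fun a => (cnt_mono fun y => hF a y).trans (s.dL a),
    fun y => (cnt_mono fun a => hF a y).trans (s.dU y),
    fun y w => (cnt_mono fun a g => ⟨hF a y g.1, g.2⟩).trans (s.q1 y w),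
    fun y w => (cnt_mono fun a g => ⟨hF a y g.1, g.2⟩).trans (s.q2 y w),
    s.g1.imp fun _ g => ⟨g.1, fun a y e => g.2 a y (hF a y e)⟩,
    s.g2.imp fun _ g => ⟨g.1, fun a y e => g.2 a y (hF a y e)⟩,
    s.g3.imp fun _ g => ⟨g.1, fun a y e => g.2 a y (hF a y e)⟩, s.d1, s.d2⟩

lemma card_lt (hc : (Fintype.card V : ℝ) ^ 3 < 2 ^ L) :
    (Fintype.card V : ℝ) < 2 ^ L ∧ (Fintype.card V : ℝ) ^ 2 < 2 ^ L := by
  rcases Nat.eq_zero_or_pos (Fintype.card V) with e | e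
  · rw [e]; simp
  · have : (1:ℝ) ≤ Fintype.card V := by exact_mod_cast e
    exact ⟨((pow_one _).symm.trans_le (pow_le_pow_right₀ this (by norm_num))).trans_lt hc,
      (pow_le_pow_right₀ this (by norm_num)).trans_lt hc⟩

lemma lt1 (hc : (Fintype.card V : ℝ) ^ 3 < 2 ^ L) (p : V → Prop) : cnt p < 2 ^ L :=
  (cnt_le_card p).trans_lt (card_lt hc).1

lemma lt2 (hc : (Fintype.card V : ℝ) ^ 3 < 2 ^ L) (p : V × V → Prop) : cnt p < 2 ^ L :=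
  (cnt_le_card p).trans_lt (by rw [Fintype.card_prod, Nat.cast_mul, ← sq]; exact (card_lt hc).2)

lemma lt3 (hc : (Fintype.card V : ℝ) ^ 3 < 2 ^ L) (p : V × V × V → Prop) : cnt p < 2 ^ L :=
  (cnt_le_card p).trans_lt (by
    rw [Fintype.card_prod, Fintype.card_prod]; push_cast; linarith)

lemma cnt_zero_or {X : Type} [Fintype X] (p : X → Prop) : cnt p = 0 ∨ 1 ≤ cnt p := by
  by_cases e : ∃ x, p x
  · exact Or.inr (one_le_cnt e.choose_spec)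
  · exact Or.inl (cnt_zero fun x hx => e ⟨x, hx⟩)

lemma Chr_le (H : V → V → Prop) (κ : V → V → K) {P : ℝ}
    (hP : ∀ a k, cnt (fun y => H a y ∧ κ a y = k) ≤ P) : Chr H κ ≤ P * ed H := by
  rw [mul_comm]
  refine cnt_fib_le' (fun z => (z.1, z.2.1)) (fun z hz => hz.1) fun e _ =>
    le_trans (cnt_inj (fun z => z.2.2) ?_ ?_) (hP e.1 (κ e.1 e.2))
  · rintro z ⟨hz, rfl⟩; exact ⟨hz.2.1, hz.2.2.symm⟩
  · rintro ⟨a, y, z⟩ ⟨a', y', z'⟩ ⟨-, rfl⟩ ⟨-, h2⟩ e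
    simp only [Prod.mk.injEq] at h2 e ⊢
    exact ⟨h2.1.symm, h2.2.symm, e⟩

/-- the real inequalities of the context -/
lemma Ctx.num (c : Ctx h E t L θ) : (4096:ℝ) ≤ L ∧ (L:ℝ) ^ 6 ≤ θ ∧ 1 ≤ L ∧ 1 ≤ θ := by
  have h1 := c.L0
  exact ⟨by exact_mod_cast h1, by exact_mod_cast c.θ0, by omega,
    (Nat.one_le_pow _ _ (by omega)).trans c.θ0⟩

/-- cutting a set into pieces of size `s` -/
lemma chunks (p : V → Prop) {s : ℕ} (hs : 0 < s) : ∃ c : V → ℕ,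
    (∀ j, cnt (fun y => p y ∧ c y = j) ≤ s) ∧
    (∀ j : ℕ, ((j:ℝ) + 1) * s ≤ cnt p → (s:ℝ) ≤ cnt (fun y => p y ∧ c y = j)) ∧
    ∀ y, p y → (c y : ℝ) * s < cnt p := by
  set T := univ.filter p with hT
  have mem : ∀ y, p y → y ∈ T := fun y hy => by simp [hT, hy]
  set r : V → ℕ := fun y => if hy : y ∈ T then (T.equivFin ⟨y, hy⟩ : ℕ) else 0 with hr
  have rl : ∀ y, p y → r y < T.card := fun y hy => by simp [hr, mem y hy]
  have ri : ∀ x y, p x → p y → r x = r y → x = y := fun x y hx hy e => by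
    simp only [hr, dif_pos (mem x hx), dif_pos (mem y hy)] at e
    exact congrArg Subtype.val (T.equivFin.injective (Fin.ext e))
  have cp : cnt p = T.card := rfl
  have c1 : cnt (fun _ : Fin s => True) = s := by simp [cnt]
  refine ⟨fun y => r y / s, fun j => ?_, fun j hj => ?_, fun y hy => ?_⟩
  · rw [← c1]
    refine cnt_inj (fun y => ⟨r y % s, Nat.mod_lt _ hs⟩) (fun _ _ => trivial) fun x y hx hy e => ?_
    refine ri x y hx.1 hy.1 ?_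
    rw [← Nat.div_add_mod (r x) s, ← Nat.div_add_mod (r y) s, Fin.mk.inj e,
      show r x / s = r y / s from hx.2.trans hy.2.symm]
  · have hj' : (j + 1) * s ≤ T.card := by rw [cp] at hj; exact_mod_cast hj
    have lt : ∀ i : Fin s, s * j + i < T.card := fun i => by
      have := i.2
      nlinarith
    rw [← c1]
    refine cnt_inj (fun i => (T.equivFin.symm ⟨s * j + i, lt i⟩ : V)) (fun i _ => ?_)
      fun i i' _ _ e => ?_
    · have h1 := (T.equivFin.symm ⟨s * j + i, lt i⟩).2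
      refine ⟨(mem_filter.1 h1).2, ?_⟩
      simp only [hr, dif_pos h1, Subtype.coe_eta, Equiv.apply_symm_apply]
      rw [Nat.mul_add_div hs, Nat.div_eq_of_lt i.2, add_zero]
    · have := Fin.mk.inj (T.equivFin.symm.injective (Subtype.ext e))
      exact Fin.ext (by omega)
  · rw [cp]
    exact_mod_cast (Nat.div_mul_le_self _ _).trans_lt (rl y hy)

end Tools

end Pool.Agent.Lib.MP_65c801_co.T
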